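import Pool.Agent.Work.MP_6d5d4b_gt.FP.Defs

set_option autoImplicit false

/-!
# FP/Rad (size S-M): normalization and the radial projection

PROOFS. `nrm_val`: unfold `nrm`, `dif_neg`. `nrm_cont`: near `x ≠ 0` all points are nonzero, the map to the subtype is continuous iff its value is, and `y ↦ ‖y‖⁻¹ • y` is
continuous at `x` (`ContinuousAt.congr`, `continuousAt_subtype`-type lemma or `Topology.IsInducing`). `nrm_sph`: `‖x‖ = 1`, `x ≠ 0`. `nrm_smul`: `‖c x‖⁻¹ c x = ‖x‖⁻¹ x`. `nrm_neg`: the negation of `X k` is the instance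
of `Metric.sphere` (`coe_neg_sphere`). `nrm_eq`: from `‖x‖⁻¹ x = ‖y‖⁻¹ y` take `c = ‖x‖ / ‖y‖`. `io_bd`: `‖x‖ = 1` is the maximum of the `|x i|` (`Pi` norm: if all `|x i| < 1` then `‖x‖ < 1` by
`pi_norm_lt_iff`), so some `x i = ± 1`. `rad_io`: `nrm_sph`. `io_rad`: for `x ∈ bd (k+1)` the vector has norm `1`. `rad_cont`: composition of `nrm_cont` with the continuous inclusion of the cube
in `Fin (k+1) → ℝ`. `bd_ne`: a boundary point has a coordinate `± 1`. `bd_closed'`: finite union of closed sets.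
-/

open Topology Filter Set PoolFbd

namespace Pool.Agent.Work.MP_6d5d4b_gt.FP

variable {k : ℕ}

theorem nrm_val {x : Fin (k + 1) → ℝ} (hx : x ≠ 0) : (nrm x : X k).1 = ‖x‖⁻¹ • x := by
  unfold nrm
  rw [dif_neg hx]

theorem nrm_cont {x : Fin (k + 1) → ℝ} (hx : x ≠ 0) : ContinuousAt (nrm : (Fin (k + 1) → ℝ) → X k) x := by
  rw [Topology.IsInducing.subtypeVal.continuousAt_iff]
  have h1 : ContinuousAt (fun y : Fin (k + 1) → ℝ => ‖y‖⁻¹ • y) x :=
    (continuous_norm.continuousAt.inv₀ (norm_ne_zero_iff.2 hx)).smul continuousAt_id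
  refine h1.congr ?_
  filter_upwards [isOpen_compl_singleton.mem_nhds hx] with y hy
  exact (nrm_val hy).symm

theorem nrm_sph (x : X k) : nrm x.1 = x := by
  have h1 : ‖x.1‖ = 1 := mem_sphere_zero_iff_norm.1 x.2
  have h0 : x.1 ≠ 0 := by
    intro h
    rw [h, norm_zero] at h1
    exact zero_ne_one h1
  apply Subtype.ext
  rw [nrm_val h0, h1, inv_one, one_smul]

theorem nrm_smul {c : ℝ} (hc : 0 < c) {x : Fin (k + 1) → ℝ} (hx : x ≠ 0) : (nrm (c • x) : X k) = nrm x := by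
  apply Subtype.ext
  rw [nrm_val hx, nrm_val (smul_ne_zero hc.ne' hx), norm_smul, Real.norm_of_nonneg hc.le, smul_smul,
    mul_inv, mul_comm c⁻¹, mul_assoc, inv_mul_cancel₀ hc.ne', mul_one]

theorem nrm_neg {x : Fin (k + 1) → ℝ} (hx : x ≠ 0) : (nrm (-x) : X k) = -nrm x := by
  apply Subtype.ext
  rw [nrm_val (neg_ne_zero.2 hx), coe_neg_sphere, nrm_val hx, norm_neg, smul_neg]

theorem nrm_eq {x y : Fin (k + 1) → ℝ} (hx : x ≠ 0) (hy : y ≠ 0) (h : (nrm x : X k) = nrm y) :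
    ∃ c : ℝ, 0 < c ∧ x = c • y := by
  have h1 : ‖x‖⁻¹ • x = ‖y‖⁻¹ • y := by
    rw [← nrm_val hx, ← nrm_val hy, h]
  have hx' : 0 < ‖x‖ := norm_pos_iff.2 hx
  have hy' : 0 < ‖y‖ := norm_pos_iff.2 hy
  refine ⟨‖x‖ * ‖y‖⁻¹, mul_pos hx' (inv_pos.2 hy'), ?_⟩
  rw [mul_smul, ← h1, smul_smul, mul_inv_cancel₀ hx'.ne', one_smul]

theorem sph_ne (x : X k) : x.1 ≠ 0 := by
  have h1 : ‖x.1‖ = 1 := mem_sphere_zero_iff_norm.1 x.2
  intro h
  rw [h, norm_zero] at h1
  exact zero_ne_one h1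

theorem io_bd (x : X k) : io x ∈ bd (k + 1) := by
  have h1 : ‖x.1‖ = 1 := mem_sphere_zero_iff_norm.1 x.2
  by_contra hn
  have h2 : ∀ i, ‖x.1 i‖ < 1 := by
    intro i
    have h3 : ‖x.1 i‖ ≤ ‖x.1‖ := norm_le_pi_norm x.1 i
    rw [h1] at h3
    refine lt_of_le_of_ne h3 fun h4 => hn ⟨i, ?_⟩
    rw [Real.norm_eq_abs] at h4
    rcases (abs_eq zero_le_one).1 h4 with h5 | h5
    · exact Or.inr h5
    · exact Or.inl h5
  have h3 : ‖x.1‖ < 1 := (pi_norm_lt_iff one_pos).2 h2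
  exact absurd h1 h3.ne

theorem io_cont : Continuous (io : X k → Q (k + 1)) := by
  refine continuous_pi fun i => ?_
  exact Continuous.subtype_mk ((continuous_apply i).comp continuous_subtype_val) _

theorem rad_io (x : X k) : rad (io x) = x := by
  exact nrm_sph x

theorem io_rad {x : Q (k + 1)} (hx : x ∈ bd (k + 1)) : io (rad x : X k) = x := by
  obtain ⟨i, hi⟩ := hx
  have h1 : ‖(fun i => (x i : ℝ))‖ = 1 := by
    refine le_antisymm ?_ ?_
    · refine (pi_norm_le_iff_of_nonneg zero_le_one).2 fun j => ?_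
      rw [Real.norm_eq_abs]
      exact abs_le.2 (x j).2
    · have h2 : ‖(x i : ℝ)‖ ≤ ‖(fun i => (x i : ℝ))‖ := norm_le_pi_norm (fun i => (x i : ℝ)) i
      refine le_trans ?_ h2
      rcases hi with hi | hi
      · simp only [hi]
        norm_num
      · simp only [hi]
        norm_num
  have h0 : (fun i => (x i : ℝ)) ≠ 0 := by
    intro h
    rw [h, norm_zero] at h1
    exact zero_ne_one h1
  funext j
  apply Subtype.ext
  have h3 : (rad x : X k).1 = fun i => (x i : ℝ) := by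
    unfold rad
    rw [nrm_val h0, h1, inv_one, one_smul]
  change (rad x : X k).1 j = (x j : ℝ)
  rw [h3]

theorem rad_cont {x : Q (k + 1)} (hx : ∃ i, (x i : ℝ) ≠ 0) : ContinuousAt (rad : Q (k + 1) → X k) x := by
  have h0 : (fun i => (x i : ℝ)) ≠ 0 := by
    obtain ⟨i, hi⟩ := hx
    intro h
    exact hi (congrFun h i)
  have h1 : Continuous fun (y : Q (k + 1)) (i : Fin (k + 1)) => (y i : ℝ) :=
    continuous_pi fun i => continuous_subtype_val.comp (continuous_apply i)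
  exact ContinuousAt.comp (f := fun (y : Q (k + 1)) (i : Fin (k + 1)) => (y i : ℝ)) (nrm_cont h0)
    h1.continuousAt

theorem bd_ne {x : Q (k + 1)} (hx : x ∈ bd (k + 1)) : ∃ i, (x i : ℝ) ≠ 0 := by
  obtain ⟨i, hi⟩ := hx
  refine ⟨i, ?_⟩
  rcases hi with hi | hi
  · rw [hi]
    norm_num
  · rw [hi]
    norm_num

theorem bd_closed' (n : ℕ) : IsClosed (bd n) := by
  have h : bd n = ⋃ i : Fin n, ({x : Q n | (x i : ℝ) = -1} ∪ {x : Q n | (x i : ℝ) = 1}) := by
    ext x
    simp [bd]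
  rw [h]
  refine isClosed_iUnion_of_finite fun i => ?_
  have hc : Continuous fun x : Q n => (x i : ℝ) := continuous_subtype_val.comp (continuous_apply i)
  exact (isClosed_eq hc continuous_const).union (isClosed_eq hc continuous_const)

end Pool.Agent.Work.MP_6d5d4b_gt.FP
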