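import Pool.Agent.Work.MP_6d5d4b_gt.FP.BorB
import Pool.Agent.Work.MP_6d5d4b_gt.FP.Rad

set_option autoImplicit false

/-!
# FP/BU (size S-M): no nonvanishing map of the ball which is odd on the boundary

PROOF. `m = 1`: the ball of `Fin 1 → ℝ` is `[-1,1]`; `x ↦ F x 0` is continuous and takes opposite values at `±1`: a zero by the intermediate value theorem. `m = k + 1`, `k ≥ 1`: `g x = nrm (F x.1) : X k → X k` is continuous (`nrm_cont`), odd (`nrm_neg`),
so `deg g` is odd (`deg_odd`). `H s x = nrm (F ((1 - s') • x.1))`, `s' = max 0 (min 1 s)`, is continuous on `ℝ × X k`, `H 0 = g`, `H 1` is constant: `deg g = 0` by `deg_hty`, `deg_const`. Contradiction.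
-/

open Topology Filter Set PoolFbd

namespace Pool.Agent.Work.MP_6d5d4b_gt.FP

private theorem bu_one {F : (Fin 1 → ℝ) → (Fin 1 → ℝ)} (hF : ContinuousOn F (Metric.closedBall 0 1))
    (ho : ∀ x, ‖x‖ = 1 → F (-x) = -F x) (h0 : ∀ x ∈ Metric.closedBall (0 : Fin 1 → ℝ) 1, F x ≠ 0) : False := by
  have hc : Continuous fun (t : ℝ) (_ : Fin 1) => t := continuous_pi fun _ => continuous_id
  have hn : ∀ t : ℝ, ‖(fun _ : Fin 1 => t)‖ = |t| := fun t => by
    rw [pi_norm_const, Real.norm_eq_abs]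
  have hm : ∀ t ∈ Icc (-1 : ℝ) 1, (fun _ : Fin 1 => t) ∈ Metric.closedBall (0 : Fin 1 → ℝ) 1 := by
    intro t ht
    rw [mem_closedBall_zero_iff, hn]
    exact abs_le.2 ht
  have hf : ContinuousOn (fun t : ℝ => F (fun _ => t) 0) (Icc (-1) 1) := by
    have h1 : ContinuousOn (fun t : ℝ => F (fun _ => t)) (Icc (-1) 1) :=
      hF.comp hc.continuousOn hm
    exact (continuous_apply (0 : Fin 1)).comp_continuousOn h1
  have h2 : F (fun _ => (-1 : ℝ)) 0 = - F (fun _ => (1 : ℝ)) 0 := by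
    have h3 := ho (fun _ => (1 : ℝ)) (by rw [hn, abs_one])
    have h4 : (-fun _ : Fin 1 => (1 : ℝ)) = fun _ => (-1 : ℝ) := by
      funext i
      simp
    rw [h4] at h3
    rw [h3]
    rfl
  have h5 : ∃ t ∈ Icc (-1 : ℝ) 1, F (fun _ => t) 0 = 0 := by
    rcases le_total 0 (F (fun _ => (1 : ℝ)) 0) with h | h
    · have h6 := intermediate_value_Icc (by norm_num : (-1 : ℝ) ≤ 1) hf
      have h7 : (0 : ℝ) ∈ Icc (F (fun _ => (-1 : ℝ)) 0) (F (fun _ => (1 : ℝ)) 0) :=
        ⟨by rw [h2]; linarith, h⟩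
      obtain ⟨t, ht, hte⟩ := h6 h7
      exact ⟨t, ht, hte⟩
    · have h6 := intermediate_value_Icc' (by norm_num : (-1 : ℝ) ≤ 1) hf
      have h7 : (0 : ℝ) ∈ Icc (F (fun _ => (1 : ℝ)) 0) (F (fun _ => (-1 : ℝ)) 0) :=
        ⟨h, by rw [h2]; linarith⟩
      obtain ⟨t, ht, hte⟩ := h6 h7
      exact ⟨t, ht, hte⟩
  obtain ⟨t, ht, hte⟩ := h5
  refine h0 _ (hm t ht) (funext fun i => ?_)
  rw [Subsingleton.elim i 0, hte]
  rfl

private theorem bu_succ {k : ℕ} (hk : 1 ≤ k) {F : (Fin (k + 1) → ℝ) → (Fin (k + 1) → ℝ)}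
    (hF : ContinuousOn F (Metric.closedBall 0 1)) (ho : ∀ x, ‖x‖ = 1 → F (-x) = -F x)
    (h0 : ∀ x ∈ Metric.closedBall (0 : Fin (k + 1) → ℝ) 1, F x ≠ 0) : False := by
  have hn : ∀ x : X k, ‖x.1‖ = 1 := fun x => mem_sphere_zero_iff_norm.1 x.2
  have hmem : ∀ (s : ℝ) (x : X k), (1 - max 0 (min 1 s)) • x.1 ∈
      Metric.closedBall (0 : Fin (k + 1) → ℝ) 1 := by
    intro s x
    rw [mem_closedBall_zero_iff, norm_smul, hn, mul_one, Real.norm_eq_abs]
    have h1 : 0 ≤ max 0 (min 1 s) := le_max_left _ _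
    have h2 : max 0 (min 1 s) ≤ 1 := max_le zero_le_one (min_le_left _ _)
    exact abs_le.2 ⟨by linarith, by linarith⟩
  set H : ℝ → X k → X k := fun s x => nrm (F ((1 - max 0 (min 1 s)) • x.1)) with hH
  have hHc : Continuous fun p : ℝ × X k => H p.1 p.2 := by
    have h1a : Continuous fun p : ℝ × X k => p.2.1 := continuous_subtype_val.comp continuous_snd
    have h1 : Continuous fun p : ℝ × X k => (1 - max 0 (min 1 p.1)) • p.2.1 := by
      have h1b : Continuous fun p : ℝ × X k => (1 - max 0 (min 1 p.1) : ℝ) :=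
        continuous_const.sub (continuous_const.max (continuous_const.min continuous_fst))
      exact h1b.smul h1a
    have h2 : Continuous fun p : ℝ × X k => F ((1 - max 0 (min 1 p.1)) • p.2.1) :=
      hF.comp_continuous h1 fun p => hmem p.1 p.2
    rw [continuous_iff_continuousAt]
    intro p
    exact ContinuousAt.comp (f := fun p : ℝ × X k => F ((1 - max 0 (min 1 p.1)) • p.2.1))
      (nrm_cont (h0 _ (hmem p.1 p.2))) h2.continuousAt
  have hd := deg_hty hk hHc
  have hg0 : ∀ x : X k, H 0 x = nrm (F x.1) := by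
    intro x
    simp only [hH]
    rw [min_eq_right zero_le_one, max_self, sub_zero, one_smul]
  have hg1 : H 1 = fun _ => nrm (F 0) := by
    funext x
    simp only [hH]
    rw [min_self, max_eq_right zero_le_one, sub_self, zero_smul]
  have h1 : Continuous (H 0) := hHc.comp (Continuous.prodMk continuous_const continuous_id)
  have h2 : ∀ x : X k, H 0 (-x) = - H 0 x := by
    intro x
    rw [hg0, hg0, coe_neg_sphere, ho _ (hn x)]
    refine nrm_neg (h0 _ ?_)
    rw [mem_closedBall_zero_iff, hn]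
  have h3 : Odd (deg (H 0)) := deg_odd hk h1 h2
  rw [hd, hg1, deg_const hk] at h3
  exact absurd h3 (by decide)

theorem bu {m : ℕ} (hm : 1 ≤ m) {F : (Fin m → ℝ) → (Fin m → ℝ)} (hF : ContinuousOn F (Metric.closedBall 0 1))
    (ho : ∀ x, ‖x‖ = 1 → F (-x) = -F x) (h0 : ∀ x ∈ Metric.closedBall (0 : Fin m → ℝ) 1, F x ≠ 0) : False := by
  obtain ⟨k, rfl⟩ : ∃ k, m = k + 1 := ⟨m - 1, by omega⟩
  rcases Nat.eq_zero_or_pos k with rfl | hk
  · exact bu_one hF ho h0
  · exact bu_succ hk hF ho h0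

end Pool.Agent.Work.MP_6d5d4b_gt.FP
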