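import Pool.Agent.Work.MP_6d5d4b_gt.FP.Rad

set_option autoImplicit false

/-!
# FP/SphC (size M): cohomology of the sphere `X k`

PROOFS. Generalization of `MP_fbd21a_gt/SphH.lean` (there `k = 3`; copy the private lemmas `sphh_low`, `sphh_coc`, `sphh_succ`, `sphh_pb`, `sphh_io`, `sphh_pbpb`, `sphh_back`), with the cube `Q (k+1)`, `rad`, `io` and the lemmas of `Rad`.
Let `χ` be a cocycle of degree `j` of `X k`; `φ = pb rad χ` is a cocycle near `{x | ∃ i, x i ≠ 0} ⊇ bd (k+1)` (`Coc.pb` with `rad_cont`). `dd one φ` is a relative cocycle of `(univ, bd (k+1))` of degree `j + 1` (`LZ_dd_dd`).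
If it is a relative coboundary, `dd one φ = dd one v` near `univ`, `v` zero near `bd`, then `φ - v` is a cocycle of the cube: exact for `j ≥ 1`, constant for `j = 0` (`acyc_Q`), so `φ` is exact (constant) near `bd (k+1)`, and `χ = pb io φ`
(`rad_io`) is exact on `X k` (`io_cont`, `io_bd`). `j ≠ k`: `box_low`; `j = k`: `Itg_zero_iff` and `h`. `sph_H0`: degree `0 ≠ k`; `LZ univ` of a cochain of degree 0 means that it vanishes at all points.
`dg_cob`: `k ≥ 1`, `φ = dd one ψ` near `univ`, `ψ` of degree `k - 1`. `P = pb rad φ - dd one (pb rad ψ)` is `LZ (bd (k+1))` (`dd_pb`, `LZ.pb`); `dd one (pb rad φ) - dd one P = dd one (dd one (pb rad ψ))` is `LZ univ`, so `dd one (pb rad φ)` is a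
relative coboundary: `Itg_cob`.
`dg_coc`: `dd one (pb rad φ)` is a relative cocycle (used for the next module).
-/

open Topology Filter Set PoolFbd

namespace Pool.Agent.Work.MP_6d5d4b_gt.FP

variable {A : Type} [AddCommGroup A] {k : ℕ}

private theorem sc_low {n m : ℕ} {φ : Coch (Q n) A m} (h : Cob one univ (bd n) (dd one φ)) :
    ∃ v : Coch (Q n) A m, LZ (bd n) v ∧ LZ univ (dd one (φ - v)) := by
  obtain ⟨v, hv, hv2⟩ := h
  refine ⟨v, hv, ?_⟩
  rw [dd_sub]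
  exact hv2

private theorem sc_coc {n m : ℕ} {φ : Coch (Q n) A m} (hφ : LZ (bd n) (dd one φ)) :
    Coc one univ (bd n) (dd one φ) :=
  ⟨hφ, LZ_dd_dd (IsTw.one univ) φ⟩

private theorem sc_succ {n m : ℕ} {φ : Coch (Q n) A (m + 1)}
    (h : Cob one univ (bd n) (dd one φ)) : Cob one (bd n) ∅ φ := by
  obtain ⟨v, hv, hv2⟩ := sc_low h
  have h1 : Cob one univ ∅ (φ - v) := ((acyc_Q n).2 A).2 m (φ - v) hv2
  have h2 : Cob one (bd n) ∅ (φ - v) := h1.mono (subset_univ _) (Subset.refl _)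
  have h3 : Cob one (bd n) ∅ v := Cob.of_LZ hv
  have := h2.add h3
  rwa [sub_add_cancel] at this

private theorem sc_rad : ∀ x ∈ bd (k + 1), ContinuousAt (rad : Q (k + 1) → X k) x ∧
    (rad x : X k) ∈ (univ : Set (X k)) :=
  fun _ hx => ⟨rad_cont (bd_ne hx), mem_univ _⟩

private theorem sc_pb {m : ℕ} {χ : Coch (X k) A m} (hχ : LZ univ (dd one χ)) :
    LZ (bd (k + 1)) (dd one (pb (rad : Q (k + 1) → X k) χ)) := by
  have h : Coc one univ ∅ χ := ⟨LZ.empty χ, hχ⟩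
  exact (Coc.pb (f := (rad : Q (k + 1) → X k)) (S := bd (k + 1)) (Z := ∅) sc_rad
    (fun x hx => hx.elim) h).2

private theorem sc_io : ∀ x ∈ (univ : Set (X k)), ContinuousAt (io : X k → Q (k + 1)) x ∧
    (io x : Q (k + 1)) ∈ bd (k + 1) :=
  fun x _ => ⟨io_cont.continuousAt, io_bd x⟩

private theorem sc_pbpb {m : ℕ} (χ : Coch (X k) A m) :
    pb (io : X k → Q (k + 1)) (pb (rad : Q (k + 1) → X k) χ) = χ := by
  funext t
  simp only [pb, rad_io]

private theorem sc_back {m : ℕ} {χ : Coch (X k) A m}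
    (h : Cob one (bd (k + 1)) ∅ (pb (rad : Q (k + 1) → X k) χ)) : Cob one univ ∅ χ := by
  have := Cob.pb (f := (io : X k → Q (k + 1))) (S := univ) (Z := ∅) sc_io (fun x hx => hx.elim) h
  rwa [pbt_one, sc_pbpb] at this

theorem dg_coc {φ : Coch (X k) A k} (hφ : LZ univ (dd one φ)) :
    Coc one univ (bd (k + 1)) (dd one (pb (rad : Q (k + 1) → X k) φ)) :=
  sc_coc (sc_pb hφ)

theorem sph_H0 (hk : 1 ≤ k) {φ : Coch (X k) A 0} (hφ : LZ univ (dd one φ)) :
    ∃ a : A, ∀ x : X k, φ (fun _ => x) = a := by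
  obtain ⟨v, hv, hv2⟩ := sc_low (box_low (n := k + 1) (m := 0 + 1) (by omega) (sc_coc (sc_pb hφ)))
  obtain ⟨a, ha⟩ := ((acyc_Q (k + 1)).2 A).1 _ hv2
  refine ⟨a, fun x => ?_⟩
  have h1 := (ha.mono (subset_univ (bd (k + 1)))).add hv
  have h2 : LZ (bd (k + 1)) (pb (rad : Q (k + 1) → X k) φ - cst (Q (k + 1)) 0 a) := by
    convert h1 using 1
    abel
  have h3 := (h2 (io x) (io_bd x)).self_of_nhds
  simp only [Pi.sub_apply, pb, rad_io, cst] at h3
  exact sub_eq_zero.1 h3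

theorem sph_low (hk : 1 ≤ k) {j : ℕ} (hj : 1 ≤ j) (hjk : j ≠ k) {φ : Coch (X k) A j}
    (hφ : LZ univ (dd one φ)) : Cob one univ ∅ φ := by
  obtain ⟨m, rfl⟩ : ∃ m, j = m + 1 := ⟨j - 1, by omega⟩
  exact sc_back (sc_succ (box_low (n := k + 1) (m := m + 1 + 1) (by omega) (sc_coc (sc_pb hφ))))

theorem sph_top (hk : 1 ≤ k) {φ : Coch (X k) A k} (hφ : LZ univ (dd one φ)) (h : dg φ = 0) :
    Cob one univ ∅ φ := by
  obtain ⟨m, rfl⟩ : ∃ m, k = m + 1 := ⟨k - 1, by omega⟩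
  exact sc_back (sc_succ ((Itg_zero_iff (sc_coc (sc_pb hφ))).1 h))

theorem dg_cob (hk : 1 ≤ k) {φ : Coch (X k) A k} (h : Cob one univ ∅ φ) : dg φ = 0 := by
  obtain ⟨m, rfl⟩ : ∃ m, k = m + 1 := ⟨k - 1, by omega⟩
  obtain ⟨ψ, -, hψ⟩ := h
  refine Itg_cob ⟨pb (rad : Q (m + 1 + 1) → X (m + 1)) φ -
    dd one (pb (rad : Q (m + 1 + 1) → X (m + 1)) ψ), ?_, ?_⟩
  · have h1 : LZ (bd (m + 1 + 1)) (pb (rad : Q (m + 1 + 1) → X (m + 1)) (φ - dd one ψ)) :=
      LZ.pb sc_rad hψ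
    exact h1
  · rw [dd_sub, sub_sub_cancel]
    exact LZ_dd_dd (IsTw.one univ) _

end Pool.Agent.Work.MP_6d5d4b_gt.FP
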