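import Pool.Agent.Work.MP_6d5d4b_gt.FP.CuL
import Pool.Agent.Work.MP_6d5d4b_gt.FP.SphC

set_option autoImplicit false

/-!
# FP/BorA (size M): Borsuk: the power `w^(j+1)`, `j + 1 ≤ k`, is not the coboundary of an even cochain

All coefficients are in `ZMod 2` (signs do not matter, `(-1 : ℤ)^i • x = x`, `x + x = 0`). FACTS: `wc h = dd one h0`, `h0 t = h (t 0)`, exactly (for all pairs); so `dd one (wc h) = 0` and `dd one (wp h j) = 0` exactly (Leibniz `dd_cu`; `dd one` of the
constant `1` of degree 0 is `0`; `dd one (dd one h0) = 0` exactly: `DdDd`, or direct computation `(h c + h b) + (h c + h a) + (h b + h a) = 0`). `pb (- ·) (wc h) = wc h` for `oddf h`, so `pb (- ·) (wp h j) = wp h j`.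
`z_j = cu (h0) (wp h j)` (degree `0 + j`): `dd one z_j = wp h (j+1)` exactly and `z_j + pb (- ·) z_j = wp h j` exactly (`h (-x) + h x = 1`).
PROOF by induction on `j`. `j = 0`: `η` even of degree 0, `wp h 1 - dd one η = dd one (h0 - η)` (`cu (wc h) 1 = wc h`) is `LZ univ`, so by `sph_H0` (`k ≥ 1`) `h x - η x = a` for all `x`; `η (-x) = η x` gives `h (-x) = h x`, but `h (-x) = h x + 1`.
`j + 1` (so `j + 2 ≤ k`): `η` even of degree `j + 1`, `wp h (j+2) - dd one η` is `LZ univ`. `z = z_(j+1) - η` (degree `j + 1`, `1 ≤ j + 1 < k`) is a cocycle, `z = dd one ζ` near `univ` by `sph_low`. `ζ' = ζ + pb (- ·) ζ` is even of degree `j`, and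
`dd one ζ' = z + pb (- ·) z = wp h (j+1) - 2 η = wp h (j+1)` near `univ`: contradiction to the case `j`.
-/

open Topology Filter Set PoolFbd

namespace Pool.Agent.Work.MP_6d5d4b_gt.FP

variable {k : ℕ}

private def bo0 (h : X k → ZMod 2) : Coch (X k) (ZMod 2) 0 := fun t => h (t 0)

private theorem bo_two (x : ZMod 2) : x + x = 0 := CharTwo.add_self_eq_zero x

private theorem bo_wc (h : X k → ZMod 2) : wc h = dd one (bo0 h) := by
  funext t
  have e : dd one (bo0 h) t = h (t 1) - h (t 0) := by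
    simp [dd, one, bo0, sub_eq_add_neg]
  rw [e, CharTwo.sub_eq_add]
  rfl

private theorem bo_dd {n : ℕ} (φ : Coch (X k) (ZMod 2) n) : dd one (dd one φ) = 0 := by
  funext t
  exact dd_dd_apply one φ t (by simp [one])

private theorem bo_cu_zl {q p n : ℕ} (h : q + p = n) (φ : Coch (X k) (ZMod 2) p) :
    cu h (0 : Coch (X k) (ZMod 2) q) φ = 0 := by
  funext t
  rw [cu_apply]
  simp

private theorem bo_cu_zr {q p n : ℕ} (h : q + p = n) (c : Coch (X k) (ZMod 2) q) :
    cu h c (0 : Coch (X k) (ZMod 2) p) = 0 := by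
  funext t
  rw [cu_apply]
  simp

private theorem bo_cu_one {j : ℕ} (φ : Coch (X k) (ZMod 2) j) :
    cu (Nat.zero_add j) (fun _ => 1) φ = φ := by
  funext t
  rw [cu_apply, one_mul]
  congr 1
  funext i
  congr 1
  exact Fin.ext (Nat.zero_add _)

private theorem bo_cu_one' (c : Coch (X k) (ZMod 2) 1) :
    cu (Nat.add_comm 1 0) c (fun _ => 1) = c := by
  funext t
  rw [cu_apply, mul_one]

private theorem bo_pbcu {q p n : ℕ} (h : q + p = n) (c : Coch (X k) (ZMod 2) q)
    (φ : Coch (X k) (ZMod 2) p) (f : X k → X k) :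
    pb f (cu h c φ) = cu h (pb f c) (pb f φ) := rfl

theorem wp_coc (h : X k → ZMod 2) (j : ℕ) : dd one (wp h j) = 0 := by
  induction j with
  | zero =>
    funext t
    simp [dd, one, wp]
    exact bo_two 1
  | succ j ih =>
    have e := dd_cu (Nat.add_comm 1 j) (by omega) (by omega) (wc h) (wp h j)
    change dd one (cu (Nat.add_comm 1 j) (wc h) (wp h j)) = 0
    rw [e, ih, bo_wc, bo_dd, bo_cu_zl, bo_cu_zr, smul_zero, add_zero]

private theorem bo_wc_even {h : X k → ZMod 2} (hh : oddf h) :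
    pb (fun x : X k => -x) (wc h) = wc h := by
  funext t
  change h (-(t 1)) + h (-(t 0)) = h (t 1) + h (t 0)
  rw [hh, hh]
  have := bo_two 1
  linear_combination this

theorem wp_even {h : X k → ZMod 2} (hh : oddf h) (j : ℕ) : pb (fun x : X k => -x) (wp h j) = wp h j := by
  induction j with
  | zero => rfl
  | succ j ih =>
    change pb (fun x : X k => -x) (cu (Nat.add_comm 1 j) (wc h) (wp h j)) =
      cu (Nat.add_comm 1 j) (wc h) (wp h j)
    rw [bo_pbcu, ih, bo_wc_even hh]

/-- `h ∪ w^j` -/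
theorem wp_tr {h : X k → ZMod 2} (hh : oddf h) (j : ℕ) :
    dd one (cu (Nat.zero_add j) (fun t => h (t 0)) (wp h j)) = wp h (j + 1) ∧
    cu (Nat.zero_add j) (fun t => h (t 0)) (wp h j) +
      pb (fun x : X k => -x) (cu (Nat.zero_add j) (fun t => h (t 0)) (wp h j)) = wp h j := by
  constructor
  · have e := dd_cu (Nat.zero_add j) (by omega) (by omega) (bo0 h) (wp h j)
    change dd one (cu (Nat.zero_add j) (bo0 h) (wp h j)) = _
    rw [e, wp_coc, bo_cu_zr, smul_zero, add_zero, ← bo_wc]
    rfl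
  · rw [bo_pbcu, wp_even hh]
    have e1 : pb (fun x : X k => -x) (fun t => h (t 0) : Coch (X k) (ZMod 2) 0) =
        (fun t => h (t 0)) + (fun _ => 1) := by
      funext t
      exact hh (t 0)
    rw [e1, cu_add_left, bo_cu_one, ← add_assoc]
    have e2 : ∀ φ : Coch (X k) (ZMod 2) j, φ + φ = 0 := fun φ => by
      funext t
      exact bo_two (φ t)
    rw [e2, zero_add]

theorem bor (hk : 1 ≤ k) {h : X k → ZMod 2} (hh : oddf h) {j : ℕ} (hj : j + 1 ≤ k)
    (η : Coch (X k) (ZMod 2) j) (hη : pb (fun x : X k => -x) η = η) :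
    ¬ LZ univ (wp h (j + 1) - dd one η) := by
  induction j with
  | zero =>
    intro hL
    have e1 : wp h (0 + 1) = dd one (bo0 h) := by
      rw [← bo_wc]
      exact bo_cu_one' (wc h)
    rw [e1, ← dd_sub] at hL
    obtain ⟨a, ha⟩ := sph_H0 hk hL
    have h1 := ha (bp k)
    have h2 := ha (-(bp k))
    have h3 : η (fun _ => -(bp k)) = η (fun _ => bp k) := congrFun hη (fun _ => bp k)
    have h4 : h (-(bp k)) = h (bp k) + 1 := hh (bp k)
    change h (bp k) - η (fun _ => bp k) = a at h1
    change h (-(bp k)) - η (fun _ => -(bp k)) = a at h2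
    rw [h3, h4] at h2
    have h5 : (1 : ZMod 2) = 0 := by linear_combination h2 - h1
    exact one_ne_zero h5
  | succ j ih =>
    intro hL
    obtain ⟨t1, t2⟩ := wp_tr hh (j + 1)
    generalize hZ : cu (Nat.zero_add (j + 1)) (fun t => h (t 0)) (wp h (j + 1)) = Z at t1 t2
    have hz : LZ univ (dd one (Z - η)) := by
      rw [dd_sub, t1]
      exact hL
    obtain ⟨ζ, -, hζ⟩ := sph_low hk (by omega) (by omega) hz
    have hev : pb (fun x : X k => -x) (ζ + pb (fun x : X k => -x) ζ) =
        ζ + pb (fun x : X k => -x) ζ := by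
      have e : pb (fun x : X k => -x) (pb (fun x : X k => -x) ζ) = ζ := by
        funext t
        change ζ (fun j => - - t j) = ζ t
        simp only [neg_neg]
      change pb (fun x : X k => -x) ζ + pb (fun x : X k => -x) (pb (fun x : X k => -x) ζ) = _
      rw [e, add_comm]
    refine ih (by omega) (ζ + pb (fun x : X k => -x) ζ) hev ?_
    have h1 : LZ univ (pb (fun x : X k => -x) (Z - η - dd one ζ)) :=
      LZ.pb (fun x _ => ⟨continuous_neg.continuousAt, mem_univ _⟩) hζ
    have h2 := hζ.add h1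
    have e3 : dd one (ζ + pb (fun x : X k => -x) ζ) =
        dd one ζ + pb (fun x : X k => -x) (dd one ζ) := by
      rw [dd_add]
      rfl
    rw [e3]
    have e4 : pb (fun x : X k => -x) (Z - η - dd one ζ) =
        pb (fun x : X k => -x) Z - pb (fun x : X k => -x) η - pb (fun x : X k => -x) (dd one ζ) := rfl
    rw [e4, hη] at h2
    have e5 : η + η = 0 := by
      funext t
      exact bo_two (η t)
    have e6 : wp h (j + 1) - (dd one ζ + pb (fun x : X k => -x) (dd one ζ)) =
        Z - η - dd one ζ + (pb (fun x : X k => -x) Z - η - pb (fun x : X k => -x) (dd one ζ)) := by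
      rw [← t2, ← sub_zero (Z + pb (fun x : X k => -x) Z), ← e5]
      abel
    rw [e6]
    exact h2

end Pool.Agent.Work.MP_6d5d4b_gt.FP
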