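import Pool.Agent.Work.MP_6d5d4b_gt.FP.Hty

set_option autoImplicit false

/-!
# FP/Ctr (size S): cocycles are exact along contractible compact sets

PROOF. `hty` with `Z = ∅` gives `Cob one S ∅ (pb (H 0) φ - pb (H 1) φ)`, and `pb (H 1) φ = cst E (n+1) v`, `v = φ (fun _ => c)`. If `S = ∅` everything is trivial (`LZ.empty`, primitive `0`). Otherwise `c = H 1 x ∈ S'`, so
`dd one φ` vanishes at the constant tuple `c`: `(∑_{i ≤ n+2} (-1)^i) • v = 0`. If `n` is even this is `v = 0` and `cst` is zero; if `n` is odd, `cst E (n+1) v = dd one (cst E n v)` exactly (`n + 2` faces, an odd number). See `cst_dd` in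
`MP_fbd21a_gt/Contr.lean` (private, copy it).
-/

open Topology Filter Set PoolFbd

namespace Pool.Agent.Work.MP_6d5d4b_gt.FP

private theorem cst_dd {E A : Type*} [AddCommGroup A] (n : ℕ) (v : A) (t : Fin (n + 1 + 1) → E) :
    dd one (cst E n v) t = if Even (n + 1 + 1) then 0 else v := by
  have h : dd one (cst E n v) t = (∑ i : Fin (n + 1 + 1), (-1 : ℤ) ^ (i : ℕ)) • v := by
    rw [Fin.sum_univ_succ, add_smul, Finset.sum_smul]
    simp [dd, cst, one]
  rw [h, Fin.sum_neg_one_pow]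
  split_ifs <;> simp

theorem exact_of_contr {E E' A : Type} [PseudoMetricSpace E] [PseudoMetricSpace E'] [AddCommGroup A] {S : Set E}
    (hS : IsCompact S) {S' : Set E'} (H : ℝ → E → E')
    (hH : ∀ s ∈ Icc (0 : ℝ) 1, ∀ x ∈ S, ContinuousAt (fun p : ℝ × E => H p.1 p.2) (s, x))
    (hS' : ∀ s ∈ Icc (0 : ℝ) 1, ∀ x ∈ S, H s x ∈ S') {c : E'} (h1 : ∀ x, H 1 x = c)
    {n : ℕ} {φ : Coch E' A (n + 1)} (hφ : LZ S' (dd one φ)) : Cob one S ∅ (pb (H 0) φ) := by
  rcases S.eq_empty_or_nonempty with hE | ⟨x, hx⟩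
  · subst hE
    exact Cob.of_LZ (LZ.empty _)
  have hc : c ∈ S' := by
    have := hS' 1 ⟨zero_le_one, le_rfl⟩ x hx
    rwa [h1] at this
  have h4 : Cob one S ∅ (pb (H 0) φ - pb (H 1) φ) :=
    hty (Z := ∅) (Z' := ∅) hS isCompact_empty H
      (fun s hs x hx => hH s hs x (by simpa using hx)) hS' (fun s _ x hx => hx.elim)
      ⟨LZ.empty _, hφ⟩
  have h5 : pb (H 1) φ = cst E (n + 1) (φ (fun _ => c)) := by
    funext t
    simp only [pb, cst, h1]
  rw [h5] at h4
  have h6 : dd one φ (fun _ => c) = 0 := (hφ c hc).self_of_nhds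
  have h7 : dd one φ (fun _ => c) = dd one (cst E' (n + 1) (φ (fun _ => c))) (fun _ => c) := rfl
  rw [h7, cst_dd] at h6
  have h8 : Cob one S ∅ (cst E (n + 1) (φ (fun _ => c))) := by
    by_cases hn : Even (n + 1 + 1 + 1)
    · refine ⟨cst E n (φ (fun _ => c)), LZ.empty _, ?_⟩
      have : cst E (n + 1) (φ (fun _ => c)) - dd one (cst E n (φ (fun _ => c))) = 0 := by
        funext t
        simp only [Pi.sub_apply, cst_dd]
        rw [if_neg (by rw [Nat.even_add_one] at hn; exact hn)]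
        simp [cst]
      rw [this]
      exact LZ.zero S
    · rw [if_neg hn] at h6
      have : cst E (n + 1) (φ (fun _ => c)) = 0 := by
        funext t
        simpa [cst] using h6
      rw [this]
      exact Cob.zero _ _ _
  have h9 := h4.add h8
  simpa using h9

end Pool.Agent.Work.MP_6d5d4b_gt.FP
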