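import Pool.Agent.Work.MP_6d5d4b_gt.FP.Sa
import Pool.Agent.Work.MP_6d5d4b_gt.FP.Ctr

set_option autoImplicit false

/-!
# FP/Deg (size M): the degree of a self map

PROOFS. `dg_pb`: `φ' = φ - smulC (sa k) (dg φ)` is a cocycle with `dg φ' = 0` (`dg_sub`, `dg_smulC`, `sa_spec`), exact by `sph_top`; `pb g φ'` is exact (`Cob.pb`, `pbt_one`), so `dg (pb g φ) = dg (smulC (pb g (sa k)) (dg φ)) = deg g • dg φ` (`dg_cob`,
`dg_sub`). `deg_hty`: `hty` with `S = univ`, `Z = ∅`, `S' = univ` and `dg_cob`, `dg_sub`. `deg_const`: `pb (fun _ => c) (sa k) = cst` is a cocycle of degree `k ≥ 1`, exact (`exact_of_contr` with `H s x = c`, or as in `Ctr`), `dg_cob`.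
-/

open Topology Filter Set PoolFbd

namespace Pool.Agent.Work.MP_6d5d4b_gt.FP

variable {A : Type} [AddCommGroup A] {k : ℕ}

private theorem dd_smulC' {E : Type} {n : ℕ} (g : Coch E ℤ n) (a : A) :
    dd one (smulC g a) = smulC (dd one g) a := by
  have e : smulC g a = cmap (zmultiplesHom A a) g := by
    funext t
    simp only [smulC, cmap, zmultiplesHom_apply]
  have e2 : smulC (dd one g) a = cmap (zmultiplesHom A a) (dd one g) := by
    funext t
    simp only [smulC, cmap, zmultiplesHom_apply]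
  rw [e, e2]
  exact dd_cmap one g _ fun u b => by rw [Units.smul_def, Units.smul_def, map_zsmul]

private theorem LZ_smulC' {E : Type} [TopologicalSpace E] {n : ℕ} {S : Set E} {g : Coch E ℤ n}
    (hg : LZ S g) (a : A) : LZ S (smulC g a) := by
  intro x hx
  filter_upwards [hg x hx] with t ht
  simp [smulC, ht]

private theorem pb_coc {E E' B : Type} [TopologicalSpace E] [TopologicalSpace E'] [AddCommGroup B]
    {g : E → E'} (hg : Continuous g) {n : ℕ} {φ : Coch E' B n} (hφ : LZ univ (dd one φ)) :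
    LZ univ (dd one (pb g φ)) :=
  LZ.pb (S := univ) (S' := univ) (f := g) (fun x _ => ⟨hg.continuousAt, mem_univ _⟩) hφ

theorem dg_pb (hk : 1 ≤ k) {g : X k → X k} (hg : Continuous g) {φ : Coch (X k) A k}
    (hφ : LZ univ (dd one φ)) : dg (pb g φ) = deg g • dg φ := by
  obtain ⟨hs1, hs2⟩ := sa_spec k
  have h1 : LZ univ (dd one (smulC (sa k) (dg φ))) := by
    rw [dd_smulC']
    exact LZ_smulC' hs1 _
  have h2 : LZ univ (dd one (φ - smulC (sa k) (dg φ))) := by
    rw [dd_sub]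
    exact hφ.sub h1
  have h3 : dg (φ - smulC (sa k) (dg φ)) = 0 := by
    rw [dg_sub hφ h1, dg_smulC hs1, hs2, one_smul, sub_self]
  have h4 : Cob one univ ∅ (φ - smulC (sa k) (dg φ)) := sph_top hk h2 h3
  have h5 : Cob one univ ∅ (pb g (φ - smulC (sa k) (dg φ))) :=
    Cob.pb (τ := (one : X k → X k → ℤˣ)) (S := univ) (Z := ∅) (S' := univ) (Z' := ∅) (f := g)
      (fun x _ => ⟨hg.continuousAt, mem_univ _⟩) (fun x hx => hx.elim) h4
  have h6 := dg_cob hk h5
  have h7 : pb g (φ - smulC (sa k) (dg φ)) = pb g φ - smulC (pb g (sa k)) (dg φ) := rfl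
  have h8 : LZ univ (dd one (pb g (sa k))) := pb_coc hg hs1
  have h9 : LZ univ (dd one (smulC (pb g (sa k)) (dg φ))) := by
    rw [dd_smulC']
    exact LZ_smulC' h8 _
  rw [h7, dg_sub (pb_coc hg hφ) h9, dg_smulC h8] at h6
  exact sub_eq_zero.1 h6

theorem deg_hty (hk : 1 ≤ k) {H : ℝ → X k → X k} (hH : Continuous fun p : ℝ × X k => H p.1 p.2) :
    deg (H 0) = deg (H 1) := by
  obtain ⟨hs1, -⟩ := sa_spec k
  have hc : ∀ s, Continuous (H s) := fun s => hH.comp (continuous_const.prodMk continuous_id)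
  have h : Cob one univ ∅ (pb (H 0) (sa k) - pb (H 1) (sa k)) :=
    hty (S := univ) (Z := ∅) (S' := univ) (Z' := ∅) isCompact_univ isCompact_empty H
      (fun s _ x _ => hH.continuousAt) (fun _ _ _ _ => mem_univ _) (fun _ _ x hx => hx.elim)
      ⟨LZ.empty _, hs1⟩
  have h2 := dg_cob hk h
  rw [dg_sub (pb_coc (hc 0) hs1) (pb_coc (hc 1) hs1)] at h2
  exact sub_eq_zero.1 h2

theorem deg_const (hk : 1 ≤ k) (c : X k) : deg (fun _ : X k => c) = 0 := by
  obtain ⟨hs1, -⟩ := sa_spec k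
  obtain ⟨n, rfl⟩ : ∃ n, k = n + 1 := ⟨k - 1, by omega⟩
  have h : Cob one univ ∅ (pb (fun _ : X (n + 1) => c) (sa (n + 1))) :=
    exact_of_contr (S := univ) (S' := univ) isCompact_univ (fun _ _ => c)
      (fun s _ x _ => continuousAt_const) (fun _ _ _ _ => mem_univ _) (c := c) (fun _ => rfl) hs1
  exact dg_cob hk h

end Pool.Agent.Work.MP_6d5d4b_gt.FP
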