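import Pool.Agent.Work.MP_6d5d4b_gt.FP.BorA
import Pool.Agent.Work.MP_6d5d4b_gt.FP.Deg

set_option autoImplicit false

/-!
# FP/BorB (size M): odd maps have odd degree

PROOF (mod 2 coefficients). (1) `h : X k → ZMod 2`, `h x = 1` if the first nonzero coordinate of `x` is positive, `0` otherwise (or any function chosen on pairs `{x, -x}`: e.g. from a linear order); `oddf h`.
(2) `w^(k+1)` is the coboundary of an even cochain up to `LZ univ`: for `j : Fin (k+1)` let `h_j x = 1` if `0 < x j`, `0` if `x j < 0`, `h x` if `x j = 0`; `oddf h_j`; `e_j = h - h_j` (a cochain of degree 0) is even. `wc h - dd one e_j = dd one h_j`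
(`= wc h_j`) is `LZ {x | x j ≠ 0}` (there `h_j` is locally constant). Claim by induction on `m ≤ k + 1`: there is an even `η` of degree `m - 1` (for `m ≥ 1`) such that `wp h m - dd one η` is the product of the `wc h_j`, `j < m`, in some order, hence
`LZ {x | ∃ j < m, x j ≠ 0}`. Step: `R_m = wp h m - dd one η_m`; `cu (wc h_m) R_m = cu (wc h - dd one e_m) (wp h m - dd one η_m)`
`= wp h (m+1) - dd one (cu (wc h) η_m + cu e_m (wp h m) - cu e_m (dd one η_m))` up to signs, which do not matter modulo 2, all identities exact by `dd_cu`, `dd one (wc h) = 0`, `wp_coc`, `dd one (dd one ·) = 0`; and `cu` is `LZ` where one factor is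
(`cu_left`, `cu_right`). The new `η_(m+1)` is even. For `m = k + 1`: every `x ∈ X k` has a coordinate `≠ 0`, so `wp h (k+1) - dd one η` is `LZ univ`, `η` even of degree `k`.
(3) `a' = cu h0 (wp h k) - η` (degree `k`): `dd one a' = wp h (k+1) - dd one η` is `LZ univ`, and `a' + pb (- ·) a' = wp h k` exactly (`wp_tr`, `η + η = 0`).
(4) Suppose `deg g` is even. `dg (pb g a') = deg g • dg a' = 0` in `ZMod 2` (`dg_pb`), so `pb g a' = dd one ζ` near `univ` (`sph_top`), `ζ` of degree `k - 1`. `g` commutes with `- ·`, so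
`pb g (wp h k) = pb g a' + pb (- ·) (pb g a') = dd one (ζ + pb (- ·) ζ)` near `univ`; and `pb g (wp h k) = wp (h ∘ g) k`, `oddf (h ∘ g)`: contradiction to `bor` with `j + 1 = k`.
-/

open Topology Filter Set PoolFbd

namespace Pool.Agent.Work.MP_6d5d4b_gt.FP

private theorem bb_neg_ne {k : ℕ} (x : X k) : ∃ i, x.1 i ≠ 0 := by
  by_contra hc
  push Not at hc
  have h0 : x.1 = 0 := funext hc
  have h1 : ‖x.1‖ = 1 := mem_sphere_zero_iff_norm.1 x.2
  rw [h0, norm_zero] at h1
  exact zero_ne_one h1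

open Classical in
/-- An element of a set of indices. -/
private noncomputable def bbSel {k : ℕ} (s : Set (Fin (k + 1))) : Fin (k + 1) :=
  if h : s.Nonempty then h.some else 0

private theorem bbSel_mem {k : ℕ} {s : Set (Fin (k + 1))} (h : s.Nonempty) : bbSel s ∈ s := by
  unfold bbSel
  rw [dif_pos h]
  exact h.some_mem

/-- An index where `x` is not zero, depending only on the support of `x`. -/
private noncomputable def bbIdx {k : ℕ} (x : X k) : Fin (k + 1) :=
  bbSel {i | x.1 i ≠ 0}

private theorem bbIdx_ne {k : ℕ} (x : X k) : x.1 (bbIdx x) ≠ 0 :=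
  bbSel_mem (s := {i | x.1 i ≠ 0}) (bb_neg_ne x)

private theorem bbIdx_neg {k : ℕ} (x : X k) : bbIdx (-x) = bbIdx x := by
  have h1 : ({i | (-x).1 i ≠ 0} : Set (Fin (k + 1))) = {i | x.1 i ≠ 0} := by
    ext i
    simp
  exact congrArg bbSel h1

open Classical in
private noncomputable def bbH {k : ℕ} (x : X k) : ZMod 2 := if 0 < x.1 (bbIdx x) then 1 else 0

private theorem bb_one_add_one : (1 : ZMod 2) + 1 = 0 := by decide

private theorem bb_two (a : ZMod 2) : a + a = 0 := by
  revert a
  decide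

private theorem bbH_odd {k : ℕ} : oddf (bbH : X k → ZMod 2) := by
  intro x
  unfold bbH
  rw [bbIdx_neg]
  have h1 := bbIdx_ne x
  have h2 : (-x).1 (bbIdx x) = - x.1 (bbIdx x) := rfl
  rw [h2]
  rcases lt_or_gt_of_ne h1 with h | h
  · rw [if_pos (by linarith), if_neg (by linarith), zero_add]
  · rw [if_neg (by linarith), if_pos h, bb_one_add_one]

open Classical in
private noncomputable def bbHj {k : ℕ} (h : X k → ZMod 2) (j : Fin (k + 1)) (x : X k) : ZMod 2 :=
  if 0 < x.1 j then 1 else if x.1 j < 0 then 0 else h x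

private theorem bbHj_odd {k : ℕ} {h : X k → ZMod 2} (hh : oddf h) (j : Fin (k + 1)) :
    oddf (bbHj h j) := by
  intro x
  unfold bbHj
  have h2 : (-x).1 j = - x.1 j := rfl
  rw [h2]
  rcases lt_trichotomy (x.1 j) 0 with h | h | h
  · rw [if_pos (by linarith), if_neg (by linarith), if_pos h, zero_add]
  · rw [h, neg_zero, if_neg (lt_irrefl _), if_neg (lt_irrefl _), if_neg (lt_irrefl _),
      if_neg (lt_irrefl _), hh]
  · rw [if_neg (by linarith), if_pos (by linarith), if_pos h, bb_one_add_one]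

private theorem bbHj_LZ {k : ℕ} (h : X k → ZMod 2) (j : Fin (k + 1)) :
    LZ {x : X k | x.1 j ≠ 0} (wc (bbHj h j)) := by
  intro x hx
  have hc : Continuous fun y : X k => y.1 j := (continuous_apply j).comp continuous_subtype_val
  rcases lt_or_gt_of_ne (show x.1 j ≠ 0 from hx) with h1 | h1
  · have hop : IsOpen {t : Fin 2 → X k | (t 0).1 j < 0 ∧ (t 1).1 j < 0} :=
      (isOpen_lt (hc.comp (continuous_apply 0)) continuous_const).inter
        (isOpen_lt (hc.comp (continuous_apply 1)) continuous_const)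
    filter_upwards [hop.mem_nhds (show (fun _ : Fin 2 => x) ∈
      {t : Fin 2 → X k | (t 0).1 j < 0 ∧ (t 1).1 j < 0} from ⟨h1, h1⟩)] with t ht
    unfold wc bbHj
    rw [if_neg (not_lt.2 ht.2.le), if_pos ht.2, if_neg (not_lt.2 ht.1.le), if_pos ht.1, add_zero]
  · have hop : IsOpen {t : Fin 2 → X k | 0 < (t 0).1 j ∧ 0 < (t 1).1 j} :=
      (isOpen_lt continuous_const (hc.comp (continuous_apply 0))).inter
        (isOpen_lt continuous_const (hc.comp (continuous_apply 1)))
    filter_upwards [hop.mem_nhds (show (fun _ : Fin 2 => x) ∈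
      {t : Fin 2 → X k | 0 < (t 0).1 j ∧ 0 < (t 1).1 j} from ⟨h1, h1⟩)] with t ht
    unfold wc bbHj
    rw [if_pos ht.2, if_pos ht.1, bb_one_add_one]

/-- the cochain of degree zero of a function -/
private def bbE {k : ℕ} (h h' : X k → ZMod 2) : Coch (X k) (ZMod 2) 0 := fun t => h (t 0) + h' (t 0)

private theorem bb_dd_e {k : ℕ} (h h' : X k → ZMod 2) :
    wc h - dd one (bbE h h') = wc h' := by
  funext t
  have h1 : dd one (bbE h h') t = (h (t 1) + h' (t 1)) + (h (t 0) + h' (t 0)) := by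
    simp only [dd, one, bbE, one_smul]
    rw [Fin.sum_univ_succ, Fin.sum_univ_zero, add_zero]
    have e1 : t ((Fin.succ (0 : Fin (0 + 1))).succAbove 0) = t 0 := rfl
    have e2 : t (Fin.succ (0 : Fin (0 + 1))) = t 1 := rfl
    have e3 : ((-1 : ℤ) ^ (((0 : Fin (0 + 1)) : ℕ) + 1)) = -1 := by
      simp
    rw [e1, e2, e3, neg_smul, one_smul]
    have h2 := bb_two (h (t 0) + h' (t 0))
    have h3 : -(h (t 0) + h' (t 0)) = h (t 0) + h' (t 0) := by
      rw [neg_eq_iff_add_eq_zero]
      exact h2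
    rw [h3]
  rw [Pi.sub_apply, h1]
  unfold wc
  generalize h (t 0) = a
  generalize h (t 1) = b
  generalize h' (t 0) = c
  generalize h' (t 1) = d
  revert a b c d
  decide

private theorem bbE_even {k : ℕ} {h h' : X k → ZMod 2} (hh : oddf h) (hh' : oddf h') :
    pb (fun x : X k => -x) (bbE h h') = bbE h h' := by
  funext t
  unfold pb bbE
  rw [hh, hh']
  generalize h (t 0) = a
  generalize h' (t 0) = c
  revert a c
  decide

private theorem bb_wc_even {k : ℕ} {h : X k → ZMod 2} (hh : oddf h) :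
    pb (fun x : X k => -x) (wc h) = wc h := by
  funext t
  unfold pb wc
  rw [hh, hh]
  generalize h (t 0) = a
  generalize h (t 1) = c
  revert a c
  decide

private theorem bb_pb_cu {P P' R : Type} [CommRing R] {q p n : ℕ} (f : P → P') (e : q + p = n)
    (a : Coch P' R q) (b : Coch P' R p) : pb f (cu e a b) = cu e (pb f a) (pb f b) := rfl

private theorem bb_dd_dd {P A : Type} [AddCommGroup A] {n : ℕ} (φ : Coch P A n) :
    dd one (dd one φ) = 0 := by
  funext t
  exact dd_dd_apply one φ t rfl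

private theorem bb_pb_add {P P' A : Type} [AddCommGroup A] {n : ℕ} (f : P → P')
    (a b : Coch P' A n) : pb f (a + b) = pb f a + pb f b := rfl

private theorem bb_pb_sub {P P' A : Type} [AddCommGroup A] {n : ℕ} (f : P → P')
    (a b : Coch P' A n) : pb f (a - b) = pb f a - pb f b := rfl

private theorem bb_pb_dd {P P' A : Type} [AddCommGroup A] {n : ℕ} (f : P → P')
    (a : Coch P' A n) : pb f (dd one a) = dd one (pb f a) := rfl

private theorem bb_wc_coc {k : ℕ} (h : X k → ZMod 2) : dd one (wc h) = 0 := by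
  have h1 : wc h = dd one (bbE h (fun _ => 0)) := by
    have := bb_dd_e h (fun _ => 0)
    have h2 : wc (fun _ : X k => (0 : ZMod 2)) = 0 := by
      funext t
      simp [wc]
    rw [h2, sub_eq_zero] at this
    exact this
  rw [h1, bb_dd_dd]

private theorem bb_induct {k : ℕ} {h : X k → ZMod 2} (hh : oddf h) (m : ℕ) (hm : m ≤ k) :
    ∃ η : Coch (X k) (ZMod 2) m, pb (fun x : X k => -x) η = η ∧
      LZ {x : X k | ∃ j : Fin (k + 1), (j : ℕ) ≤ m ∧ x.1 j ≠ 0} (wp h (m + 1) - dd one η) := by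
  induction m with
  | zero =>
    refine ⟨bbE h (bbHj h 0), bbE_even hh (bbHj_odd hh 0), ?_⟩
    have h1 : wp h (0 + 1) = wc h := by
      funext t
      change cu (Nat.add_comm 1 0) (wc h) (wp h 0) t = wc h t
      rw [cu_apply]
      change _ * 1 = _
      rw [mul_one]
    rw [h1, bb_dd_e]
    refine LZ.mono ?_ (bbHj_LZ h 0)
    rintro x ⟨j, hj, hx⟩
    have : j = 0 := Fin.ext (by simpa using hj)
    rw [this] at hx
    exact hx
  | succ m ih =>
    obtain ⟨η, hη, hL⟩ := ih (by omega)
    let J : Fin (k + 1) := ⟨m + 1, by omega⟩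
    let e := bbE h (bbHj h J)
    have he : pb (fun x : X k => -x) e = e := bbE_even hh (bbHj_odd hh J)
    have hd : wc h - dd one e = wc (bbHj h J) := bb_dd_e h (bbHj h J)
    let η' : Coch (X k) (ZMod 2) (m + 1) :=
      cu (Nat.zero_add (m + 1)) e (wp h (m + 1)) - cu (Nat.zero_add (m + 1)) e (dd one η) -
        cu (Nat.add_comm 1 m) (wc h) η
    refine ⟨η', ?_, ?_⟩
    · change pb _ (cu (Nat.zero_add (m + 1)) e (wp h (m + 1)) -
        cu (Nat.zero_add (m + 1)) e (dd one η) - cu (Nat.add_comm 1 m) (wc h) η) = _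
      rw [bb_pb_sub, bb_pb_sub, bb_pb_cu, bb_pb_cu, bb_pb_cu, he, wp_even hh, bb_pb_dd, hη,
        bb_wc_even hh]
    · have key : wp h (m + 1 + 1) - dd one η' =
          cu (Nat.add_comm 1 (m + 1)) (wc (bbHj h J)) (wp h (m + 1) - dd one η) := by
        have l1 := dd_cu (Nat.zero_add (m + 1)) (Nat.add_comm (0 + 1) (m + 1))
          (Nat.zero_add (m + 1 + 1)) e (wp h (m + 1))
        have l2 := dd_cu (Nat.zero_add (m + 1)) (Nat.add_comm (0 + 1) (m + 1))
          (Nat.zero_add (m + 1 + 1)) e (dd one η)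
        have l3 := dd_cu (Nat.add_comm 1 m) (show 1 + 1 + m = m + 1 + 1 by omega)
          (Nat.add_comm 1 (m + 1)) (wc h) η
        rw [wp_coc] at l1
        rw [bb_dd_dd] at l2
        rw [bb_wc_coc] at l3
        have z1 : ∀ {q p n : ℕ} (E : q + p = n) (c : Coch (X k) (ZMod 2) q),
            cu E c (0 : Coch (X k) (ZMod 2) p) = 0 := by
          intro q p n E c
          have := cu_sub_right E c (0 : Coch (X k) (ZMod 2) p) 0
          simpa using this
        have z2 : ∀ {q p n : ℕ} (E : q + p = n) (c : Coch (X k) (ZMod 2) p),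
            cu E (0 : Coch (X k) (ZMod 2) q) c = 0 := by
          intro q p n E c
          have := cu_sub_left E (0 : Coch (X k) (ZMod 2) q) 0 c
          simpa using this
        rw [z1, smul_zero, add_zero] at l1 l2
        rw [z2, zero_add, pow_one, neg_smul, one_smul] at l3
        rw [← hd, cu_sub_left, cu_sub_right, cu_sub_right]
        change wp h (m + 1 + 1) - dd one (cu (Nat.zero_add (m + 1)) e (wp h (m + 1)) -
          cu (Nat.zero_add (m + 1)) e (dd one η) - cu (Nat.add_comm 1 m) (wc h) η) = _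
        rw [dd_sub, dd_sub, l1, l2, l3]
        have hw : wp h (m + 1 + 1) = cu (Nat.add_comm 1 (m + 1)) (wc h) (wp h (m + 1)) := rfl
        rw [hw]
        abel
      rw [key]
      rintro x ⟨j, hj, hx⟩
      by_cases hjm : (j : ℕ) ≤ m
      · exact cu_right (S := {x : X k | ∃ j : Fin (k + 1), (j : ℕ) ≤ m ∧ x.1 j ≠ 0}) _ _ hL x
          ⟨j, hjm, hx⟩
      · have : j = J := Fin.ext (by
          change (j : ℕ) = m + 1
          omega)
        rw [this] at hx
        exact cu_left (S := {x : X k | x.1 J ≠ 0}) _ (bbHj_LZ h J) _ x hx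

private theorem bb_pb_wp {k : ℕ} (g : X k → X k) (h : X k → ZMod 2) (j : ℕ) :
    pb g (wp h j) = wp (h ∘ g) j := by
  induction j with
  | zero => rfl
  | succ j ih =>
    have h1 : pb g (wp h (j + 1)) = cu (Nat.add_comm 1 j) (pb g (wc h)) (pb g (wp h j)) := rfl
    rw [h1, ih]
    rfl

theorem deg_odd {k : ℕ} (hk : 1 ≤ k) {g : X k → X k} (hg : Continuous g) (ho : ∀ x, g (-x) = -g x) :
    Odd (deg g) := by
  obtain ⟨k', rfl⟩ : ∃ k', k = k' + 1 := ⟨k - 1, by omega⟩
  by_contra hodd
  rw [Int.not_odd_iff_even] at hodd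
  have hh : oddf (bbH : X (k' + 1) → ZMod 2) := bbH_odd
  set h : X (k' + 1) → ZMod 2 := bbH with hhdef
  obtain ⟨η, hη, hL⟩ := bb_induct hh (k' + 1) le_rfl
  have hU : LZ (univ : Set (X (k' + 1))) (wp h (k' + 1 + 1) - dd one η) := by
    refine LZ.mono ?_ hL
    intro x _
    obtain ⟨i, hi⟩ := bb_neg_ne x
    exact ⟨i, by omega, hi⟩
  obtain ⟨t1, t2⟩ := wp_tr hh (k' + 1)
  set z : Coch (X (k' + 1)) (ZMod 2) (k' + 1) :=
    cu (Nat.zero_add (k' + 1)) (fun t => h (t 0)) (wp h (k' + 1)) with hz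
  have ha1 : LZ (univ : Set (X (k' + 1))) (dd one (z - η)) := by
    rw [dd_sub, t1]
    exact hU
  have htwo : η + η = 0 := by
    funext t
    exact bb_two _
  have ha2 : (z - η) + pb (fun x : X (k' + 1) => -x) (z - η) = wp h (k' + 1) := by
    rw [bb_pb_sub, hη]
    calc (z - η) + (pb (fun x : X (k' + 1) => -x) z - η)
        = (z + pb (fun x : X (k' + 1) => -x) z) - (η + η) := by abel
      _ = wp h (k' + 1) := by rw [htwo, sub_zero, t2]
  have hgc : ∀ x ∈ (univ : Set (X (k' + 1))), ContinuousAt g x ∧ g x ∈ (univ : Set (X (k' + 1))) :=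
    fun x _ => ⟨hg.continuousAt, trivial⟩
  have hnc : ∀ x ∈ (univ : Set (X (k' + 1))), ContinuousAt (fun x : X (k' + 1) => -x) x ∧
      -x ∈ (univ : Set (X (k' + 1))) :=
    fun x _ => ⟨continuous_neg.continuousAt, trivial⟩
  have hb1 : LZ (univ : Set (X (k' + 1))) (dd one (pb g (z - η))) := by
    rw [← bb_pb_dd]
    exact ha1.pb hgc
  have hdg : dg (pb g (z - η)) = 0 := by
    rw [dg_pb hk hg ha1]
    obtain ⟨r, hr⟩ := hodd
    rw [hr, add_smul]
    exact bb_two _
  obtain ⟨ζ, -, hζ⟩ := sph_top hk hb1 hdg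
  have hodd' : oddf (h ∘ g) := by
    intro x
    simp only [Function.comp]
    rw [ho, hh]
  refine bor hk hodd' (j := k') le_rfl (ζ + pb (fun x : X (k' + 1) => -x) ζ) ?_ ?_
  · rw [bb_pb_add]
    have h1 : pb (fun x : X (k' + 1) => -x) (pb (fun x : X (k' + 1) => -x) ζ) = ζ := by
      funext t
      simp only [pb, neg_neg]
    rw [h1]
    exact add_comm _ _
  · rw [← bb_pb_wp, ← ha2, bb_pb_add, dd_add]
    have h1 : pb g (pb (fun x : X (k' + 1) => -x) (z - η)) =
        pb (fun x : X (k' + 1) => -x) (pb g (z - η)) := by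
      funext t
      simp only [pb, ho]
    rw [h1]
    have h2 : LZ (univ : Set (X (k' + 1))) (pb (fun x : X (k' + 1) => -x)
        (pb g (z - η) - dd one ζ)) := hζ.pb hnc
    have h3 := hζ.add h2
    have h4 : pb g (z - η) + pb (fun x : X (k' + 1) => -x) (pb g (z - η)) -
        (dd one ζ + dd one (pb (fun x : X (k' + 1) => -x) ζ)) =
        (pb g (z - η) - dd one ζ) +
          pb (fun x : X (k' + 1) => -x) (pb g (z - η) - dd one ζ) := by
      rw [bb_pb_sub (fun x : X (k' + 1) => -x) (pb g (z - η)) (dd one ζ), bb_pb_dd]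
      abel
    rw [h4]
    exact h3

end Pool.Agent.Work.MP_6d5d4b_gt.FP
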