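import Pool.Agent.Work.MP_6d5d4b_gt.FP.K3

set_option autoImplicit false

/-!
# FP/NonEx (size M): the product of the fundamental classes is not exact

PROOF. `prodc_coc`: `cu_coc` and `LZ.pb`, `aq_spec`, induction on `m` (`dd one` of the constant cochain `1` of degree 0 is `0`). `prod_ne` by induction on `N`. `N = 0`: `prodc (ac k 0) 1 = cu 1 (ac k 0 0)` is `pb (fun p => p 0) (aq k)` up to the cast of the degree
(`1 * k`, `0 * k + k`); pull back by `x ↦ fun _ => x`: `aq k` would be exact, `dg (aq k) = 0` (`dg_cob`), but it is `1`. (Or: `kun` for `Z = PUnit`, `b = 1`.) Step: pull the exactness back by `Z × X k → (Fin (N+2) → X k)`, `Z = Fin (N+1) → X k`,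
`(p, x) ↦ Fin.snoc p x`: `prodc (ac k (N+1)) (N+2)` becomes `cu (pb fst (prodc (ac k N) (N+1))) (pb snd (aq k))` (for `i ≤ N`: `Fin.snoc p x (Fin.ofNat (N+2) i) = p (Fin.ofNat (N+1) i)`; `i = N + 1` is the last entry); `kun` with
`b = prodc (ac k N) (N+1)` gives that it is exact: induction hypothesis. To handle the degree `(m+1) * k = m * k + k` state an auxiliary lemma for all `h : q + k = n`: `Cob one univ ∅ (cu h c φ)` iff `Cob one univ ∅ (cu rfl c φ)` (`subst h`).
-/

open Topology Filter Set PoolFbd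

namespace Pool.Agent.Work.MP_6d5d4b_gt.FP

private theorem nonEx_dd1 {P : Type} (n : ℕ) (hn : n = 0) :
    dd one (fun _ => 1 : Coch P ℚ n) = 0 := by
  subst hn
  funext t
  simp [dd, one]

theorem prodc_coc {P : Type} [TopologicalSpace P] {k : ℕ} {a : ℕ → Coch P ℚ k}
    (ha : ∀ i, LZ univ (dd one (a i))) (m : ℕ) : LZ univ (dd one (prodc a m)) := by
  induction m with
  | zero =>
    have e : dd one (prodc a 0) = 0 := nonEx_dd1 (0 * k) (Nat.zero_mul k)
    rw [e]
    exact LZ.zero _
  | succ m ih =>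
    have h0 : Coc one univ ∅ (cu (show m * k + k = (m + 1) * k by rw [Nat.succ_mul]) (prodc a m) (a m)) :=
      cu_coc _ ⟨LZ.empty _, ih⟩ ((ha m).mono (subset_univ _))
    exact h0.2

theorem ac_coc (k N i : ℕ) : LZ univ (dd one (ac k N i)) := by
  have e : dd one (ac k N i) = pb (fun p : Fin (N + 1) → X k => p (Fin.ofNat (N + 1) i))
      (dd one (aq k)) := rfl
  rw [e]
  exact LZ.pb (fun x _ => ⟨(continuous_apply _).continuousAt, mem_univ _⟩) (aq_spec k).1

private theorem nonEx_cast {P : Type} [TopologicalSpace P] {q p n : ℕ} (h : q + p = n)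
    {c : Coch P ℚ q} {φ : Coch P ℚ p} (hc : Cob one univ ∅ (cu h c φ)) :
    Cob one univ ∅ (cu (n := q + p) rfl c φ) := by
  subst h
  exact hc

private theorem nonEx_pb {P P' : Type} (g : P → P') {k : ℕ} (a : ℕ → Coch P' ℚ k) (m : ℕ) :
    pb g (prodc a m) = prodc (fun i => pb g (a i)) m := by
  induction m with
  | zero => rfl
  | succ m ih =>
    have e : m * k + k = (m + 1) * k := by rw [Nat.succ_mul]
    show cu e (pb g (prodc a m)) (pb g (a m)) = cu e (prodc (fun i => pb g (a i)) m) (pb g (a m))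
    rw [ih]

private theorem nonEx_congr {P : Type} {k : ℕ} (a b : ℕ → Coch P ℚ k) (m : ℕ)
    (h : ∀ i, i < m → a i = b i) : prodc a m = prodc b m := by
  induction m with
  | zero => rfl
  | succ m ih =>
    have e : m * k + k = (m + 1) * k := by rw [Nat.succ_mul]
    show cu e (prodc a m) (a m) = cu e (prodc b m) (b m)
    rw [ih fun i hi => h i (by omega), h m (by omega)]

private theorem nonEx_one (n : ℕ) (hn : n = 0) :
    ¬ Cob one univ ∅ (fun _ => 1 : Coch PUnit.{1} ℚ n) := by
  subst hn
  intro h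
  have h1 : LZ univ (fun _ => 1 : Coch PUnit.{1} ℚ 0) := h
  obtain ⟨t, ht⟩ := (h1 PUnit.unit (mem_univ _)).exists
  exact one_ne_zero ht

theorem prod_ne {k : ℕ} (hk : 1 ≤ k) (N : ℕ) : ¬ Cob one univ ∅ (prodc (ac k N) (N + 1)) := by
  induction N with
  | zero =>
    intro H
    let g : PUnit.{1} × X k → (Fin 1 → X k) := fun w _ => w.2
    have hg : Continuous g := continuous_pi fun _ => continuous_snd
    have H1 : Cob one univ ∅ (pb g (prodc (ac k 0) (0 + 1))) :=
      Cob.pb (fun x _ => ⟨hg.continuousAt, mem_univ _⟩) (fun x hx => hx.elim) H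
    have H2 : Cob one univ ∅ (cu (show 0 * k + k = (0 + 1) * k by rw [Nat.succ_mul])
      (pb Prod.fst (fun _ => 1 : Coch PUnit.{1} ℚ (0 * k)) : Coch (PUnit.{1} × X k) ℚ (0 * k))
      (pb Prod.snd (aq k))) := H1
    have H3 := kun hk (b := (fun _ => 1 : Coch PUnit.{1} ℚ (0 * k)))
      (by rw [nonEx_dd1 _ (Nat.zero_mul k)]; exact LZ.zero _) (nonEx_cast _ H2)
    exact nonEx_one _ (Nat.zero_mul k) H3
  | succ N ih =>
    intro H
    let g : (Fin (N + 1) → X k) × X k → (Fin (N + 1 + 1) → X k) :=
      fun w => Fin.snoc (α := fun _ => X k) w.1 w.2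
    have hg : Continuous g := by
      refine continuous_pi fun i => ?_
      induction i using Fin.lastCases with
      | last =>
        have e : (fun w => g w (Fin.last (N + 1))) = Prod.snd := by
          funext w
          exact Fin.snoc_last (α := fun _ => X k) w.2 w.1
        rw [e]
        exact continuous_snd
      | cast i =>
        have e : (fun w => g w i.castSucc) = fun w => w.1 i := by
          funext w
          exact Fin.snoc_castSucc (α := fun _ => X k) w.2 w.1 i
        rw [e]
        exact (continuous_apply i).comp continuous_fst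
    have H1 : Cob one univ ∅ (pb g (prodc (ac k (N + 1)) (N + 1 + 1))) :=
      Cob.pb (fun x _ => ⟨hg.continuousAt, mem_univ _⟩) (fun x hx => hx.elim) H
    have e1 : pb g (prodc (ac k (N + 1)) (N + 1)) =
        (pb Prod.fst (prodc (ac k N) (N + 1)) : Coch ((Fin (N + 1) → X k) × X k) ℚ _) := by
      rw [nonEx_pb, nonEx_pb]
      refine nonEx_congr _ _ _ fun i hi => ?_
      funext t
      show aq k (fun j => g (t j) (Fin.ofNat (N + 1 + 1) i)) =
        aq k (fun j => (t j).1 (Fin.ofNat (N + 1) i))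
      congr 1
      funext j
      have e2 : (Fin.ofNat (N + 1 + 1) i : Fin (N + 1 + 1)) = (Fin.ofNat (N + 1) i).castSucc := by
        ext
        simp only [Fin.val_ofNat, Fin.val_castSucc]
        rw [Nat.mod_eq_of_lt (by omega), Nat.mod_eq_of_lt (by omega)]
      rw [e2]
      exact Fin.snoc_castSucc (α := fun _ => X k) (t j).2 (t j).1 _
    have e3 : pb g (ac k (N + 1) (N + 1)) =
        (pb Prod.snd (aq k) : Coch ((Fin (N + 1) → X k) × X k) ℚ k) := by
      funext t
      show aq k (fun j => g (t j) (Fin.ofNat (N + 1 + 1) (N + 1))) = aq k (fun j => (t j).2)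
      congr 1
      funext j
      have e2 : (Fin.ofNat (N + 1 + 1) (N + 1) : Fin (N + 1 + 1)) = Fin.last (N + 1) := by
        ext
        simp only [Fin.val_ofNat, Fin.val_last]
        exact Nat.mod_eq_of_lt (by omega)
      rw [e2]
      exact Fin.snoc_last (α := fun _ => X k) (t j).2 (t j).1
    have H2 : Cob one univ ∅ (cu (show (N + 1) * k + k = (N + 1 + 1) * k by rw [Nat.succ_mul (N + 1)])
      (pb g (prodc (ac k (N + 1)) (N + 1))) (pb g (ac k (N + 1) (N + 1)))) := H1
    rw [e1, e3] at H2
    exact ih (kun hk (prodc_coc (fun i => ac_coc k N i) (N + 1)) (nonEx_cast _ H2))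

end Pool.Agent.Work.MP_6d5d4b_gt.FP
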