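import Pool.Agent.Work.MP_6d5d4b_gt.FP.Expand
import Pool.Agent.Work.MP_6d5d4b_gt.FP.NonEx

set_option autoImplicit false

/-!
# FP/Chain (size M): closed chains of relations

PROOF. `P = Fin (N+1) → X k`, compact metric. Suppose there is no such `p`. `π i : P → X k × X k`, `p ↦ (p i', p (i'+1))`, `i' = Fin.ofNat (N+1) i`. The open sets `U i = {p | π i p ∉ Z i}`, `i ≤ N`, cover `P`: shrinking lemma (`exists_subset_iUnion_closed_subset` or
`exists_iUnion_eq_closed_subset`, normal space): closed `K i ⊆ U i` covering `P`. `π i '' K i` is compact and disjoint from `Z i`, so `Cob one (π i '' K i) ∅ (ua k)`, and by pull back (`Cob.pb`) `Cob one (K i) ∅ (pb (π i) (ua k))`: `k = n + 1`, there is `v i` of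
degree `n` on `P` with `LZ (K i) (w' i)`, `w' i = pb (π i) (ua k) - dd one (v i)`. (For `i > N` put `v i = 0`, `K i = ∅`.) `prodc w' (N+1)` is `LZ univ`: every point is in some `K i` (`cu_left`, `cu_right`, induction on `m`: `prodc w' m` is `LZ (⋃ i < m, K i)`).
Also `prodc w' m ≈ prodc w m` for `w i = pb (π i) (ua k)` (`≈` as in `Expand`; `cu_cob_left`, `cu_cob_right`, induction), so `prodc w (N+1)` is exact. Now `w i = a i - (-1)^k • a (i+1)` for `a = ac k N` (exactly, for all `i : ℕ`: `Fin.ofNat (N+1) (i+1) = Fin.ofNat (N+1) i + 1`),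
`a (N+1) = a 0`, and `cu rfl (a i) (a i) = pb (p ↦ p i') (cu rfl (aq k) (aq k))` is exact by `sph_low` (`j = k + k ≠ k`). `expand` with `(-1)^(N+1+k) = 1`: `2 • prodc a (N+1)` is exact, so `prodc a (N+1)` is: contradiction to `prod_ne`.
-/

open Topology Filter Set PoolFbd

namespace Pool.Agent.Work.MP_6d5d4b_gt.FP

private theorem ch_dd_smul {P : Type} {n : ℕ} (r : ℚ) (φ : Coch P ℚ n) :
    dd (one : P → P → ℤˣ) (r • φ) = r • dd one φ := by
  funext t
  simp only [dd, Pi.smul_apply, smul_add, Finset.smul_sum]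
  congr 1
  · rw [smul_comm]
  · exact Finset.sum_congr rfl fun i _ => smul_comm _ _ _

private theorem ch_LZ_smul {P : Type} [TopologicalSpace P] {n : ℕ} {S : Set P} (r : ℚ)
    {φ : Coch P ℚ n} (h : LZ S φ) : LZ S (r • φ) := fun x hx => by
  filter_upwards [h x hx] with t a
  rw [Pi.smul_apply, a, smul_zero]

private theorem ch_Cob_smul {P : Type} [TopologicalSpace P] {n : ℕ} {S : Set P} (r : ℚ)
    {φ : Coch P ℚ n} (h : Cob one S ∅ φ) : Cob one S ∅ (r • φ) := by
  cases n with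
  | zero => exact ch_LZ_smul r h
  | succ n =>
    obtain ⟨ψ, a, b⟩ := h
    refine ⟨r • ψ, ch_LZ_smul r a, ?_⟩
    have e : r • φ - dd (one : P → P → ℤˣ) (r • ψ) = r • (φ - dd one ψ) := by
      rw [ch_dd_smul, smul_sub]
    rw [e]
    exact ch_LZ_smul r b

private theorem ch_ofNat (N i : ℕ) : Fin.ofNat (N + 1) (i + 1) = Fin.ofNat (N + 1) i + 1 := by
  apply Fin.ext
  rw [Fin.val_add]
  simp only [Fin.ofNat, Fin.val_one']
  rw [Nat.add_mod]

private theorem ch_per (k N : ℕ) : ac k N (N + 1) = ac k N 0 := by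
  unfold ac
  have h : Fin.ofNat (N + 1) (N + 1) = Fin.ofNat (N + 1) 0 := by
    apply Fin.ext
    simp [Fin.ofNat]
  rw [h]

private theorem ch_sq {k : ℕ} (hk : 1 ≤ k) (N i : ℕ) :
    Cob one univ ∅ (cu (n := k + k) rfl (ac k N i) (ac k N i)) := by
  have h1 : LZ univ (dd one (cu (n := k + k) rfl (aq k) (aq k))) := by
    have hc : Coc one univ ∅ (aq k) := ⟨LZ.empty _, (aq_spec k).1⟩
    exact (cu_coc rfl hc ((aq_spec k).1.mono (subset_univ _))).2
  have h2 : Cob one univ ∅ (cu (n := k + k) rfl (aq k) (aq k)) :=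
    sph_low hk (by omega) (by omega) h1
  have h3 := Cob.pb (S := (univ : Set (Fin (N + 1) → X k))) (Z := ∅)
    (f := fun p => p (Fin.ofNat (N + 1) i))
    (fun x _ => ⟨(continuous_apply _).continuousAt, mem_univ _⟩) (fun x hx => hx.elim) h2
  exact h3

private theorem ch_w {k N : ℕ} (i : ℕ) :
    pb (fun p : Fin (N + 1) → X k => (p (Fin.ofNat (N + 1) i), p (Fin.ofNat (N + 1) i + 1))) (ua k) =
      ac k N i - (-1 : ℚ) ^ k • ac k N (i + 1) := by
  unfold ac
  rw [ch_ofNat]
  rfl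

private theorem ch_wcoc (k N i : ℕ) : LZ univ (dd one (ac k N i - (-1 : ℚ) ^ k • ac k N (i + 1))) := by
  rw [dd_sub, ch_dd_smul]
  exact (ac_coc k N i).sub (ch_LZ_smul _ (ac_coc k N (i + 1)))

/-- the product of classes which vanish near `K i` vanishes near the union -/
private theorem ch_prod_LZ {P : Type} [TopologicalSpace P] {k : ℕ} {w : ℕ → Coch P ℚ k}
    {K : ℕ → Set P} (h : ∀ i, LZ (K i) (w i)) (m : ℕ) :
    LZ {x | ∃ i < m, x ∈ K i} (prodc w m) := by
  induction m with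
  | zero =>
    intro x hx
    obtain ⟨i, hi, -⟩ := hx
    omega
  | succ m ih =>
    intro x hx
    obtain ⟨i, hi, hxi⟩ := hx
    show ZeroAt (cu _ (prodc w m) (w m)) x
    rcases Nat.lt_succ_iff_lt_or_eq.1 hi with h1 | h1
    · exact cu_left _ ih (w m) x ⟨i, h1, hxi⟩
    · subst h1
      exact cu_right _ (prodc w i) (h i) x hxi

private theorem ch_prod_cob {P : Type} [TopologicalSpace P] {k : ℕ} {w d : ℕ → Coch P ℚ k}
    (hw : ∀ i, LZ univ (dd one (w i))) (hd : ∀ i, LZ univ (dd one (d i)))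
    (hd' : ∀ i, Cob one univ ∅ (d i)) (m : ℕ) :
    Cob one univ ∅ (prodc (fun i => w i - d i) m - prodc w m) := by
  induction m with
  | zero =>
    have e : prodc (fun i => w i - d i) 0 - prodc w 0 = 0 := sub_self _
    rw [e]
    exact Cob.zero _ _ _
  | succ m ih =>
    have hk : m * k + k = (m + 1) * k := by rw [Nat.succ_mul]
    have e : prodc (fun i => w i - d i) (m + 1) - prodc w (m + 1) =
        cu hk (prodc (fun i => w i - d i) m - prodc w m) (w m - d m) +
          cu hk (prodc w m) (-(d m)) := by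
      have e1 : prodc (fun i => w i - d i) (m + 1) =
          cu hk (prodc (fun i => w i - d i) m) (w m - d m) := rfl
      have e2 : prodc w (m + 1) = cu hk (prodc w m) (w m) := rfl
      have e3 : cu hk (prodc w m) (w m) = cu hk (prodc w m) (w m - d m) -
          cu hk (prodc w m) (-(d m)) := by
        rw [← cu_sub_right]
        congr 1
        abel
      rw [e1, e2, e3, cu_sub_left]
      abel
    rw [e]
    refine Cob.add ?_ ?_
    · refine cu_cob_left hk ih (LZ.empty _) ?_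
      rw [dd_sub]
      exact ((hw m).sub (hd m)).mono (subset_univ _)
    · refine cu_cob_right hk ⟨LZ.empty _, prodc_coc hw m⟩ ?_
      rw [Set.sdiff_empty]
      exact (hd' m).neg

theorem closed_chain {k N : ℕ} (hk : 1 ≤ k) (hpar : Even (N + 1 + k)) {Z : ℕ → Set (X k × X k)}
    (hZ : ∀ i, IsClosed (Z i)) (h : ∀ i K, IsCompact K → Disjoint K (Z i) → Cob one K ∅ (ua k)) :
    ∃ p : Fin (N + 1) → X k, ∀ i : Fin (N + 1), (p i, p (i + 1)) ∈ Z i := by
  by_contra hcon
  push Not at hcon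
  set P := Fin (N + 1) → X k with hP
  let π : Fin (N + 1) → P → X k × X k := fun i p => (p i, p (i + 1))
  have hπ : ∀ i, Continuous (π i) := fun i => (continuous_apply i).prodMk (continuous_apply (i + 1))
  obtain ⟨K, hKU, hKc, hK⟩ := exists_iUnion_eq_closed_subset
    (u := fun i : Fin (N + 1) => (π i) ⁻¹' (Z i)ᶜ)
    (fun i => (hZ i).isOpen_compl.preimage (hπ i)) (fun x => Set.toFinite _)
    (by
      rw [eq_univ_iff_forall]
      intro p
      obtain ⟨i, hi⟩ := hcon p
      exact mem_iUnion.2 ⟨i, hi⟩)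
  have hcob : ∀ i : Fin (N + 1), Cob one (K i) ∅ (pb (π i) (ua k)) := by
    intro i
    have h1 : IsCompact (π i '' K i) := (hKc i).isCompact.image (hπ i)
    have h2 : Disjoint (π i '' K i) (Z i) := by
      rw [Set.disjoint_left]
      rintro _ ⟨p, hp, rfl⟩
      exact hK i hp
    have h3 := Cob.pb (S := K i) (Z := ∅) (f := π i)
      (fun x hx => ⟨(hπ i).continuousAt, mem_image_of_mem _ hx⟩) (fun x hx => hx.elim)
      (h i _ h1 h2)
    exact h3
  have hd : ∀ i : ℕ, ∃ d : Coch P ℚ k, Cob one univ ∅ d ∧ LZ univ (dd one d) ∧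
      LZ (K (Fin.ofNat (N + 1) i)) ((ac k N i - (-1 : ℚ) ^ k • ac k N (i + 1)) - d) := by
    intro i
    have h1 := hcob (Fin.ofNat (N + 1) i)
    have h2 : pb (π (Fin.ofNat (N + 1) i)) (ua k) = ac k N i - (-1 : ℚ) ^ k • ac k N (i + 1) :=
      ch_w i
    rw [h2] at h1
    clear h2
    generalize ac k N i - (-1 : ℚ) ^ k • ac k N (i + 1) = φ at h1
    obtain ⟨n, rfl⟩ : ∃ n, k = n + 1 := ⟨k - 1, by omega⟩
    obtain ⟨v, -, hv⟩ := h1
    refine ⟨dd one v, ⟨v, LZ.empty _, ?_⟩, LZ_dd_dd (IsTw.one univ) v, hv⟩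
    rw [sub_self]
    exact LZ.zero _
  choose d hd1 hd2 hd3 using hd
  have e1 := ch_prod_LZ (w := fun i => (ac k N i - (-1 : ℚ) ^ k • ac k N (i + 1)) - d i)
    (K := fun i => K (Fin.ofNat (N + 1) i)) hd3 (N + 1)
  have e2 : {x | ∃ i < N + 1, x ∈ K (Fin.ofNat (N + 1) i)} = univ := by
    rw [eq_univ_iff_forall]
    intro x
    have hx : x ∈ iUnion K := by
      rw [hKU]
      exact mem_univ x
    obtain ⟨i, hi⟩ := mem_iUnion.1 hx
    refine ⟨i.1, i.2, ?_⟩
    have h3 : Fin.ofNat (N + 1) i.1 = i := by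
      apply Fin.ext
      simp [Fin.ofNat, Nat.mod_eq_of_lt i.2]
    rw [h3]
    exact hi
  rw [e2] at e1
  have e3 := ch_prod_cob (w := fun i => ac k N i - (-1 : ℚ) ^ k • ac k N (i + 1)) (d := d)
    (fun i => ch_wcoc k N i) hd2 hd1 (N + 1)
  have e4 : Cob one univ ∅ (prodc (fun i => ac k N i - (-1 : ℚ) ^ k • ac k N (i + 1)) (N + 1)) := by
    have h4 := (Cob.of_LZ (τ := one) (Z := ∅) e1).sub e3
    rwa [sub_sub_cancel] at h4
  have e5 := expand (ac_coc k N) (ch_per k N) (ch_sq hk N)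
  have e6 : Cob one univ ∅ ((1 + (-1 : ℚ) ^ (N + 1 + k)) • prodc (ac k N) (N + 1)) := by
    have h5 := e4.sub e5
    rwa [sub_sub_cancel] at h5
  rw [hpar.neg_one_pow] at e6
  have e7 := ch_Cob_smul (1 / 2 : ℚ) e6
  rw [smul_smul] at e7
  norm_num at e7
  exact prod_ne hk N e7

end Pool.Agent.Work.MP_6d5d4b_gt.FP
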