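import Pool.Agent.Work.MP_6d5d4b_gt.FP.Rad

set_option autoImplicit false

/-!
# FP/Chart: the complement of a point of `X k` is homeomorphic to `ℝ^k`
-/

open Topology Filter Set PoolFbd

namespace Pool.Agent.Work.MP_6d5d4b_gt.FP

private theorem chart_sph_ne {E : Type} [NormedAddCommGroup E] (x : Metric.sphere (0 : E) 1) :
    x.1 ≠ 0 := by
  intro h
  have h1 : ‖x.1‖ = 1 := mem_sphere_zero_iff_norm.1 x.2
  rw [h, norm_zero] at h1
  exact zero_ne_one h1

private theorem chart_homeo {E F : Type} [NormedAddCommGroup E] [NormedSpace ℝ E]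
    [NormedAddCommGroup F] [NormedSpace ℝ F] (L : E ≃L[ℝ] F) :
    Nonempty (Metric.sphere (0 : E) 1 ≃ₜ Metric.sphere (0 : F) 1) := by
  have hL : ∀ x : Metric.sphere (0 : E) 1, L x.1 ≠ 0 := fun x h =>
    chart_sph_ne x ((map_eq_zero_iff L L.injective).1 h)
  have hS : ∀ y : Metric.sphere (0 : F) 1, L.symm y.1 ≠ 0 := fun y h =>
    chart_sph_ne y ((map_eq_zero_iff L.symm L.symm.injective).1 h)
  have hn : ∀ {G : Type} [NormedAddCommGroup G] [NormedSpace ℝ G] (v : G), v ≠ 0 →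
      ‖v‖⁻¹ • v ∈ Metric.sphere (0 : G) 1 := by
    intro G _ _ v hv
    rw [mem_sphere_zero_iff_norm, norm_smul, norm_inv, norm_norm,
      inv_mul_cancel₀ (norm_ne_zero_iff.2 hv)]
  refine ⟨{ toFun := fun x => ⟨‖L x.1‖⁻¹ • L x.1, hn _ (hL x)⟩
            invFun := fun y => ⟨‖L.symm y.1‖⁻¹ • L.symm y.1, hn _ (hS y)⟩
            left_inv := ?_
            right_inv := ?_
            continuous_toFun := ?_
            continuous_invFun := ?_ }⟩
  · intro x
    apply Subtype.ext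
    have h0 : ‖L x.1‖ ≠ 0 := norm_ne_zero_iff.2 (hL x)
    have h1 : ‖x.1‖ = 1 := mem_sphere_zero_iff_norm.1 x.2
    show ‖L.symm (‖L x.1‖⁻¹ • L x.1)‖⁻¹ • L.symm (‖L x.1‖⁻¹ • L x.1) = x.1
    rw [map_smul, ContinuousLinearEquiv.symm_apply_apply, norm_smul, norm_inv, norm_norm, h1,
      mul_one, inv_inv, smul_smul, mul_inv_cancel₀ h0, one_smul]
  · intro y
    apply Subtype.ext
    have h0 : ‖L.symm y.1‖ ≠ 0 := norm_ne_zero_iff.2 (hS y)
    have h1 : ‖y.1‖ = 1 := mem_sphere_zero_iff_norm.1 y.2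
    show ‖L (‖L.symm y.1‖⁻¹ • L.symm y.1)‖⁻¹ • L (‖L.symm y.1‖⁻¹ • L.symm y.1) = y.1
    rw [map_smul, ContinuousLinearEquiv.apply_symm_apply, norm_smul, norm_inv, norm_norm, h1,
      mul_one, inv_inv, smul_smul, mul_inv_cancel₀ h0, one_smul]
  · refine Continuous.subtype_mk ?_ _
    have hc : Continuous fun x : Metric.sphere (0 : E) 1 => L x.1 :=
      L.continuous.comp continuous_subtype_val
    exact (hc.norm.inv₀ fun x => norm_ne_zero_iff.2 (hL x)).smul hc
  · refine Continuous.subtype_mk ?_ _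
    have hc : Continuous fun y : Metric.sphere (0 : F) 1 => L.symm y.1 :=
      L.symm.continuous.comp continuous_subtype_val
    exact (hc.norm.inv₀ fun y => norm_ne_zero_iff.2 (hS y)).smul hc

theorem sphere_homeo (k : ℕ) :
    Nonempty (Metric.sphere (0 : EuclideanSpace ℝ (Fin (k + 1))) 1 ≃ₜ X k) :=
  chart_homeo (EuclideanSpace.equiv (Fin (k + 1)) ℝ)

theorem chart {k : ℕ} (hk : 1 ≤ k) (z : X k) :
    ∃ e : (Fin k → ℝ) → X k, IsOpenEmbedding e ∧ range e = {z}ᶜ := by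
  obtain ⟨Φ⟩ := sphere_homeo k
  haveI : Fact (Module.finrank ℝ (EuclideanSpace ℝ (Fin (k + 1))) = k + 1) :=
    ⟨finrank_euclideanSpace_fin⟩
  let s := (stereographic' k (Φ.symm z)).symm
  have hs : s.source = univ := by
    show (stereographic' k (Φ.symm z)).target = univ
    exact stereographic'_target _
  have ht : s.target = {Φ.symm z}ᶜ := by
    show (stereographic' k (Φ.symm z)).source = {Φ.symm z}ᶜ
    exact stereographic'_source _
  let ψ : (Fin k → ℝ) ≃ₜ EuclideanSpace ℝ (Fin k) :=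
    (EuclideanSpace.equiv (Fin k) ℝ).symm.toHomeomorph
  have ho : IsOpenEmbedding s := s.isOpenEmbedding hs
  refine ⟨fun y => Φ (s (ψ y)),
    Φ.isOpenEmbedding.comp (ho.comp ψ.isOpenEmbedding), ?_⟩
  have hr : range s = {Φ.symm z}ᶜ := by
    rw [← image_univ, ← hs, s.image_source_eq_target, ht]
  ext w
  constructor
  · rintro ⟨y, rfl⟩
    intro hw
    have h1 : s (ψ y) = Φ.symm z := by
      rw [← (mem_singleton_iff.1 hw)]
      exact (Φ.symm_apply_apply _).symm
    have h2 : s (ψ y) ∈ range s := ⟨_, rfl⟩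
    rw [hr] at h2
    exact h2 h1
  · intro hw
    have h2 : Φ.symm w ∈ range s := by
      rw [hr]
      intro h3
      exact hw (Φ.symm.injective h3)
    obtain ⟨u, hu⟩ := h2
    refine ⟨ψ.symm u, ?_⟩
    show Φ (s (ψ (ψ.symm u))) = w
    rw [ψ.apply_symm_apply, hu, Φ.apply_symm_apply]

end Pool.Agent.Work.MP_6d5d4b_gt.FP
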