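import Pool.Agent.Work.MP_6d5d4b_gt.FP.CuL
import Pool.Agent.Work.MP_01534c_gt.TN.E.RevI

set_option autoImplicit false

/-!
# FP/CuC (size M): graded commutativity

PROOF. Reversal (`MP_01534c_gt/TN/E`): `rev1 c t = rsg k • c (t ∘ rev)`, `hrev_zero`, `hrev_succ`. For a cocycle `c` of degree `m` (near `univ`): `Cob one univ ∅ (c - rev1 c)`: for `m = m' + 1`: `c - rev1 c = dd one (hrev m' c) + hrev m (dd one c)` and the
last term is `LZ univ` (`hrev_congr` with `ψ = 0`: all values of `dd one c` used at `t` are at tuples with entries among those of `t`; `dd one c` vanishes at all tuples near `x`); `m = 0`: `hrev 0 (dd one c) = c - rev1 c`.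
`rev1 c` is again a cocycle (`rev1 c = c - (coboundary)` up to `LZ univ`, `LZ_dd_dd`; or directly).
Pointwise (`n = p + q`): `rev1 (cu h a b) = (-1)^(p*q) • cu h' (rev1 b) (rev1 a)`: at `t` the left side is `rsg n • (a (t_n, …, t_q) * b (t_q, …, t_0))`, the right side `(rsg q * rsg p) • (b (t_q, …, t_0) * a (t_n, …, t_q))`, and
`rsg n = (-1)^(p*q) * rsg p * rsg q` (`n (n+1) / 2 = p (p+1) / 2 + q (q+1) / 2 + p q`).
So modulo coboundaries: `cu a b ~ rev1 (cu a b) = ± cu (rev1 b) (rev1 a) ~ ± cu b a` (`cu_cob_left`, `cu_cob_right` with `S = univ`, `Z = ∅`; `cu a b` is a cocycle by `cu_coc`). Degree `0` everywhere is covered by the same argument (`Cob` in degree 0 is `LZ`).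
-/

open Topology Filter Set PoolFbd Pool.Agent.Work.MP_01534c_gt.TN

namespace Pool.Agent.Work.MP_6d5d4b_gt.FP

private theorem hrev_z {P V : Type} [AddCommGroup V] (k : ℕ) (t : Fin (k + 1) → P) :
    hrev k (0 : Coch P V (k + 1)) t = 0 := by
  induction k with
  | zero =>
    show -(0 : V) = 0
    exact neg_zero
  | succ k ih =>
    show -hrev k (0 : Coch P V (k + 1)) (Fin.tail t) - rsg (k + 1) • (0 : V) = 0
    rw [ih, smul_zero, neg_zero, sub_zero]

private theorem hrev_LZ {P V : Type} [TopologicalSpace P] [AddCommGroup V] (k : ℕ)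
    {φ : Coch P V (k + 1)} (h : LZ univ φ) : LZ univ (hrev k φ) := fun x _ => by
  have h1 : ∀ᶠ t in 𝓝 (fun _ : Fin (k + 1) => x), ∀ f : Fin (k + 2) → Fin (k + 1),
      φ (fun j => t (f j)) = 0 := by
    rw [eventually_all]
    exact fun f => (tendsto_face f x).eventually (h x (mem_univ x))
  filter_upwards [h1] with t ht
  rw [hrev_congr k φ 0 t fun f _ => ht f]
  exact hrev_z k t

private theorem rev_cob {P V : Type} [TopologicalSpace P] [AddCommGroup V] {m : ℕ}
    {c : Coch P V m} (h : LZ univ (dd one c)) : Cob one univ ∅ (c - rev1 c) := by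
  cases m with
  | zero =>
    show LZ univ (c - rev1 c)
    rw [← hrev_zero]
    exact hrev_LZ 0 h
  | succ m =>
    refine ⟨hrev m c, LZ.empty _, ?_⟩
    have h1 : c - rev1 c - dd one (hrev m c) = hrev (m + 1) (dd one c) := by
      rw [← hrev_succ c]
      abel
    rw [h1]
    exact hrev_LZ (m + 1) h

private theorem cob_dd {P V : Type} [TopologicalSpace P] [AddCommGroup V] {m : ℕ}
    {c : Coch P V m} (h : Cob one univ ∅ c) : LZ univ (dd one c) := by
  cases m with
  | zero => exact LZ.dd h one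
  | succ m =>
    obtain ⟨ψ, _, h2⟩ := h
    have h3 : LZ univ (dd one (dd one ψ)) := LZ_dd_dd (IsTw.one univ) ψ
    have h4 := (LZ.dd h2 one).add h3
    rw [← dd_add, sub_add_cancel] at h4
    exact h4

private theorem rev_coc {P V : Type} [TopologicalSpace P] [AddCommGroup V] {m : ℕ}
    {c : Coch P V m} (h : LZ univ (dd one c)) : LZ univ (dd one (rev1 c)) := by
  have h1 := cob_dd (rev_cob h)
  rw [dd_sub] at h1
  have h2 := h.sub h1
  rw [sub_sub_cancel] at h2
  exact h2

private theorem rsg_add (p q : ℕ) : rsg (p + q) = (-1) ^ (p * q) * rsg p * rsg q := by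
  induction q with
  | zero =>
    have h0 : rsg 0 = 1 := by simp [rsg]
    rw [h0]
    simp
  | succ q ih =>
    rw [← add_assoc, rsg_succ, ih, rsg_succ q, Nat.mul_succ]
    ring

private theorem rev_cu {P : Type} {p q n : ℕ} (h : p + q = n) (h' : q + p = n)
    (a : Coch P ℚ p) (b : Coch P ℚ q) :
    rev1 (cu h a b) = (-1 : ℚ) ^ (p * q) • cu h' (rev1 b) (rev1 a) := by
  funext t
  rw [Pi.smul_apply, cu_apply]
  show rsg n • cu h a b (fun j => t j.rev) = _
  rw [cu_apply]
  have e1 : (fun i : Fin (p + 1) => t (Fin.rev (⟨i.1, by omega⟩ : Fin (n + 1)))) =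
      fun i : Fin (p + 1) => t ⟨q + i.rev.1, by omega⟩ := by
    funext i
    congr 1
    apply Fin.ext
    simp only [Fin.val_rev]
    omega
  have e2 : (fun i : Fin (q + 1) => t (Fin.rev (⟨p + i.1, by omega⟩ : Fin (n + 1)))) =
      fun i : Fin (q + 1) => t ⟨i.rev.1, by omega⟩ := by
    funext i
    congr 1
    apply Fin.ext
    simp only [Fin.val_rev]
    omega
  rw [e1, e2]
  show rsg n • (a (fun i : Fin (p + 1) => t ⟨q + i.rev.1, by omega⟩) *
      b (fun i : Fin (q + 1) => t ⟨i.rev.1, by omega⟩)) =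
    (-1 : ℚ) ^ (p * q) • ((rsg q • b (fun i : Fin (q + 1) => t ⟨i.rev.1, by omega⟩)) *
      (rsg p • a (fun i : Fin (p + 1) => t ⟨q + i.rev.1, by omega⟩)))
  have hn : rsg n = (-1) ^ (p * q) * rsg p * rsg q := by rw [← rsg_add, h]
  rw [hn]
  simp only [zsmul_eq_mul, smul_eq_mul]
  push_cast
  ring

private theorem cob_sign {P : Type} [TopologicalSpace P] {m : ℕ} {c : Coch P ℚ m}
    (h : Cob one univ ∅ c) (k : ℕ) : Cob one univ ∅ ((-1 : ℚ) ^ k • c) := by
  rcases neg_one_pow_eq_or ℚ k with e | e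
  · rw [e, one_smul]
    exact h
  · rw [e, neg_smul, one_smul]
    exact h.neg

theorem cu_comm {P : Type} [TopologicalSpace P] {p q n : ℕ} (h : p + q = n) (h' : q + p = n)
    {a : Coch P ℚ p} {b : Coch P ℚ q} (ha : LZ univ (dd one a)) (hb : LZ univ (dd one b)) :
    Cob one univ ∅ (cu h a b - (-1 : ℚ) ^ (p * q) • cu h' b a) := by
  have hd : ∀ {m : ℕ} {c : Coch P ℚ m}, LZ univ (dd one c) →
      LZ ((univ : Set P) \ ∅) (dd one c) := fun hc => hc.mono (subset_univ _)
  have h0 : Coc one univ ∅ (cu h a b) := cu_coc h ⟨LZ.empty _, ha⟩ (hd hb)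
  have h1 : Cob one univ ∅ (cu h a b - rev1 (cu h a b)) := rev_cob h0.2
  have h2 : Cob one univ ∅ (cu h' (b - rev1 b) (rev1 a)) :=
    cu_cob_left h' (rev_cob hb) (LZ.empty _) (hd (rev_coc ha))
  have h3 : Cob one univ ∅ (cu h' b (a - rev1 a)) :=
    cu_cob_right h' ⟨LZ.empty _, hb⟩ ((rev_cob ha).mono (subset_univ _) subset_rfl)
  have h4 := cob_sign (h2.add h3) (p * q)
  have h5 := h1.sub h4
  rw [rev_cu h h'] at h5
  have e : cu h a b - (-1 : ℚ) ^ (p * q) • cu h' b a =
      cu h a b - (-1 : ℚ) ^ (p * q) • cu h' (rev1 b) (rev1 a) -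
        (-1 : ℚ) ^ (p * q) • (cu h' (b - rev1 b) (rev1 a) + cu h' b (a - rev1 a)) := by
    rw [cu_sub_left, cu_sub_right]
    simp only [smul_add, smul_sub]
    abel
  rw [e]
  exact h5

end Pool.Agent.Work.MP_6d5d4b_gt.FP
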