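import Pool.Agent.Work.MP_6d5d4b_gt.FP.Defs

set_option autoImplicit false

/-!
# FP/CuL (size S-M): the cup product

PROOFS. `cu h c φ t = c (front of t) * φ (back of t)` (unfold, the twist is trivial). The statements with `Cob`, `Coc` are `cup_left`, `cup_right`, `cup_coc`, `cup_cob_left`, `cup_cob_right`, `cup_leib` of `MP_fbd21a_gt/CupL.lean` for the trivial twist
`fun _ _ => (1 : Rˣ)` (`invt` of it is again trivial; `dd_triv : dd (fun _ _ => 1) φ = dd one φ`, and `Cob`, `Coc` for the trivial twist and for `one` have the same members since `dd` is the same). `cu_assoc`: funext, unfold, `mul_assoc`,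
equality of the indices in `Fin` (`Fin.ext`, `omega`). `cu_zero_at`: pointwise versions (`cup_left`, `cup_right` with `S = {x}`).
-/

open Topology Filter Set PoolFbd

namespace Pool.Agent.Work.MP_6d5d4b_gt.FP

variable {P R : Type} [CommRing R] {q p n : ℕ}

private theorem cul_invt : invt (fun _ _ : P => (1 : Rˣ)) = fun _ _ => 1 := by
  funext x y
  simp [invt]

private theorem cul_dd {m : ℕ} (c : Coch P R m) :
    dd (invt (fun _ _ : P => (1 : Rˣ))) c = dd one c := by
  rw [cul_invt]
  exact dd_triv c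

theorem cu_apply (h : q + p = n) (c : Coch P R q) (φ : Coch P R p) (t : Fin (n + 1) → P) :
    cu h c φ t = c (fun i => t ⟨i.1, by omega⟩) * φ (fun j => t ⟨q + j.1, by omega⟩) := by
  simp only [cu, cup, one_smul, smul_eq_mul]

theorem cu_add_left (h : q + p = n) (c c' : Coch P R q) (φ : Coch P R p) :
    cu h (c + c') φ = cu h c φ + cu h c' φ := by
  funext t
  simp only [cu_apply, Pi.add_apply, add_mul]

theorem cu_add_right (h : q + p = n) (c : Coch P R q) (φ φ' : Coch P R p) :
    cu h c (φ + φ') = cu h c φ + cu h c φ' := by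
  funext t
  simp only [cu_apply, Pi.add_apply, mul_add]

theorem cu_sub_left (h : q + p = n) (c c' : Coch P R q) (φ : Coch P R p) :
    cu h (c - c') φ = cu h c φ - cu h c' φ := by
  funext t
  simp only [cu_apply, Pi.sub_apply, sub_mul]

theorem cu_sub_right (h : q + p = n) (c : Coch P R q) (φ φ' : Coch P R p) :
    cu h c (φ - φ') = cu h c φ - cu h c φ' := by
  funext t
  simp only [cu_apply, Pi.sub_apply, mul_sub]

theorem cu_smul_left (h : q + p = n) (r : R) (c : Coch P R q) (φ : Coch P R p) :
    cu h (r • c) φ = r • cu h c φ := by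
  funext t
  simp only [cu_apply, Pi.smul_apply, smul_eq_mul, mul_assoc]

theorem cu_smul_right (h : q + p = n) (r : R) (c : Coch P R q) (φ : Coch P R p) :
    cu h c (r • φ) = r • cu h c φ := by
  funext t
  simp only [cu_apply, Pi.smul_apply, smul_eq_mul, mul_left_comm]

theorem cu_assoc {r s m : ℕ} (h1 : q + p = n) (h2 : n + r = m) (h3 : p + r = s) (h4 : q + s = m)
    (a : Coch P R q) (b : Coch P R p) (c : Coch P R r) : cu h2 (cu h1 a b) c = cu h4 a (cu h3 b c) := by
  funext t
  simp only [cu_apply, mul_assoc]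
  congr 2
  congr 1
  funext j
  congr 1
  apply Fin.ext
  show n + j.1 = q + (p + j.1)
  omega

variable [TopologicalSpace P] {S Z : Set P}

theorem cu_left (h : q + p = n) {c : Coch P R q} (hc : LZ S c) (φ : Coch P R p) : LZ S (cu h c φ) :=
  cup_left h hc φ

theorem cu_right (h : q + p = n) (c : Coch P R q) {φ : Coch P R p} (hφ : LZ S φ) : LZ S (cu h c φ) :=
  cup_right h c hφ

/-- The Leibniz rule; it holds for all tuples. -/
theorem dd_cu (h : q + p = n) (h1 : q + 1 + p = n + 1) (h2 : q + (p + 1) = n + 1) (c : Coch P R q)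
    (φ : Coch P R p) : dd one (cu h c φ) = cu h1 (dd one c) φ + (-1 : ℤ) ^ q • cu h2 c (dd one φ) := by
  funext t
  have key := dd_cup_apply h h1 h2 (fun _ _ : P => (1 : Rˣ)) c φ t (fun i j k => one_mul 1)
  rw [cul_dd, dd_triv] at key
  exact key

private theorem cul_tw : IsTw (S \ Z) (fun _ _ : P => (1 : Rˣ)) := fun _ _ =>
  Eventually.of_forall fun _ => one_mul 1

private theorem cul_coc {m : ℕ} {c : Coch P R m} (hc : Coc one S Z c) :
    Coc (invt (fun _ _ : P => (1 : Rˣ))) S Z c := ⟨hc.1, by rw [cul_dd]; exact hc.2⟩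

theorem cu_coc (h : q + p = n) {c : Coch P R q} {φ : Coch P R p} (hc : Coc one S Z c)
    (hφ : LZ (S \ Z) (dd one φ)) : Coc one S Z (cu h c φ) :=
  cup_coc h cul_tw (cul_coc hc) (by rw [dd_triv]; exact hφ)

theorem cu_cob_left (h : q + p = n) {c : Coch P R q} {φ : Coch P R p} (hc : Cob one S Z c)
    (hc' : LZ Z c) (hφ : LZ (S \ Z) (dd one φ)) : Cob one S Z (cu h c φ) := by
  refine cup_cob_left h cul_tw ?_ hc' (by rw [dd_triv]; exact hφ)
  cases q with
  | zero => exact hc
  | succ q =>
    obtain ⟨ψ, a, b⟩ := hc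
    exact ⟨ψ, a, by rw [cul_dd]; exact b⟩

theorem cu_cob_right (h : q + p = n) {c : Coch P R q} {φ : Coch P R p} (hc : Coc one S Z c)
    (hφ : Cob one (S \ Z) ∅ φ) : Cob one S Z (cu h c φ) := by
  refine cup_cob_right h cul_tw (cul_coc hc) ?_
  cases p with
  | zero => exact hφ
  | succ p =>
    obtain ⟨ψ, a, b⟩ := hφ
    exact ⟨ψ, a, by rw [dd_triv]; exact b⟩

/-- Second relative form: primitive `± cu c η`; if `p = 0`, `φ` is `LZ S`. -/
theorem cu_cob_right' (h : q + p = n) {c : Coch P R q} {φ : Coch P R p} (hc : LZ S (dd one c))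
    (hφ : Cob one S Z φ) : Cob one S Z (cu h c φ) := by
  cases p with
  | zero => exact Cob.of_LZ (cu_right h c hφ)
  | succ p =>
    obtain ⟨η, a, b⟩ := hφ
    obtain rfl : n = q + p + 1 := by omega
    have e0 : cu h c φ = cu h c (φ - dd one η) + cu h c (dd one η) := by
      rw [← cu_add_right, sub_add_cancel]
    have e1 := dd_cu (rfl : q + p = q + p) (by omega) h c η
    rcases neg_one_pow_eq_or ℤ q with hs | hs
    · refine ⟨cu rfl c η, cu_right rfl c a, ?_⟩
      rw [hs, one_smul] at e1
      have e2 : cu h c φ - dd one (cu (rfl : q + p = q + p) c η) =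
          cu h c (φ - dd one η) - cu (by omega) (dd one c) η := by
        rw [e1, e0]
        abel
      rw [e2]
      exact (cu_right h c b).sub (cu_left _ hc η)
    · refine ⟨-cu rfl c η, (cu_right rfl c a).neg, ?_⟩
      rw [hs, neg_one_smul] at e1
      have e2 : cu h c φ - dd one (-cu (rfl : q + p = q + p) c η) =
          cu h c (φ - dd one η) + cu (by omega) (dd one c) η := by
        rw [dd_neg, e1, e0]
        abel
      rw [e2]
      exact (cu_right h c b).add (cu_left _ hc η)

end Pool.Agent.Work.MP_6d5d4b_gt.FP
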