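import Pool.Agent.Work.MP_6d5d4b_gt.FP.Sa

set_option autoImplicit false

/-!
# FP/DNeg (size M): the degree of the antipodal map

PROOF. Let `ρ i : X k → X k` negate the coordinate `i` (it preserves the maximum norm) and `reflq (k+1) i` the same map of the cube. For a cocycle `φ` of `X k` put `D = pb rad (pb (ρ i) φ) - pb (reflq (k+1) i) (pb rad φ)`: since
`rad (reflq x) = ρ i (rad x)` for `x ≠ 0`, `D t = 0` for all tuples `t` without the entry `0`, so `D` is `LZ (bd (k+1))`, and `dd one (pb rad (pb (ρ i) φ)) = pb (reflq) (dd one (pb rad φ)) + dd one D`; the last term is a relative coboundary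
(degree `k + 1 ≥ 1`). `Itg_reflq` (for `dg_coc hφ`) gives `dg (pb (ρ i) φ) = - dg φ`. The antipodal map is the composition of `ρ 0, …, ρ k`: define `ν m x` = `x` with the coordinates `< m` negated; `ν 0 = id`, `ν (m+1) = ρ m ∘ ν m` for `m ≤ k`,
`ν (k+1) = (- ·)`, all continuous; induction on `m`: `dg (pb (ν m) φ) = (-1)^m • dg φ` for every cocycle `φ`.
-/

open Topology Filter Set PoolFbd

namespace Pool.Agent.Work.MP_6d5d4b_gt.FP

variable {A : Type} [AddCommGroup A] {k : ℕ}

private def dneg_fl (s : Finset (Fin (k + 1))) (y : Fin (k + 1) → ℝ) : Fin (k + 1) → ℝ :=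
  fun j => if j ∈ s then -y j else y j

private theorem dneg_norm (s : Finset (Fin (k + 1))) (y : Fin (k + 1) → ℝ) :
    ‖dneg_fl s y‖ = ‖y‖ := by
  rw [Pi.norm_def, Pi.norm_def]
  congr 2
  funext j
  unfold dneg_fl
  split_ifs
  · rw [nnnorm_neg]
  · rfl

private theorem dneg_smul (s : Finset (Fin (k + 1))) (c : ℝ) (y : Fin (k + 1) → ℝ) :
    dneg_fl s (c • y) = c • dneg_fl s y := by
  funext j
  simp only [dneg_fl, Pi.smul_apply, smul_eq_mul]
  split_ifs
  · ring
  · rfl

private theorem dneg_cont (s : Finset (Fin (k + 1))) : Continuous (dneg_fl (k := k) s) := by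
  refine continuous_pi fun j => ?_
  unfold dneg_fl
  split_ifs
  · exact (continuous_apply j).neg
  · exact continuous_apply j

private def dneg_Fl (s : Finset (Fin (k + 1))) (x : X k) : X k := ⟨dneg_fl s x.1, by
  rw [mem_sphere_zero_iff_norm, dneg_norm]
  exact mem_sphere_zero_iff_norm.1 x.2⟩

private theorem dneg_Fl_cont (s : Finset (Fin (k + 1))) : Continuous (dneg_Fl (k := k) s) :=
  Continuous.subtype_mk ((dneg_cont s).comp continuous_subtype_val) _

private theorem dneg_coc (s : Finset (Fin (k + 1))) {φ : Coch (X k) A k}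
    (hφ : LZ univ (dd one φ)) : LZ univ (dd one (pb (dneg_Fl s) φ)) := by
  have h1 : LZ univ (pb (dneg_Fl s) (dd one φ)) :=
    hφ.pb fun x _ => ⟨(dneg_Fl_cont s).continuousAt, mem_univ _⟩
  exact h1

private theorem dneg_rad (i : Fin (k + 1)) (x : Q (k + 1)) (hx : ∃ j, (x j : ℝ) ≠ 0) :
    (rad (reflq (k + 1) i x) : X k) = dneg_Fl {i} (rad x) := by
  have e1 : (fun j => ((reflq (k + 1) i x) j : ℝ)) = dneg_fl {i} (fun j => (x j : ℝ)) := by
    funext j
    unfold dneg_fl reflq
    by_cases hj : j = i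
    · subst hj
      simp [negI]
    · simp [hj, Function.update_of_ne hj]
  have h0 : (fun j => (x j : ℝ)) ≠ 0 := by
    obtain ⟨j, hj⟩ := hx
    intro h
    exact hj (congrFun h j)
  have h1 : dneg_fl {i} (fun j => (x j : ℝ)) ≠ 0 := by
    intro h
    have h2 := dneg_norm {i} (fun j => (x j : ℝ))
    rw [h, norm_zero] at h2
    exact h0 (norm_eq_zero.1 h2.symm)
  unfold rad
  rw [e1]
  apply Subtype.ext
  rw [nrm_val h1, dneg_norm]
  show _ = dneg_fl {i} (nrm (fun j => (x j : ℝ)) : X k).1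
  rw [nrm_val h0, dneg_smul]

private theorem dneg_reflq_zero (i : Fin (k + 1)) (φ : Coch (X k) A k)
    (t : Fin (k + 1) → Q (k + 1)) (ht : ∀ j, ∃ l, (t j l : ℝ) ≠ 0) :
    (pb rad (pb (dneg_Fl {i}) φ) - pb (reflq (k + 1) i) (pb rad φ)) t = 0 := by
  have h1 : (fun j => dneg_Fl {i} (rad (t j))) = fun j => (rad (reflq (k + 1) i (t j)) : X k) := by
    funext j
    exact (dneg_rad i (t j) (ht j)).symm
  show φ (fun j => dneg_Fl {i} (rad (t j))) - φ (fun j => rad (reflq (k + 1) i (t j))) = 0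
  rw [h1, sub_self]

private theorem dneg_near {x : Q (k + 1)} (hx : ∃ l, (x l : ℝ) ≠ 0) :
    ∀ᶠ y in 𝓝 x, ∃ l, ((y : Q (k + 1)) l : ℝ) ≠ 0 := by
  obtain ⟨l, hl⟩ := hx
  have hc : ContinuousAt (fun y : Q (k + 1) => ((y l : Icc (-1 : ℝ) 1) : ℝ)) x :=
    (continuous_subtype_val.comp (continuous_apply l)).continuousAt
  filter_upwards [hc.eventually_ne hl] with y hy
  exact ⟨l, hy⟩

private theorem dneg_single (i : Fin (k + 1)) {φ : Coch (X k) A k} (hφ : LZ univ (dd one φ)) :
    dg (pb (dneg_Fl {i}) φ) = -dg φ := by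
  have h1 : LZ (bd (k + 1)) (pb rad (pb (dneg_Fl {i}) φ) - pb (reflq (k + 1) i) (pb rad φ)) := by
    intro x hx
    have h2 : ∀ᶠ t in 𝓝 (fun _ : Fin (k + 1) => x), ∀ j, ∃ l, ((t j : Q (k + 1)) l : ℝ) ≠ 0 := by
      rw [eventually_all]
      intro j
      exact ((continuous_apply j).tendsto (fun _ : Fin (k + 1) => x)).eventually
        (dneg_near (bd_ne hx))
    filter_upwards [h2] with t ht
    exact dneg_reflq_zero i φ t ht
  have h3 : Cob one univ (bd (k + 1)) (dd one (pb rad (pb (dneg_Fl {i}) φ)) -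
      pb (reflq (k + 1) i) (dd one (pb (rad : Q (k + 1) → X k) φ))) := by
    refine ⟨_, h1, ?_⟩
    rw [dd_sub]
    have h4 : dd one (pb (reflq (k + 1) i) (pb (rad : Q (k + 1) → X k) φ)) =
        pb (reflq (k + 1) i) (dd one (pb (rad : Q (k + 1) → X k) φ)) := rfl
    rw [h4, sub_self]
    exact LZ.zero _
  have h5 := Itg_congr (dg_coc (dneg_coc {i} hφ)) h3
  unfold dg
  rw [h5]
  exact Itg_reflq i (dg_coc hφ)

private theorem dneg_finset (s : Finset (Fin (k + 1))) {φ : Coch (X k) A k}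
    (hφ : LZ univ (dd one φ)) : dg (pb (dneg_Fl s) φ) = (-1 : ℤ) ^ s.card • dg φ := by
  induction s using Finset.induction_on with
  | empty =>
    have h1 : pb (dneg_Fl (∅ : Finset (Fin (k + 1)))) φ = φ := by
      funext t
      unfold pb
      congr 1
    rw [h1, Finset.card_empty, pow_zero, one_smul]
  | insert i s hi ih =>
    have h1 : pb (dneg_Fl (insert i s)) φ = pb (dneg_Fl {i}) (pb (dneg_Fl s) φ) := by
      funext t
      unfold pb
      congr 1
      funext j
      apply Subtype.ext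
      funext l
      show dneg_fl (insert i s) (t j).1 l = dneg_fl s (dneg_fl {i} (t j).1) l
      unfold dneg_fl
      by_cases h2 : l = i
      · subst h2
        simp [hi]
      · simp [h2]
    rw [h1, dneg_single i (dneg_coc s hφ), ih, Finset.card_insert_of_notMem hi, pow_succ,
      mul_neg_one, neg_smul]

theorem dg_neg {φ : Coch (X k) A k} (hφ : LZ univ (dd one φ)) :
    dg (pb (fun x : X k => -x) φ) = (-1 : ℤ) ^ (k + 1) • dg φ := by
  have h1 : (fun x : X k => -x) = dneg_Fl Finset.univ := by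
    funext x
    apply Subtype.ext
    funext l
    show (-x).1 l = dneg_fl Finset.univ x.1 l
    unfold dneg_fl
    simp
  rw [h1, dneg_finset Finset.univ hφ, Finset.card_univ, Fintype.card_fin]

end Pool.Agent.Work.MP_6d5d4b_gt.FP
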