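import Pool.Agent.Work.MP_fbd21a_gt.CupL
import Pool.Agent.Work.MP_fbd21a_gt.DdDd
import Pool.Agent.Work.MP_fbd21a_gt.Refl
import Pool.Agent.Work.MP_fbd21a_gt.Ret
import Pool.Agent.Work.MP_fbd21a_gt.AcBox
import Pool.Agent.Work.MP_fbd21a_gt.Unif

set_option autoImplicit false

/-!
# MP_6d5d4b_gt, block FP (common fold points): definitions. FIXED, do not change.

Cohomology = germs of Alexander-Spanier cochains (`Pool.Agent.Work.MP_fbd21a_gt.Basic`): `Coch E A n` = all functions
`(Fin (n+1) → E) → A`, `LZ S φ` (`φ` vanishes near the diagonal points of `S`), `dd one φ` (coboundary), `Coc one S Z φ`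
(relative cocycle: `LZ Z φ ∧ LZ S (dd one φ)`), `Cob one S Z φ` (relative coboundary; in degree 0: `LZ S φ`), `pb f φ`.

GOAL. `X k` = unit sphere of the maximum norm of `ℝ^(k+1)`. For a continuous injective map `F : X k → ℝ^(k+1)` let `fol F` be
the closure of the set of the pairs `(s, t)`, `s ≠ t`, such that `F s`, `F t` differ only in the last coordinate. The class
`ua k = a(s) - (-1)^k a(t)` of `X k × X k` (`a` = fundamental class) is exact near every compact set disjoint from `fol F`
(`ua_G`). The cyclic product of `N + 1` copies of it, pulled back to `(X k)^(N+1)`, is `(1 + (-1)^(N+1+k)) a_0 ⋯ a_N`, not exact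
if `N + 1 + k` is even. So there are `p_0, …, p_N` with `(p_i, p_(i+1)) ∈ fol (F_i)`, indices modulo `N + 1` (`fold`).
-/

open Topology Filter Set PoolFbd

namespace Pool.Agent.Work.MP_6d5d4b_gt.FP

/-- The unit sphere of the maximum norm of `ℝ^(k+1)` (the boundary of the cube `[-1,1]^(k+1)`). -/
abbrev X (k : ℕ) : Type := Metric.sphere (0 : Fin (k + 1) → ℝ) 1

/-- The base point `(1, …, 1)`. -/
noncomputable def bp (k : ℕ) : X k := ⟨fun _ => 1, by
  rw [mem_sphere_zero_iff_norm, pi_norm_const, norm_one]⟩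

open Classical in
/-- Normalization `x ↦ x / ‖x‖` (the base point for `x = 0`). -/
noncomputable def nrm {k : ℕ} (x : Fin (k + 1) → ℝ) : X k :=
  if h : x = 0 then bp k else ⟨‖x‖⁻¹ • x, by
    rw [mem_sphere_zero_iff_norm, norm_smul, norm_inv, norm_norm, inv_mul_cancel₀ (norm_ne_zero_iff.2 h)]⟩

/-- The inclusion of the sphere in the cube. -/
noncomputable def io {k : ℕ} (x : X k) : Q (k + 1) := fun i => ⟨x.1 i, by
  have h1 : ‖x.1‖ = 1 := mem_sphere_zero_iff_norm.1 x.2
  have h2 : ‖x.1 i‖ ≤ ‖x.1‖ := norm_le_pi_norm x.1 i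
  rw [h1, Real.norm_eq_abs] at h2
  exact abs_le.1 h2⟩

/-- The radial projection of the cube to the sphere (junk at `0`). -/
noncomputable def rad {k : ℕ} (x : Q (k + 1)) : X k := nrm fun i => (x i : ℝ)

/-- The degree of a cochain of top degree of the sphere: the integral over the cube of the coboundary of its radial
extension. -/
noncomputable def dg {A : Type} [AddCommGroup A] {k : ℕ} (φ : Coch (X k) A k) : A :=
  Itg (dd one (pb rad φ))

open Classical in
/-- The fundamental cocycle of the sphere. -/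
noncomputable def sa (k : ℕ) : Coch (X k) ℤ k :=
  if h : ∃ a : Coch (X k) ℤ k, LZ univ (dd one a) ∧ dg a = 1 then h.choose else 0

/-- The fundamental cocycle with rational coefficients. -/
noncomputable def aq (k : ℕ) : Coch (X k) ℚ k := cmap (fun r : ℤ => (r : ℚ)) (sa k)

/-- The degree of a self map of the sphere. -/
noncomputable def deg {k : ℕ} (g : X k → X k) : ℤ := dg (pb g (sa k))

/-- The (untwisted) cup product of cochains with coefficients in a commutative ring. -/
def cu {E R : Type} [CommRing R] {q p n : ℕ} (h : q + p = n) (c : Coch E R q) (φ : Coch E R p) : Coch E R n :=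
  cup h (fun _ _ => (1 : Rˣ)) c φ

/-- The class `a(s) - (-1)^k a(t)` of `X k × X k`. -/
noncomputable def ua (k : ℕ) : Coch (X k × X k) ℚ k :=
  pb Prod.fst (aq k) - (-1 : ℚ) ^ k • pb Prod.snd (aq k)

/-- The closure of the set of the pairs of distinct points whose images differ only in the last coordinate. -/
def fol {k : ℕ} (F : X k → Fin (k + 1) → ℝ) : Set (X k × X k) :=
  closure {p | p.1 ≠ p.2 ∧ ∀ i : Fin k, F p.1 i.castSucc = F p.2 i.castSucc}

/-- `((1 ∪ a 0) ∪ a 1) ∪ ⋯ ∪ a (m-1)`. -/
def prodc {P : Type} {k : ℕ} (a : ℕ → Coch P ℚ k) : (m : ℕ) → Coch P ℚ (m * k)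
  | 0 => fun _ => 1
  | m + 1 => cu (by rw [Nat.succ_mul]) (prodc a m) (a m)

/-- The fundamental class of the factor `i` (modulo `N + 1`) of `(X k)^(N+1)`. -/
noncomputable def ac (k N : ℕ) (i : ℕ) : Coch (Fin (N + 1) → X k) ℚ k :=
  pb (fun p => p (Fin.ofNat (N + 1) i)) (aq k)

/-- The step cochain of the interval. -/
noncomputable def e1 : Coch (Icc (-1 : ℝ) 1) ℚ 1 := fun t => (st 0 (t 1) : ℚ) - (st 0 (t 0) : ℚ)

/-- Functions with values in the integers modulo two which change under the antipodal map. -/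
def oddf {k : ℕ} (h : X k → ZMod 2) : Prop := ∀ x, h (-x) = h x + 1

/-- The cocycle `h(y) + h(x)`, invariant under the antipodal map if `oddf h`. -/
def wc {k : ℕ} (h : X k → ZMod 2) : Coch (X k) (ZMod 2) 1 := fun t => h (t 1) + h (t 0)

/-- The powers of `wc h`. -/
def wp {k : ℕ} (h : X k → ZMod 2) : (j : ℕ) → Coch (X k) (ZMod 2) j
  | 0 => fun _ => 1
  | j + 1 => cu (Nat.add_comm 1 j) (wc h) (wp h j)

end Pool.Agent.Work.MP_6d5d4b_gt.FP
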