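import Pool.Agent.Work.MP_6d5d4b_gt.FP.CuC

/-!
# FP/Expand (size M): expansion of the cyclic product

NOTATION. `ε = (-1 : ℚ)^k`, `w i = a i - ε • a (i+1)`, `W m = prodc w m`, `A m = prodc a m`, `φ ≈ ψ` if `Cob one univ ∅ (φ - ψ)`. All cochains are cocycles near `univ` (`cu_coc`). `≈` is stable under `+`, `r •` (`r : ℚ`: primitive `r • ψ`; degree 0: `LZ`), and under `cu _ φ` and
`cu φ _` for cocycles `φ` (`cu_cob_left`, `cu_cob_right` with `S = univ`, `Z = ∅`).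
(F1) `cu h2 (cu h1 φ b) b ≈ 0` for a cocycle `φ` if `cu rfl b b ≈ 0` (`cu_assoc`). (F2) `cu h2 (cu h1 φ b) b' ≈ ε • cu h2 (cu h1 φ b') b` for `b, b'` of degree `k` (`cu_assoc`, `cu_comm`, `(-1)^(k*k) = (-1)^k`).
Write right multiplication by a class of degree `k` with the degrees `m * k → (m+1) * k` as in `prodc`, so `prodc a (m+1) = R (a m) (prodc a m)` by definition.
CLAIM by induction on `m`: (I) `R (a m) (W m) ≈ A (m+1)`. (II) `R (a 0) (W m) ≈ (-1)^m • A (m+1)`. `m = 0`: equalities. Step: `W (m+1) = R (a m) (W m) - ε • R (a (m+1)) (W m)`.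
(I) `R (a (m+1)) (W (m+1)) = R (a (m+1)) (R (a m) (W m)) - ε • R (a (m+1)) (R (a (m+1)) (W m)) ≈ R (a (m+1)) (A (m+1)) - 0 = A (m+2)`.
(II) `R (a 0) (W (m+1)) = R (a 0) (R (a m) (W m)) - ε • R (a 0) (R (a (m+1)) (W m)) ≈ ε • R (a m) (R (a 0) (W m)) - ε ε • R (a (m+1)) (R (a 0) (W m)) ≈ ε (-1)^m • R (a m) (A (m+1)) - (-1)^m • R (a (m+1)) (A (m+1)) ≈ 0 - (-1)^m • A (m+2)`;
the first term vanishes as `A (m+1) = R (a m) (A m)` and (F1).
CONCLUSION: `W (N+1) = R (a N) (W N) - ε • R (a (N+1)) (W N) ≈ A (N+1) - ε (-1)^N • A (N+1)` as `a (N+1) = a 0`, and `1 - (-1)^k (-1)^N = 1 + (-1)^(N+1+k)`.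
-/

set_option autoImplicit false

open Topology Filter Set PoolFbd

namespace Pool.Agent.Work.MP_6d5d4b_gt.FP

private theorem xp_sg {P : Type} [TopologicalSpace P] {m : ℕ} {c : Coch P ℚ m}
    (h : Cob one univ ∅ c) (k : ℕ) : Cob one univ ∅ ((-1 : ℚ) ^ k • c) := by
  rcases neg_one_pow_eq_or ℚ k with e | e
  · rw [e, one_smul]
    exact h
  · rw [e, neg_smul, one_smul]
    exact h.neg

private theorem xp_lzs {P : Type} [TopologicalSpace P] {m : ℕ} {c : Coch P ℚ m}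
    (h : LZ univ (dd one c)) (k : ℕ) : LZ univ (dd one ((-1 : ℚ) ^ k • c)) := by
  rcases neg_one_pow_eq_or ℚ k with e | e
  · rw [e, one_smul]
    exact h
  · rw [e, neg_smul, one_smul, dd_neg]
    exact h.neg

/-- Right multiplication by a class of degree `k`. -/
private def xpR {P : Type} {k : ℕ} (m : ℕ) (c : Coch P ℚ k) (φ : Coch P ℚ (m * k)) :
    Coch P ℚ ((m + 1) * k) := cu (by rw [Nat.succ_mul]) φ c

section
variable {P : Type} {k : ℕ}

private theorem xpR_sub (m : ℕ) (c : Coch P ℚ k) (φ ψ : Coch P ℚ (m * k)) :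
    xpR m c (φ - ψ) = xpR m c φ - xpR m c ψ := cu_sub_left _ _ _ _

private theorem xpR_smul (m : ℕ) (c : Coch P ℚ k) (r : ℚ) (φ : Coch P ℚ (m * k)) :
    xpR m c (r • φ) = r • xpR m c φ := cu_smul_left _ _ _ _

private theorem xpR_subr (m : ℕ) (c c' : Coch P ℚ k) (φ : Coch P ℚ (m * k)) :
    xpR m (c - c') φ = xpR m c φ - xpR m c' φ := cu_sub_right _ _ _ _

private theorem xpR_smulr (m : ℕ) (c : Coch P ℚ k) (r : ℚ) (φ : Coch P ℚ (m * k)) :
    xpR m (r • c) φ = r • xpR m c φ := cu_smul_right _ _ _ _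

private theorem xpR_R (m : ℕ) (b c : Coch P ℚ k) (φ : Coch P ℚ (m * k)) :
    xpR (m + 1) c (xpR m b φ) =
      cu (by rw [Nat.succ_mul, Nat.succ_mul, add_assoc]) φ (cu (rfl : k + k = k + k) b c) :=
  cu_assoc _ _ _ _ _ _ _

variable [TopologicalSpace P]

private theorem xpR_coc (m : ℕ) {c : Coch P ℚ k} {φ : Coch P ℚ (m * k)}
    (hφ : LZ univ (dd one φ)) (hc : LZ univ (dd one c)) : LZ univ (dd one (xpR m c φ)) :=
  (cu_coc (S := univ) (Z := ∅) _ ⟨LZ.empty _, hφ⟩ (hc.mono (subset_univ _))).2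

private theorem xpR_cob (m : ℕ) {c : Coch P ℚ k} {φ : Coch P ℚ (m * k)}
    (hφ : Cob one univ ∅ φ) (hc : LZ univ (dd one c)) : Cob one univ ∅ (xpR m c φ) :=
  cu_cob_left _ hφ (LZ.empty _) (hc.mono (subset_univ _))

private theorem xpR_sq (m : ℕ) {b : Coch P ℚ k} {φ : Coch P ℚ (m * k)}
    (hb : Cob one univ ∅ (cu (n := k + k) rfl b b)) (hφ : LZ univ (dd one φ)) :
    Cob one univ ∅ (xpR (m + 1) b (xpR m b φ)) := by
  rw [xpR_R]
  exact cu_cob_right _ ⟨LZ.empty _, hφ⟩ (hb.mono (subset_univ _) subset_rfl)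

private theorem xpR_comm (m : ℕ) {b c : Coch P ℚ k} {φ : Coch P ℚ (m * k)}
    (hb : LZ univ (dd one b)) (hc : LZ univ (dd one c)) (hφ : LZ univ (dd one φ)) :
    Cob one univ ∅ (xpR (m + 1) c (xpR m b φ) - (-1 : ℚ) ^ k • xpR (m + 1) b (xpR m c φ)) := by
  rw [xpR_R, xpR_R, ← cu_smul_right, ← cu_sub_right]
  have h := cu_comm (rfl : k + k = k + k) rfl hb hc
  have e : (-1 : ℚ) ^ (k * k) = (-1) ^ k := by
    rw [pow_mul]
    rcases neg_one_pow_eq_or ℚ k with e | e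
    · rw [e, one_pow]
    · rw [e, e]
  rw [e] at h
  exact cu_cob_right _ ⟨LZ.empty _, hφ⟩ (h.mono (subset_univ _) subset_rfl)

end

private theorem xp_dd_one {P : Type} [TopologicalSpace P] {n : ℕ} (hn : n = 0) :
    LZ univ (dd one (fun _ => 1 : Coch P ℚ n)) := by
  subst hn
  have e : dd one (fun _ => 1 : Coch P ℚ 0) = 0 := by
    funext t
    simp [dd, one]
  rw [e]
  exact LZ.zero _

private theorem xp_prodc_coc {P : Type} [TopologicalSpace P] {k : ℕ} {a : ℕ → Coch P ℚ k}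
    (ha : ∀ i, LZ univ (dd one (a i))) (m : ℕ) : LZ univ (dd one (prodc a m)) := by
  induction m with
  | zero => exact xp_dd_one (Nat.zero_mul k)
  | succ m ih => exact xpR_coc m ih (ha m)

theorem expand {P : Type} [TopologicalSpace P] {k N : ℕ} {a : ℕ → Coch P ℚ k}
    (ha : ∀ i, LZ univ (dd one (a i))) (hper : a (N + 1) = a 0)
    (hsq : ∀ i, Cob one univ ∅ (cu (n := k + k) rfl (a i) (a i))) :
    Cob one univ ∅ (prodc (fun i => a i - (-1 : ℚ) ^ k • a (i + 1)) (N + 1) -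
      (1 + (-1 : ℚ) ^ (N + 1 + k)) • prodc a (N + 1)) := by
  set w : ℕ → Coch P ℚ k := fun i => a i - (-1 : ℚ) ^ k • a (i + 1) with hw
  have hwc : ∀ i, LZ univ (dd one (w i)) := by
    intro i
    rw [hw]
    show LZ univ (dd one (a i - (-1 : ℚ) ^ k • a (i + 1)))
    rw [dd_sub]
    exact (ha i).sub (xp_lzs (ha (i + 1)) k)
  have hW : ∀ m, LZ univ (dd one (prodc w m)) := xp_prodc_coc hwc
  have hA : ∀ m, LZ univ (dd one (prodc a m)) := xp_prodc_coc ha
  have hWs : ∀ m, prodc w (m + 1) = xpR m (a m) (prodc w m) -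
      (-1 : ℚ) ^ k • xpR m (a (m + 1)) (prodc w m) := by
    intro m
    rw [← xpR_smulr, ← xpR_subr]
    rfl
  have hAs : ∀ m, prodc a (m + 1) = xpR m (a m) (prodc a m) := fun m => rfl
  have h1 : ∀ m, Cob one univ ∅ (xpR m (a m) (prodc w m) - prodc a (m + 1)) := by
    intro m
    induction m with
    | zero =>
      have e : xpR 0 (a 0) (prodc w 0) - prodc a (0 + 1) = 0 := sub_self _
      rw [e]
      exact Cob.zero _ _ _
    | succ m ih =>
      have e : xpR (m + 1) (a (m + 1)) (prodc w (m + 1)) - prodc a (m + 1 + 1) =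
          xpR (m + 1) (a (m + 1)) (xpR m (a m) (prodc w m) - prodc a (m + 1)) -
            (-1 : ℚ) ^ k • xpR (m + 1) (a (m + 1)) (xpR m (a (m + 1)) (prodc w m)) := by
        rw [hAs (m + 1), hWs m, xpR_sub, xpR_sub, xpR_smul]
        abel
      rw [e]
      exact (xpR_cob _ ih (ha _)).sub (xp_sg (xpR_sq m (hsq _) (hW m)) k)
  have h2 : ∀ m, Cob one univ ∅ (xpR m (a 0) (prodc w m) - (-1 : ℚ) ^ m • prodc a (m + 1)) := by
    intro m
    induction m with
    | zero =>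
      have e : xpR 0 (a 0) (prodc w 0) - (-1 : ℚ) ^ 0 • prodc a (0 + 1) = 0 := by
        rw [pow_zero, one_smul]
        exact sub_self _
      rw [e]
      exact Cob.zero _ _ _
    | succ m ih =>
      have c1 := xpR_comm m (ha m) (ha 0) (hW m)
      have c2 := xpR_comm m (ha (m + 1)) (ha 0) (hW m)
      have c3 := xp_sg (xpR_cob (m + 1) ih (ha m)) k
      have c4 := xpR_cob (m + 1) ih (ha (m + 1))
      have c5 := xp_sg (xp_sg (xpR_sq m (hsq m) (hA m)) m) k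
      have e : xpR (m + 1) (a 0) (prodc w (m + 1)) - (-1 : ℚ) ^ (m + 1) • prodc a (m + 1 + 1) =
          (xpR (m + 1) (a 0) (xpR m (a m) (prodc w m)) -
              (-1 : ℚ) ^ k • xpR (m + 1) (a m) (xpR m (a 0) (prodc w m))) +
            (-1 : ℚ) ^ k • xpR (m + 1) (a m) (xpR m (a 0) (prodc w m) -
              (-1 : ℚ) ^ m • prodc a (m + 1)) +
            (-1 : ℚ) ^ k • (-1 : ℚ) ^ m • xpR (m + 1) (a m) (xpR m (a m) (prodc a m)) -
            (-1 : ℚ) ^ k • (xpR (m + 1) (a 0) (xpR m (a (m + 1)) (prodc w m)) -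
              (-1 : ℚ) ^ k • xpR (m + 1) (a (m + 1)) (xpR m (a 0) (prodc w m))) -
            xpR (m + 1) (a (m + 1)) (xpR m (a 0) (prodc w m) -
              (-1 : ℚ) ^ m • prodc a (m + 1)) := by
        rw [hAs (m + 1), hWs m, xpR_sub, xpR_sub, xpR_sub, xpR_smul, xpR_smul, xpR_smul, hAs m]
        rw [pow_succ]
        rcases neg_one_pow_eq_or ℚ k with e | e
        · rw [e]
          module
        · rw [e]
          module
      rw [e]
      exact (((c1.add c3).add c5).sub (xp_sg c2 k)).sub c4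
  have c1 := h1 N
  have c2 := xp_sg (h2 N) k
  have e : prodc w (N + 1) - (1 + (-1 : ℚ) ^ (N + 1 + k)) • prodc a (N + 1) =
      (xpR N (a N) (prodc w N) - prodc a (N + 1)) -
        (-1 : ℚ) ^ k • (xpR N (a 0) (prodc w N) - (-1 : ℚ) ^ N • prodc a (N + 1)) := by
    rw [hWs N, hper]
    rw [pow_add, pow_succ]
    module
  rw [e]
  exact c1.sub c2

end Pool.Agent.Work.MP_6d5d4b_gt.FP
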