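import Pool.Agent.Work.MP_6d5d4b_gt.FP.Chart

set_option autoImplicit false

/-!
# FP/G3 (size M): a tubular neighbourhood of a compact part of the diagonal

PROOF. `chart z`: `e`. `D = {m : Fin k → ℝ | (e m, e m) ∈ K}` is compact: `{x : X k | (x, x) ∈ K}` is compact (closed preimage in the compact space `X k`) and contained in `range e` (`(z, z) ∉ G ⊇ K`), and `e` is an open embedding. The set
`O = {(m, v) | (e (m + v), e (m - v)) ∈ G}` is open and contains `D ×ˢ {0}`. Choose a compact set `C` (`cthickening δ D`) with `D ⊆ interior C` and `ρ₀ > 0` with `(m, v) ∈ O` for `m ∈ C`, `‖v‖ ≤ ρ₀`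
(`IsCompact.exists_cthickening_subset_open` for the compact set `D ×ˢ {0}`; proper space). The set `B = {(m, v) | m ∈ C \ interior C, ‖v‖ ≤ ρ₀, (e (m + v), e (m - v)) ∈ K}` is compact and contains no point with `v = 0` (such an `m` is in
`D ⊆ interior C`), so there is `0 < ρ ≤ ρ₀` with `ρ < ‖v‖` for all `(m, v) ∈ B` (also if `B` is empty). `κ (m, v) = (e (m + ρ v), e (m - ρ v))` is an open embedding (composition of the linear homeomorphism
`(m, v) ↦ (m + ρ v, m - ρ v)` with `e × e`, `IsOpenEmbedding.prodMap`), `κ (m, -v) = (κ (m, v)).swap`, the two components are equal iff `ρ v = - ρ v` iff `v = 0`. If `D = ∅` this works with `C = ∅`.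
-/

open Topology Filter Set PoolFbd

namespace Pool.Agent.Work.MP_6d5d4b_gt.FP

theorem tube {k : ℕ} (hk : 1 ≤ k) {G K : Set (X k × X k)} (hG : IsOpen G) {z : X k} (hz : (z, z) ∉ G)
    (hK : IsCompact K) (hKG : K ⊆ G) :
    ∃ (C : Set (Fin k → ℝ)) (κ : (Fin k → ℝ) × (Fin k → ℝ) → X k × X k), IsCompact C ∧
      IsOpenEmbedding κ ∧ (∀ p, κ (p.1, -p.2) = (κ p).swap) ∧
      (∀ p : (Fin k → ℝ) × (Fin k → ℝ), (κ p).1 = (κ p).2 ↔ p.2 = 0) ∧
      (∀ m ∈ C, ∀ v : Fin k → ℝ, ‖v‖ ≤ 1 → κ (m, v) ∈ G) ∧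
      (∀ m ∈ C, m ∉ interior C → ∀ v : Fin k → ℝ, ‖v‖ ≤ 1 → κ (m, v) ∉ K) ∧
      (∀ x : X k, (x, x) ∈ K → ∃ m ∈ interior C, κ (m, 0) = (x, x)) := by
  obtain ⟨e, he, hr⟩ := chart hk z
  have hKcl : IsClosed K := hK.isClosed
  -- the diagonal part
  have hScl : IsClosed {x : X k | (x, x) ∈ K} :=
    hKcl.preimage (f := fun x : X k => (x, x)) (continuous_id.prodMk continuous_id)
  have hSc : IsCompact {x : X k | (x, x) ∈ K} := hScl.isCompact
  have hSr : {x : X k | (x, x) ∈ K} ⊆ range e := by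
    intro x hx
    rw [hr]
    intro hxz
    have hxz' : x = z := hxz
    exact hz (hxz' ▸ hKG hx)
  have hDc : IsCompact {m : Fin k → ℝ | (e m, e m) ∈ K} :=
    (he.isInducing.isCompact_preimage_iff hSr).2 hSc
  set D : Set (Fin k → ℝ) := {m : Fin k → ℝ | (e m, e m) ∈ K} with hD
  have hφc : Continuous fun p : (Fin k → ℝ) × (Fin k → ℝ) => (e (p.1 + p.2), e (p.1 - p.2)) :=
    (he.continuous.comp (continuous_fst.add continuous_snd)).prodMk
      (he.continuous.comp (continuous_fst.sub continuous_snd))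
  have hO : IsOpen {p : (Fin k → ℝ) × (Fin k → ℝ) | (e (p.1 + p.2), e (p.1 - p.2)) ∈ G} :=
    hG.preimage hφc
  have hDO : D ×ˢ ({0} : Set (Fin k → ℝ)) ⊆
      {p : (Fin k → ℝ) × (Fin k → ℝ) | (e (p.1 + p.2), e (p.1 - p.2)) ∈ G} := by
    rintro ⟨m, v⟩ ⟨hm, hv⟩
    have hv' : v = 0 := hv
    subst hv'
    have hm' : (e m, e m) ∈ K := hm
    show (e (m + 0), e (m - 0)) ∈ G
    rw [add_zero, sub_zero]
    exact hKG hm'
  obtain ⟨δ, hδ, hδO⟩ := (hDc.prod isCompact_singleton).exists_cthickening_subset_open hO hDO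
  have hCc : IsCompact (Metric.cthickening δ D) := hDc.cthickening
  have hCG : ∀ m ∈ Metric.cthickening δ D, ∀ v : Fin k → ℝ, ‖v‖ ≤ δ →
      (e (m + v), e (m - v)) ∈ G := by
    intro m hm v hv
    rw [hDc.cthickening_eq_biUnion_closedBall hδ.le] at hm
    obtain ⟨m', hm', hmm⟩ := mem_iUnion₂.1 hm
    have h1 : (m, v) ∈ Metric.cthickening δ (D ×ˢ ({0} : Set (Fin k → ℝ))) := by
      refine Metric.mem_cthickening_of_dist_le (m, v) (m', 0) δ _ ⟨hm', rfl⟩ ?_
      rw [Prod.dist_eq]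
      refine max_le (Metric.mem_closedBall.1 hmm) ?_
      simpa [dist_zero_right] using hv
    exact hδO h1
  have hDint : D ⊆ interior (Metric.cthickening δ D) :=
    (Metric.self_subset_thickening hδ D).trans (Metric.thickening_subset_interior_cthickening δ D)
  -- the bad set
  obtain ⟨ρ, hρ, hρδ, hρB⟩ : ∃ ρ : ℝ, 0 < ρ ∧ ρ ≤ δ ∧ ∀ m ∈ Metric.cthickening δ D,
      m ∉ interior (Metric.cthickening δ D) → ∀ v : Fin k → ℝ, ‖v‖ ≤ ρ →
        (e (m + v), e (m - v)) ∉ K := by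
    set B : Set ((Fin k → ℝ) × (Fin k → ℝ)) :=
      ((Metric.cthickening δ D \ interior (Metric.cthickening δ D)) ×ˢ Metric.closedBall 0 δ) ∩
        {p | (e (p.1 + p.2), e (p.1 - p.2)) ∈ K} with hB
    have hBc : IsCompact B :=
      ((hCc.diff isOpen_interior).prod (isCompact_closedBall 0 δ)).inter_right
        (hKcl.preimage hφc)
    rcases B.eq_empty_or_nonempty with h0 | h0
    · refine ⟨δ, hδ, le_rfl, fun m hm hmi v hv hK' => ?_⟩
      have h1 : (m, v) ∈ B := ⟨⟨⟨hm, hmi⟩, by simpa using hv⟩, hK'⟩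
      rw [h0] at h1
      exact h1
    · obtain ⟨q, hq, hmin⟩ := hBc.exists_isMinOn h0
        (continuous_norm.comp continuous_snd).continuousOn
      have hq0 : 0 < ‖q.2‖ := by
        rw [norm_pos_iff]
        intro h2
        obtain ⟨⟨⟨hq1, hq2⟩, -⟩, hq3⟩ := hq
        have hq3' : (e (q.1 + q.2), e (q.1 - q.2)) ∈ K := hq3
        rw [h2, add_zero, sub_zero] at hq3'
        exact hq2 (hDint hq3')
      refine ⟨min δ (‖q.2‖ / 2), lt_min hδ (by linarith), min_le_left _ _, ?_⟩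
      intro m hm hmi v hv hK'
      have h1 : (m, v) ∈ B :=
        ⟨⟨⟨hm, hmi⟩, by simpa using hv.trans (min_le_left _ _)⟩, hK'⟩
      have h3 : ‖q.2‖ ≤ ‖v‖ := hmin h1
      have h4 : ‖v‖ ≤ ‖q.2‖ / 2 := hv.trans (min_le_right _ _)
      linarith
  have hρ0 : ρ ≠ 0 := hρ.ne'
  -- the linear homeomorphism
  let L : (Fin k → ℝ) × (Fin k → ℝ) ≃ₜ (Fin k → ℝ) × (Fin k → ℝ) :=
    { toFun := fun p => (p.1 + ρ • p.2, p.1 - ρ • p.2)
      invFun := fun q => ((1 / 2 : ℝ) • (q.1 + q.2), (1 / (2 * ρ)) • (q.1 - q.2))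
      left_inv := by
        rintro ⟨m, v⟩
        refine Prod.ext ?_ ?_
        · ext i
          simp only [Pi.smul_apply, Pi.add_apply, Pi.sub_apply, smul_eq_mul]
          ring
        · ext i
          simp only [Pi.smul_apply, Pi.add_apply, Pi.sub_apply, smul_eq_mul]
          field_simp
          ring
      right_inv := by
        rintro ⟨m, v⟩
        refine Prod.ext ?_ ?_
        · ext i
          simp only [Pi.smul_apply, Pi.add_apply, Pi.sub_apply, smul_eq_mul]
          field_simp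
          ring
        · ext i
          simp only [Pi.smul_apply, Pi.add_apply, Pi.sub_apply, smul_eq_mul]
          field_simp
          ring
      continuous_toFun := by fun_prop
      continuous_invFun := by fun_prop }
  refine ⟨Metric.cthickening δ D, fun p => (e (p.1 + ρ • p.2), e (p.1 - ρ • p.2)), hCc, ?_, ?_, ?_,
    ?_, ?_, ?_⟩
  · exact (he.prodMap he).comp L.isOpenEmbedding
  · rintro ⟨m, v⟩
    simp [smul_neg, sub_eq_add_neg]
  · rintro ⟨m, v⟩
    simp only
    constructor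
    · intro h
      have h1 : m + ρ • v = m - ρ • v := he.injective h
      have h2 : (2 * ρ) • v = 0 := by
        have h3 : m + ρ • v - (m - ρ • v) = 0 := sub_eq_zero.2 h1
        rw [← h3]
        ext i
        simp only [Pi.smul_apply, Pi.add_apply, Pi.sub_apply, smul_eq_mul]
        ring
      exact (smul_eq_zero.1 h2).resolve_left (mul_ne_zero two_ne_zero hρ0)
    · rintro rfl
      simp
  · intro m hm v hv
    refine hCG m hm (ρ • v) ?_
    rw [norm_smul, Real.norm_of_nonneg hρ.le]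
    calc ρ * ‖v‖ ≤ ρ * 1 := mul_le_mul_of_nonneg_left hv hρ.le
      _ ≤ δ := by linarith
  · intro m hm hmi v hv
    refine hρB m hm hmi (ρ • v) ?_
    rw [norm_smul, Real.norm_of_nonneg hρ.le]
    calc ρ * ‖v‖ ≤ ρ * 1 := mul_le_mul_of_nonneg_left hv hρ.le
      _ = ρ := mul_one ρ
  · intro x hx
    obtain ⟨m, rfl⟩ := hSr hx
    exact ⟨m, hDint hx, by simp⟩

end Pool.Agent.Work.MP_6d5d4b_gt.FP
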