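import Pool.Agent.Work.MP_6d5d4b_gt.FP.CuL
import Pool.Agent.Work.MP_6d5d4b_gt.FP.G3

set_option autoImplicit false

/-!
# FP/G4a (size M): symmetrization near the diagonal (the local step of `ua_G`)

This module is the purely local part: `κ : E → Y` is an open embedding, `E = (Fin k → ℝ) × (Fin k → ℝ)`, `neg p = (p.1, -p.2)`, `T : Y → Y` with `κ ∘ neg = T ∘ κ`; `T` continuous. `w` is a cochain of degree `n + 1` of `Y`; `K ⊆ Y` closed.
`w' t = w (κ ∘ t)` if all entries of `t` have `‖(t i).2‖ < 1`, `0` otherwise.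
PROOF of `sym_w`: (1) near `(m, v)` with `‖v‖ < 1` we have `w' = pb κ w`; if moreover `ε ≤ ‖v‖`, `m ∈ C`, then `w` is zero near `κ (m, v)` by `hw1`, so `pb κ w` is zero near `(m, v)`. At `‖v‖ = 1` the values of `w'` near `(m, v)` are `0` or values of
`pb κ w`, which is zero near `(m, v)` by `hw1`. At `‖v‖ > 1` `w'` is zero near the point. (2) `dd one w'`: near `(m, v)`, `‖v‖ < 1`, it is `pb κ (dd one w)`; for `‖v‖ ≥ 1` see (1) and `LZ.dd`.
PROOF of `sym_glue`: `ψ̂ t = ψ (κ⁻¹ ∘ t)` if all entries of `t` are in `N = κ '' (interior C ×ˢ ball 0 (1/2))`, `0` otherwise (`κ⁻¹` = a left inverse, e.g. `Function.invFun`, continuous at the points of `range κ` as `κ` is an open embedding).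
Let `p ∈ K`. (a) `p ∈ N`, `p = κ (m, v)`: `N` is open and `T`-invariant, near `p` all entries of tuples are in `N` and the identity is the pull back by `κ⁻¹` of `h` at `(m, v)` (`w' ∘ κ⁻¹ = w`, `pb neg w' ∘ κ⁻¹ = pb T w` there, also for the faces).
(b) `p ∉ N`: by `hK1` `w` and `pb T w` are zero near `p`. `ψ̂` is zero near `p`: clear if `p ∉ closure N`; otherwise `p = κ (m, v)`, `m ∈ C`, `‖v‖ ≤ 1/2` (`closure N` is contained in the compact set `κ '' (C ×ˢ closedBall 0 (1/2))`);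
`m ∈ interior C` by `hfr`; so `‖v‖ = 1/2` as `p ∉ N`, hence `ψ` is zero near `(m, v)` (`2 ε ≤ 1/2`) and `ψ̂ t` is `0` or `ψ (κ⁻¹ ∘ t)`.
-/

open Topology Filter Set PoolFbd

namespace Pool.Agent.Work.MP_6d5d4b_gt.FP

open Classical in
noncomputable def wloc {k n : ℕ} {Y : Type} (κ : (Fin k → ℝ) × (Fin k → ℝ) → Y) (w : Coch Y ℚ n) :
    Coch ((Fin k → ℝ) × (Fin k → ℝ)) ℚ n :=
  fun t => if ∀ i, ‖(t i).2‖ < 1 then w (fun i => κ (t i)) else 0

private theorem wloc_zero {k n : ℕ} {Y : Type} [TopologicalSpace Y] {κ : (Fin k → ℝ) × (Fin k → ℝ) → Y}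
    (hκ : IsOpenEmbedding κ) {C : Set (Fin k → ℝ)} {ε : ℝ} {w : Coch Y ℚ n}
    (hw1 : LZ (κ '' (C ×ˢ {v | ε ≤ ‖v‖ ∧ ‖v‖ ≤ 1})) w) (p : (Fin k → ℝ) × (Fin k → ℝ))
    (hp : p.1 ∈ C) (hv : ε ≤ ‖p.2‖) : ZeroAt (wloc κ w) p := by
  rcases le_or_gt ‖p.2‖ 1 with h1 | h1
  · have h2 : ZeroAt w (κ p) := hw1 (κ p) ⟨p, ⟨hp, hv, h1⟩, rfl⟩
    have h3 := (tendsto_pb (n := n + 1) hκ.continuous.continuousAt (x := p)).eventually h2
    filter_upwards [h3] with t ht
    unfold wloc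
    split_ifs
    · exact ht
    · rfl
  · have h2 : ∀ᶠ q : (Fin k → ℝ) × (Fin k → ℝ) in 𝓝 p, 1 < ‖q.2‖ :=
      (continuous_snd.norm.continuousAt (x := p)).eventually (lt_mem_nhds h1)
    have h3 : ∀ᶠ t in 𝓝 (fun _ : Fin (n + 1) => p), 1 < ‖(t 0).2‖ :=
      ((continuous_apply (0 : Fin (n + 1))).tendsto (fun _ => p)).eventually h2
    filter_upwards [h3] with t ht
    unfold wloc
    rw [if_neg]
    intro h4
    exact absurd (h4 0) (not_lt.2 ht.le)

theorem sym_w {k n : ℕ} {Y : Type} [TopologicalSpace Y] {κ : (Fin k → ℝ) × (Fin k → ℝ) → Y}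
    (hκ : IsOpenEmbedding κ) {C : Set (Fin k → ℝ)} {ε : ℝ} (hε : ε ≤ 1 / 4) {w : Coch Y ℚ n}
    (hw : LZ univ (dd one w))
    (hw1 : LZ (κ '' (C ×ˢ {v | ε ≤ ‖v‖ ∧ ‖v‖ ≤ 1})) w) :
    LZ (C ×ˢ univ) (dd one (wloc κ w)) ∧ LZ (C ×ˢ {v | ε ≤ ‖v‖}) (wloc κ w) := by
  refine ⟨?_, fun p hp => wloc_zero hκ hw1 p hp.1 hp.2⟩
  intro p hp
  rcases lt_or_ge ‖p.2‖ 1 with h1 | h1
  · have h2 : ∀ᶠ q : (Fin k → ℝ) × (Fin k → ℝ) in 𝓝 p, ‖q.2‖ < 1 :=
      (continuous_snd.norm.continuousAt (x := p)).eventually (gt_mem_nhds h1)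
    have h3 : ∀ᶠ t in 𝓝 (fun _ : Fin (n + 1 + 1) => p), ∀ i, ‖(t i).2‖ < 1 := by
      rw [eventually_all]
      exact fun i => ((continuous_apply i).tendsto (fun _ => p)).eventually h2
    have h4 := (tendsto_pb (n := n + 1 + 1) hκ.continuous.continuousAt (x := p)).eventually
      (hw (κ p) (mem_univ _))
    filter_upwards [h3, h4] with t ht ht'
    have h5 : ∀ f : Fin (n + 1) → Fin (n + 1 + 1),
        wloc κ w (fun j => t (f j)) = w (fun j => κ (t (f j))) := by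
      intro f
      unfold wloc
      rw [if_pos fun i => ht (f i)]
    rw [← ht']
    show one (t 0) (t 1) • wloc κ w (fun j => t j.succ) +
      ∑ i : Fin (n + 1), (-1 : ℤ) ^ ((i : ℕ) + 1) • wloc κ w (fun j => t (i.succ.succAbove j)) = _
    rw [h5 (fun j => j.succ)]
    simp only [fun i : Fin (n + 1) => h5 (fun j => i.succ.succAbove j)]
    rfl
  · exact (wloc_zero hκ hw1 p hp.1 (by linarith)).dd _

theorem sym_glue {k n : ℕ} {Y : Type} [TopologicalSpace Y] [T2Space Y] {κ : (Fin k → ℝ) × (Fin k → ℝ) → Y}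
    (hκ : IsOpenEmbedding κ) {T : Y → Y} (hT : Continuous T) (hκT : ∀ p, κ (p.1, -p.2) = T (κ p))
    {C : Set (Fin k → ℝ)} (hC : IsCompact C) {ε : ℝ} (hε : ε ≤ 1 / 4) {K : Set Y}
    (hfr : ∀ m ∈ C, m ∉ interior C → ∀ v : Fin k → ℝ, ‖v‖ ≤ 1 → κ (m, v) ∉ K)
    {w : Coch Y ℚ (n + 1)}
    (hK1 : ∀ p ∈ K, p ∉ κ '' (interior C ×ˢ Metric.ball 0 (1 / 2)) → ZeroAt w p ∧ ZeroAt w (T p))
    {ψ : Coch ((Fin k → ℝ) × (Fin k → ℝ)) ℚ n} (hψ : LZ (C ×ˢ {v | 2 * ε ≤ ‖v‖ ∧ ‖v‖ ≤ 1}) ψ)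
    (h : LZ (C ×ˢ Metric.closedBall 0 1) (wloc κ w -
      (-1 : ℚ) ^ k • pb (fun p : (Fin k → ℝ) × (Fin k → ℝ) => (p.1, -p.2)) (wloc κ w) - dd one ψ)) :
    Cob one K ∅ (w - (-1 : ℚ) ^ k • pb T w) := by
  classical
  set N : Set Y := κ '' (interior C ×ˢ Metric.ball 0 (1 / 2)) with hN
  have hNo : IsOpen N := hκ.isOpenMap _ (isOpen_interior.prod Metric.isOpen_ball)
  set inv : Y → (Fin k → ℝ) × (Fin k → ℝ) := Function.invFun κ with hinv
  have hli : ∀ p, inv (κ p) = p := Function.leftInverse_invFun hκ.injective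
  have hic : ∀ p, ContinuousAt inv (κ p) := by
    intro p
    show Tendsto inv (𝓝 (κ p)) (𝓝 (inv (κ p)))
    rw [hli p, ← hκ.map_nhds_eq p, tendsto_map'_iff]
    have h1 : inv ∘ κ = id := funext hli
    rw [h1]
    exact tendsto_id
  set ψ' : Coch Y ℚ n := fun t => if ∀ i, t i ∈ N then ψ (fun i => inv (t i)) else 0 with hψ'
  have hpb : ∀ p : (Fin k → ℝ) × (Fin k → ℝ), ∀ m : ℕ,
      Tendsto (fun (t : Fin m → Y) (j : Fin m) => inv (t j)) (𝓝 fun _ => κ p) (𝓝 fun _ => p) := by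
    intro p m
    have h1 := tendsto_pb (n := m) (hic p)
    rwa [hli p] at h1
  refine ⟨ψ', LZ.empty _, ?_⟩
  intro p hp
  by_cases hpN : p ∈ N
  · obtain ⟨q, ⟨hq1, hq2⟩, rfl⟩ := hpN
    have hq3 : q ∈ C ×ˢ Metric.closedBall (0 : Fin k → ℝ) 1 := by
      refine ⟨interior_subset hq1, Metric.ball_subset_closedBall ?_⟩
      exact Metric.ball_subset_ball (by norm_num) hq2
    have h1 := (hpb q (n + 1 + 1)).eventually (h q hq3)
    have h2 : ∀ᶠ t in 𝓝 (fun _ : Fin (n + 1 + 1) => κ q), ∀ i, t i ∈ N := by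
      rw [eventually_all]
      exact fun i => ((continuous_apply i).tendsto (fun _ => κ q)).eventually
        (hNo.mem_nhds ⟨q, ⟨hq1, hq2⟩, rfl⟩)
    filter_upwards [h1, h2] with t ht ht'
    have h3 : ∀ i, κ (inv (t i)) = t i ∧ ‖(inv (t i)).2‖ < 1 := by
      intro i
      obtain ⟨s, ⟨hs1, hs2⟩, hs3⟩ := ht' i
      rw [← hs3, hli s]
      refine ⟨rfl, ?_⟩
      have h4 : ‖s.2‖ < 1 / 2 := by simpa using hs2
      linarith
    have h5 : ∀ f : Fin (n + 1) → Fin (n + 1 + 1),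
        ψ' (fun j => t (f j)) = ψ (fun j => inv (t (f j))) := by
      intro f
      rw [hψ']
      exact if_pos fun i => ht' (f i)
    have h6 : wloc κ w (fun j => inv (t j)) = w t := by
      unfold wloc
      rw [if_pos fun i => (h3 i).2]
      exact congrArg w (funext fun i => (h3 i).1)
    have h7 : wloc κ w (fun j => ((inv (t j)).1, -(inv (t j)).2)) = w (fun j => T (t j)) := by
      unfold wloc
      rw [if_pos fun i => by
        show ‖-(inv (t i)).2‖ < 1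
        rw [norm_neg]
        exact (h3 i).2]
      refine congrArg w (funext fun i => ?_)
      show κ ((inv (t i)).1, -(inv (t i)).2) = _
      rw [hκT, (h3 i).1]
    have h8 : dd one ψ' t = dd one ψ (fun j => inv (t j)) := by
      show one (t 0) (t 1) • ψ' (fun j => t j.succ) +
        ∑ i : Fin (n + 1), (-1 : ℤ) ^ ((i : ℕ) + 1) • ψ' (fun j => t (i.succ.succAbove j)) = _
      rw [h5 (fun j => j.succ)]
      simp only [fun i : Fin (n + 1) => h5 (fun j => i.succ.succAbove j)]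
      rfl
    have h9 : wloc κ w (fun j => inv (t j)) - (-1 : ℚ) ^ k *
        wloc κ w (fun j => ((inv (t j)).1, -(inv (t j)).2)) -
        dd one ψ (fun j => inv (t j)) = 0 := ht
    rw [h6, h7, ← h8] at h9
    exact h9
  · obtain ⟨h1, h2⟩ := hK1 p hp hpN
    have h3 : ZeroAt ψ' p := by
      by_cases hcl : p ∈ closure N
      · have h4 : IsCompact (κ '' (C ×ˢ Metric.closedBall (0 : Fin k → ℝ) (1 / 2))) :=
          (hC.prod (isCompact_closedBall 0 _)).image hκ.continuous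
        have h5 : N ⊆ κ '' (C ×ˢ Metric.closedBall (0 : Fin k → ℝ) (1 / 2)) :=
          image_mono (prod_mono interior_subset Metric.ball_subset_closedBall)
        obtain ⟨q, ⟨hq1, hq2⟩, rfl⟩ := closure_minimal h5 h4.isClosed hcl
        have hq3 : ‖q.2‖ ≤ 1 / 2 := by simpa using hq2
        have hq4 : q.1 ∈ interior C := by
          by_contra hq5
          exact hfr q.1 hq1 hq5 q.2 (by linarith) hp
        have hq6 : 1 / 2 ≤ ‖q.2‖ := by
          by_contra hq7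
          refine hpN ⟨q, ⟨hq4, ?_⟩, rfl⟩
          simpa using not_le.1 hq7
        have h6 : ZeroAt ψ q := hψ q ⟨hq1, by
          show 2 * ε ≤ ‖q.2‖
          linarith, by linarith⟩
        have h7 := (hpb q (n + 1)).eventually h6
        filter_upwards [h7] with t ht
        rw [hψ']
        show (if ∀ i, t i ∈ N then ψ (fun i => inv (t i)) else 0) = 0
        split_ifs
        · exact ht
        · rfl
      · have h4 : ∀ᶠ t in 𝓝 (fun _ : Fin (n + 1) => p), t 0 ∈ (closure N)ᶜ :=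
          ((continuous_apply (0 : Fin (n + 1))).tendsto (fun _ => p)).eventually
            (isClosed_closure.isOpen_compl.mem_nhds hcl)
        filter_upwards [h4] with t ht
        rw [hψ']
        exact if_neg fun h5 => ht (subset_closure (h5 0))
    have h4 : ZeroAt (dd one ψ') p := h3.dd _
    have h5 : ∀ᶠ t in 𝓝 (fun _ : Fin (n + 1 + 1) => p), w (fun j => T (t j)) = 0 :=
      (tendsto_pb hT.continuousAt).eventually h2
    filter_upwards [h1, h4, h5] with t a b c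
    show w t - (-1 : ℚ) ^ k * w (fun j => T (t j)) - dd one ψ' t = 0
    rw [a, b, c]
    ring

end Pool.Agent.Work.MP_6d5d4b_gt.FP
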