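import Pool.Agent.Work.MP_6d5d4b_gt.FP.IoD
import Pool.Agent.Work.MP_6d5d4b_gt.FP.Chart

set_option autoImplicit false

/-!
# FP/NLI (size S-M): a map of the sphere `X k` to `ℝ^k` is not locally injective

PROOF. Suppose every `z` has a neighbourhood on which `f` is injective. Then `range f` is open: let `p : X k`; `X k` is infinite (`k ≥ 1`), take `z ≠ p` and `chart z`: `e` open embedding, `p = e x`. `f ∘ e` is continuous and injective on a closed ball about `x`,
`iod` gives that `f p` is interior to `f '' (..) ⊆ range f`. `range f` is also compact, hence closed, and nonempty; `Fin k → ℝ` is connected, so `range f = univ` is compact, a contradiction (`k ≥ 1`, `NoncompactSpace`).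
-/

open Topology Filter Set PoolFbd

namespace Pool.Agent.Work.MP_6d5d4b_gt.FP

theorem not_locally_injective {k : ℕ} (hk : 1 ≤ k) {f : X k → (Fin k → ℝ)} (hf : Continuous f) :
    ∃ z : X k, ∀ U ∈ 𝓝 z, ¬ InjOn f U := by
  by_contra hcon
  push Not at hcon
  have hop : IsOpen (range f) := by
    rw [isOpen_iff_mem_nhds]
    rintro _ ⟨p, rfl⟩
    obtain ⟨U, hU, hi⟩ := hcon p
    obtain ⟨z, hz⟩ : ∃ z : X k, z ≠ p := ⟨-p, (ne_neg_of_mem_sphere ℝ one_ne_zero p).symm⟩
    obtain ⟨e, he, hr⟩ := chart hk z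
    have hp : p ∈ range e := by
      rw [hr]
      exact fun h => hz (mem_singleton_iff.1 h).symm
    obtain ⟨x, rfl⟩ := hp
    have hx : e ⁻¹' U ∈ 𝓝 x := he.continuous.continuousAt hU
    obtain ⟨r, hr0, hrU⟩ := Metric.nhds_basis_closedBall.mem_iff.1 hx
    have h := iod hk hr0 (f := f ∘ e) ((hf.comp he.continuous).continuousOn)
      (hi.comp he.injective.injOn hrU)
    rw [mem_interior_iff_mem_nhds] at h
    refine mem_of_superset h ?_
    rintro _ ⟨y, _, rfl⟩
    exact ⟨_, rfl⟩
  haveI : Nonempty (X k) := ⟨bp k⟩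
  have hcomp : IsCompact (range f) := isCompact_range hf
  have hcl : IsClosed (range f) := hcomp.isClosed
  have hne : (range f).Nonempty := range_nonempty f
  have huniv : range f = univ := IsClopen.eq_univ ⟨hcl, hop⟩ hne
  haveI : Nonempty (Fin k) := ⟨⟨0, hk⟩⟩
  exact noncompact_univ (Fin k → ℝ) (huniv ▸ hcomp)

end Pool.Agent.Work.MP_6d5d4b_gt.FP
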