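import Pool.Agent.Work.MP_6d5d4b_gt.FP.U1
import Pool.Agent.Work.MP_6d5d4b_gt.FP.Ctr

set_option autoImplicit false

/-!
# FP/U2 (size S-M): `ua` is exact near compact sets of pairs not differing in the last coordinate only

PROOF. `pole = (0, …, 0, 1)`. `Ψ p = nrm (F p.1 - F p.2)`; for `p ∈ K` the vector `F p.1 - F p.2` has a nonzero coordinate with index `< k`, so `Ψ p ≠ pole`, `p.1 ≠ p.2`, `Ψ` is continuous at `p`. `K' = Ψ '' K` is compact and does not contain the pole.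
`exact_of_contr` for `K'` (`S' = univ`) with `H s x = nrm ((1 - s) • x.1 - s • pole)`: the vector is nonzero for `x ≠ pole`, `s ∈ [0,1]` (`(1 - s) x = s pole` with norms `1` gives `s = 1/2`, `x = pole`), `H 0 x = x` (`nrm_sph`), `H 1 x = nrm (- pole)` for
all `x`; `k = n + 1`. So `Cob one K' ∅ (aq k)`, hence `Cob one K ∅ (pb Ψ (aq k))` (`Cob.pb`), and `ua_psi` gives the claim (`ua k = (ua k - r • ..) + r • ..`; `Cob` is stable under `r •`: primitive `r • ψ`).
-/

open Topology Filter Set PoolFbd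

namespace Pool.Agent.Work.MP_6d5d4b_gt.FP

private theorem u2_dd_smul {E : Type} {n : ℕ} (r : ℚ) (φ : Coch E ℚ n) :
    dd one (r • φ) = r • dd one φ := by
  funext t
  simp only [dd, one, one_smul, Pi.smul_apply, smul_add, Finset.smul_sum]
  congr 1
  refine Finset.sum_congr rfl fun i _ => ?_
  rw [smul_comm]

private theorem u2_LZ_smul {E : Type} [TopologicalSpace E] {S : Set E} {n : ℕ} (r : ℚ)
    {φ : Coch E ℚ n} (h : LZ S φ) : LZ S (r • φ) := fun x hx => by
  filter_upwards [h x hx] with t a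
  rw [Pi.smul_apply, a, smul_zero]

private theorem u2_smul {E : Type} [TopologicalSpace E] {S Z : Set E} {n : ℕ} (r : ℚ)
    {φ : Coch E ℚ n} (h : Cob one S Z φ) : Cob one S Z (r • φ) := by
  cases n with
  | zero => exact u2_LZ_smul r h
  | succ n =>
    obtain ⟨ψ, a, b⟩ := h
    refine ⟨r • ψ, u2_LZ_smul r a, ?_⟩
    rw [u2_dd_smul, ← smul_sub]
    exact u2_LZ_smul r b

theorem ua_W {k : ℕ} (hk : 1 ≤ k) {F : X k → (Fin (k + 1) → ℝ)} (hF : Continuous F)
    (hi : Function.Injective F) {K : Set (X k × X k)} (hK : IsCompact K)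
    (h : ∀ p ∈ K, ∃ i : Fin k, F p.1 i.castSucc ≠ F p.2 i.castSucc) : Cob one K ∅ (ua k) := by
  obtain ⟨n, rfl⟩ : ∃ n, k = n + 1 := ⟨k - 1, by omega⟩
  obtain ⟨r, hr⟩ := ua_psi hk hF hi
  have hne : ∀ p ∈ K, p.1 ≠ p.2 := by
    intro p hp heq
    obtain ⟨i, hi'⟩ := h p hp
    exact hi' (by rw [heq])
  have hsub : ∀ p ∈ K, F p.1 - F p.2 ≠ 0 := by
    intro p hp heq
    obtain ⟨i, hi'⟩ := h p hp
    have := congrFun heq i.castSucc
    exact hi' (sub_eq_zero.1 this)
  obtain ⟨Ψ, hΨ⟩ : ∃ Ψ : X (n + 1) × X (n + 1) → X (n + 1), Ψ = fun p => nrm (F p.1 - F p.2) :=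
    ⟨_, rfl⟩
  have hΨc : ∀ p ∈ K, ContinuousAt Ψ p := by
    intro p hp
    rw [hΨ]
    have h1 : Continuous fun p : X (n + 1) × X (n + 1) => F p.1 - F p.2 :=
      (hF.comp continuous_fst).sub (hF.comp continuous_snd)
    exact ContinuousAt.comp (f := fun p : X (n + 1) × X (n + 1) => F p.1 - F p.2) (x := p)
      (nrm_cont (hsub p hp)) h1.continuousAt
  have hK' : IsCompact (Ψ '' K) :=
    hK.image_of_continuousOn fun p hp => (hΨc p hp).continuousWithinAt
  have hx : ∀ x ∈ Ψ '' K, ∃ i : Fin (n + 1), x.1 i.castSucc ≠ 0 := by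
    rintro x ⟨p, hp, rfl⟩
    obtain ⟨i, hi'⟩ := h p hp
    refine ⟨i, ?_⟩
    rw [hΨ]
    show (nrm (F p.1 - F p.2) : X (n + 1)).1 i.castSucc ≠ 0
    rw [nrm_val (hsub p hp), Pi.smul_apply, smul_eq_mul]
    exact mul_ne_zero (inv_ne_zero (norm_ne_zero_iff.2 (hsub p hp))) (sub_ne_zero.2 hi')
  obtain ⟨v, hv⟩ : ∃ v : ℝ → X (n + 1) → (Fin (n + 1 + 1) → ℝ), v = fun s x =>
      (1 - s) • x.1 - s • (Pi.single (Fin.last (n + 1)) (1 : ℝ)) := ⟨_, rfl⟩
  have hvne : ∀ s ∈ Icc (0 : ℝ) 1, ∀ x ∈ Ψ '' K, v s x ≠ 0 := by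
    intro s _ x hxK h0
    obtain ⟨i, hi'⟩ := hx x hxK
    have h1 := congrFun h0 i.castSucc
    have h2 := congrFun h0 (Fin.last (n + 1))
    rw [hv] at h1 h2
    simp only [Pi.sub_apply, Pi.smul_apply, smul_eq_mul, Pi.zero_apply] at h1 h2
    have h3 : (Pi.single (Fin.last (n + 1)) (1 : ℝ) : Fin (n + 1 + 1) → ℝ) i.castSucc = 0 :=
      Pi.single_eq_of_ne (Fin.castSucc_lt_last i).ne _
    rw [h3, mul_zero, sub_zero] at h1
    have h4 : s = 1 := by
      rcases mul_eq_zero.1 h1 with h4 | h4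
      · linarith
      · exact absurd h4 hi'
    rw [h4, Pi.single_eq_same] at h2
    norm_num at h2
  have hvc : Continuous fun p : ℝ × X (n + 1) => v p.1 p.2 := by
    rw [hv]
    exact ((continuous_const.sub continuous_fst).smul
      (continuous_subtype_val.comp continuous_snd)).sub (continuous_fst.smul continuous_const)
  have hex : Cob one (Ψ '' K) ∅ (pb (fun x => (nrm (v 0 x) : X (n + 1))) (aq (n + 1))) := by
    refine exact_of_contr (S' := univ) hK' (fun s x => (nrm (v s x) : X (n + 1))) ?_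
      (fun _ _ _ _ => mem_univ _) (c := nrm (-(Pi.single (Fin.last (n + 1)) (1 : ℝ)))) ?_
      (aq_spec (n + 1)).1
    · intro s hs x hxK
      exact ContinuousAt.comp (f := fun p : ℝ × X (n + 1) => v p.1 p.2) (x := (s, x))
        (nrm_cont (hvne s hs x hxK)) hvc.continuousAt
    · intro x
      rw [hv]
      simp only [sub_self, zero_smul, one_smul, zero_sub]
  have h0 : (fun x => (nrm (v 0 x) : X (n + 1))) = id := by
    funext x
    rw [hv]
    simp only [sub_zero, one_smul, zero_smul]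
    exact nrm_sph x
  rw [h0] at hex
  have hex2 : Cob one (Ψ '' K) ∅ (aq (n + 1)) := hex
  have hex3 : Cob one K ∅ (pb Ψ (aq (n + 1))) :=
    hex2.pb (f := Ψ) (fun p hp => ⟨hΨc p hp, mem_image_of_mem _ hp⟩) (fun p hp => hp.elim)
  have h5 := (hr K hK hne).add (u2_smul r hex3)
  rw [hΨ, sub_add_cancel] at h5
  exact h5

end Pool.Agent.Work.MP_6d5d4b_gt.FP
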