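import Pool.Agent.Work.MP_6d5d4b_gt.FP.G2
import Pool.Agent.Work.MP_6d5d4b_gt.FP.G4a
import Pool.Agent.Work.MP_6d5d4b_gt.FP.U2
import Pool.Agent.Work.MP_6d5d4b_gt.FP.NLI

set_option autoImplicit false

/-!
# FP/G4 (size M): `ua` is exact near compact sets disjoint from `fol F`

PROOF. `G = (fol F)ᶜ` is open and invariant under the exchange `T = Prod.swap` (so is the set inside the closure in `fol`). `not_locally_injective` for `f x = fun i : Fin k => F x i.castSucc` gives `z` such that `f` is not injective on any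
neighbourhood of `z`, so `(z, z) ∈ fol F`, `(z, z) ∉ G`. Replace `K` by `K ∪ T '' K` (`Cob.mono`): `K` is compact and `T`-invariant. `tube` gives `C, κ`. `ε = 1/8`.
`K₁ = (K \ κ '' (interior C ×ˢ ball 0 ε)) ∪ κ '' (C ×ˢ {v | ε ≤ ‖v‖ ∧ ‖v‖ ≤ 1})` is compact, `T`-invariant, contained in `G`, and does not meet the diagonal (a diagonal point of `K` is `κ (m, 0)`, `m ∈ interior C`; the points of the second set have
distinct components as `v ≠ 0`). For `p ∈ K₁`: `p.1 ≠ p.2` and `p ∉ fol F`, so `F p.1`, `F p.2` differ in a coordinate `< k` (else `p ∈ fol F` by `subset_closure`). `ua_W`: `ua k = dd one v₁` near `K₁` (`k ≥ 1`: `k = n + 1`, `v₁` of degree `n`; `obtain`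
`⟨n, rfl⟩` with care, or generalize the degree). `w = ua k - dd one v₁`: `LZ K₁ w`, and `dd one w` is `LZ univ` (`ua k` is a cocycle near `univ`: `aq_spec`, `LZ.pb`; `LZ_dd_dd`). `sym_w` (`κ '' ... ⊆ K₁`), `neg_rel` with `M = Fin k → ℝ` for
`wloc κ w`: it gives `ψ` of degree `n`. `sym_glue` with `T = Prod.swap`; `hK1`: `p ∈ K`, `p ∉ κ '' (interior C ×ˢ ball 0 (1/2))` implies `p ∈ K₁` and `T p ∈ K₁`. So `Cob one K ∅ (w - (-1)^k • pb T w)`. As `pb T (ua k) = - (-1)^k • ua k` exactly,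
`w - (-1)^k • pb T w = 2 • ua k - dd one (v₁ - (-1)^k • pb T v₁)`. So `2 • ua k` and `ua k` are exact near `K`.
-/

open Topology Filter Set PoolFbd

namespace Pool.Agent.Work.MP_6d5d4b_gt.FP

private lemma g4_dd_smul {E : Type} {n : ℕ} (r : ℚ) (φ : Coch E ℚ n) :
    dd one (r • φ) = r • dd one φ := by
  funext t
  simp only [dd, one, one_smul, Pi.smul_apply, smul_add, Finset.smul_sum]
  congr 1
  refine Finset.sum_congr rfl fun i _ => ?_
  rw [smul_comm]

private lemma g4_LZ_smul {E : Type} [TopologicalSpace E] {S : Set E} {n : ℕ} (r : ℚ)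
    {φ : Coch E ℚ n} (h : LZ S φ) : LZ S (r • φ) := fun x hx => by
  filter_upwards [h x hx] with t a
  rw [Pi.smul_apply, a, smul_zero]

private lemma g4_ua_coc (k : ℕ) : LZ univ (dd one (ua k)) := by
  have h := (aq_spec k).1
  have h1 : LZ univ (dd one (pb Prod.fst (aq k) : Coch (X k × X k) ℚ k)) := by
    have : dd one (pb Prod.fst (aq k) : Coch (X k × X k) ℚ k) = pb Prod.fst (dd one (aq k)) := rfl
    rw [this]
    exact h.pb fun x _ => ⟨continuous_fst.continuousAt, mem_univ _⟩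
  have h2 : LZ univ (dd one (pb Prod.snd (aq k) : Coch (X k × X k) ℚ k)) := by
    have : dd one (pb Prod.snd (aq k) : Coch (X k × X k) ℚ k) = pb Prod.snd (dd one (aq k)) := rfl
    rw [this]
    exact h.pb fun x _ => ⟨continuous_snd.continuousAt, mem_univ _⟩
  unfold ua
  rw [dd_sub, g4_dd_smul]
  exact h1.sub (g4_LZ_smul _ h2)

private lemma g4_swap (k : ℕ) :
    (-1 : ℚ) ^ k • pb Prod.swap (ua k) = -ua k := by
  have h1 : (-1 : ℚ) ^ k * (-1 : ℚ) ^ k = 1 := by
    rw [← mul_pow]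
    norm_num
  have h2 : (pb Prod.swap (ua k) : Coch (X k × X k) ℚ k) =
      pb Prod.snd (aq k) - (-1 : ℚ) ^ k • pb Prod.fst (aq k) := rfl
  rw [h2, smul_sub, smul_smul, h1, one_smul]
  unfold ua
  abel

private lemma g4_fol {k : ℕ} (F : X k → Fin (k + 1) → ℝ) {p : X k × X k} (hp : p ∈ fol F) :
    p.swap ∈ fol F := by
  unfold fol at hp ⊢
  have h1 : (Prod.swap : X k × X k → X k × X k) '' {p | p.1 ≠ p.2 ∧ ∀ i : Fin k,
      F p.1 i.castSucc = F p.2 i.castSucc} ⊆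
      {p | p.1 ≠ p.2 ∧ ∀ i : Fin k, F p.1 i.castSucc = F p.2 i.castSucc} := by
    rintro _ ⟨q, ⟨hq1, hq2⟩, rfl⟩
    exact ⟨hq1.symm, fun i => (hq2 i).symm⟩
  have h2 := image_closure_subset_closure_image (f := (Prod.swap : X k × X k → X k × X k))
    continuous_swap (mem_image_of_mem _ hp)
  exact closure_mono h1 h2

theorem ua_G {k : ℕ} (hk : 1 ≤ k) {F : X k → (Fin (k + 1) → ℝ)} (hF : Continuous F)
    (hi : Function.Injective F) {K : Set (X k × X k)} (hK : IsCompact K) (h : Disjoint K (fol F)) :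
    Cob one K ∅ (ua k) := by
  have hG : IsOpen ((fol F)ᶜ) := by
    unfold fol
    exact isClosed_closure.isOpen_compl
  -- a diagonal point of the fold set
  obtain ⟨z, hz⟩ := not_locally_injective hk (f := fun x => fun i : Fin k => F x i.castSucc)
    (continuous_pi fun i => (continuous_apply _).comp hF)
  have hzf : (z, z) ∉ (fol F)ᶜ := by
    rw [notMem_compl_iff]
    unfold fol
    rw [mem_closure_iff_nhds]
    intro t ht
    rw [nhds_prod_eq, Filter.mem_prod_same_iff] at ht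
    obtain ⟨U, hU, hUt⟩ := ht
    have h1 := hz U hU
    simp only [InjOn, not_forall] at h1
    obtain ⟨x, hx, y, hy, hxy, hne⟩ := h1
    exact ⟨(x, y), hUt ⟨hx, hy⟩, hne, fun i => congrFun hxy i⟩
  -- symmetrize
  set K' : Set (X k × X k) := K ∪ Prod.swap '' K with hK'def
  have hK' : IsCompact K' := hK.union (hK.image continuous_swap)
  have hKsw : ∀ p ∈ K', p.swap ∈ K' := by
    rintro p (hp | ⟨q, hq, rfl⟩)
    · exact Or.inr ⟨p, hp, rfl⟩
    · exact Or.inl (by rw [Prod.swap_swap]; exact hq)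
  have hK'G : K' ⊆ (fol F)ᶜ := by
    rintro p (hp | ⟨q, hq, rfl⟩) hpf
    · exact disjoint_left.1 h hp hpf
    · have := g4_fol F hpf
      rw [Prod.swap_swap] at this
      exact disjoint_left.1 h hq this
  obtain ⟨C, κ, hC, hκ, hκT, hκd, hκG, hκfr, hκK⟩ := tube hk hG hzf hK' hK'G
  obtain ⟨n, rfl⟩ : ∃ n, k = n + 1 := ⟨k - 1, by omega⟩
  set ε : ℝ := 1 / 8 with hε
  set K₁ : Set (X (n + 1) × X (n + 1)) :=
    (K' \ κ '' (interior C ×ˢ Metric.ball 0 ε)) ∪ κ '' (C ×ˢ {v | ε ≤ ‖v‖ ∧ ‖v‖ ≤ 1}) with hK₁def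
  have hK₁ : IsCompact K₁ := by
    refine IsCompact.union (hK'.diff (hκ.isOpenMap _ (isOpen_interior.prod Metric.isOpen_ball))) ?_
    refine IsCompact.image (hC.prod ?_) hκ.continuous
    have e1 : {v : Fin (n + 1) → ℝ | ε ≤ ‖v‖ ∧ ‖v‖ ≤ 1} =
        Metric.closedBall 0 1 ∩ {v | ε ≤ ‖v‖} := by
      ext v
      simp only [mem_setOf_eq, mem_inter_iff, mem_closedBall_zero_iff]
      tauto
    rw [e1]
    exact (isCompact_closedBall _ _).inter_right (isClosed_le continuous_const continuous_norm)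
  have hK₁p : ∀ p ∈ K₁, p.1 ≠ p.2 ∧ p ∉ fol F := by
    rintro p (⟨hp, hp'⟩ | ⟨⟨m, v⟩, ⟨hm, hv1, hv2⟩, rfl⟩)
    · refine ⟨fun he => hp' ?_, hK'G hp⟩
      have e2 : (p.1, p.1) = p := by
        rw [Prod.ext_iff]
        exact ⟨rfl, he⟩
      obtain ⟨m, hm, hm'⟩ := hκK p.1 (by rw [e2]; exact hp)
      exact ⟨(m, 0), ⟨hm, Metric.mem_ball_self (by norm_num [hε])⟩, by rw [hm', e2]⟩
    · refine ⟨fun he => ?_, hκG m hm v hv2⟩
      have e3 : v = 0 := (hκd (m, v)).1 he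
      rw [e3, norm_zero] at hv1
      norm_num [hε] at hv1
  have hW := ua_W hk hF hi hK₁ (fun p hp => by
    by_contra hcon
    push Not at hcon
    exact (hK₁p p hp).2 (subset_closure ⟨(hK₁p p hp).1, hcon⟩))
  obtain ⟨v₁, -, hv₁⟩ := hW
  set w : Coch (X (n + 1) × X (n + 1)) ℚ (n + 1) := ua (n + 1) - dd one v₁ with hw
  have hcyc : LZ univ (dd one w) := by
    rw [hw, dd_sub]
    exact (g4_ua_coc (n + 1)).sub (LZ_dd_dd (IsTw.one univ) v₁)
  have hs := sym_w hκ (C := C) (ε := ε) (by norm_num [hε]) hcyc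
    (hv₁.mono subset_union_right)
  obtain ⟨ψ, hψ, hh⟩ := neg_rel hC (by norm_num [hε]) (by norm_num [hε]) hs.1 hs.2
  have hglue := sym_glue hκ (T := Prod.swap) continuous_swap hκT hC (ε := ε) (by norm_num [hε])
    (K := K') hκfr (w := w) (fun p hp hp' => by
      have hb : Metric.ball (0 : Fin (n + 1) → ℝ) ε ⊆ Metric.ball 0 (1 / 2) :=
        Metric.ball_subset_ball (by norm_num [hε])
      have q1 : p ∈ K₁ := Or.inl ⟨hp, fun hq => hp' (image_mono (prod_mono subset_rfl hb) hq)⟩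
      have q2 : p.swap ∈ K₁ := by
        refine Or.inl ⟨hKsw p hp, ?_⟩
        rintro ⟨⟨m, v⟩, ⟨hm, hv⟩, hmv⟩
        apply hp'
        refine ⟨(m, -v), ⟨hm, ?_⟩, ?_⟩
        · have : v ∈ Metric.ball (0 : Fin (n + 1) → ℝ) (1 / 2) := hb hv
          rw [mem_ball_zero_iff] at this ⊢
          simpa using this
        · have := hκT (m, v)
          rw [hmv, Prod.swap_swap] at this
          exact this
      exact ⟨hv₁ p q1, hv₁ _ q2⟩) hψ hh
  obtain ⟨χ, -, hχ⟩ := hglue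
  refine Cob.mono (S := K') (Z := ∅) subset_union_left (empty_subset _) ?_
  refine ⟨(1 / 2 : ℚ) • (χ + (v₁ - (-1 : ℚ) ^ (n + 1) • pb Prod.swap v₁)), LZ.empty _, ?_⟩
  have e4 : ua (n + 1) - dd one ((1 / 2 : ℚ) • (χ + (v₁ - (-1 : ℚ) ^ (n + 1) • pb Prod.swap v₁))) =
      (1 / 2 : ℚ) • (w - (-1 : ℚ) ^ (n + 1) • pb Prod.swap w - dd one χ) := by
    have e5 : pb Prod.swap w = pb Prod.swap (ua (n + 1)) - dd one (pb Prod.swap v₁) := rfl
    rw [g4_dd_smul, dd_add, dd_sub, g4_dd_smul, e5, smul_sub ((-1 : ℚ) ^ (n + 1)), g4_swap, hw]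
    module
  rw [e4]
  exact g4_LZ_smul _ hχ

end Pool.Agent.Work.MP_6d5d4b_gt.FP
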