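import Pool.Agent.Work.MP_6d5d4b_gt.FP.Chain
import Pool.Agent.Work.MP_6d5d4b_gt.FP.G4

set_option autoImplicit false

/-!
# FP/Fold (size S): the cyclic fold theorem

PROOF. `closed_chain` with `Z i = fol (F i)` (`isClosed_closure`) and `ua_G`.
-/

open Topology Filter Set PoolFbd

namespace Pool.Agent.Work.MP_6d5d4b_gt.FP

theorem fold {k N : ℕ} (hk : 1 ≤ k) (hpar : Even (N + 1 + k)) {F : ℕ → X k → (Fin (k + 1) → ℝ)}
    (hF : ∀ i, Continuous (F i)) (hi : ∀ i, Function.Injective (F i)) :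
    ∃ p : Fin (N + 1) → X k, ∀ i : Fin (N + 1), (p i, p (i + 1)) ∈ fol (F i) := by
  exact closed_chain hk hpar (Z := fun i => fol (F i)) (fun i => isClosed_closure)
    (fun i K hK h => ua_G hk (hF i) (hi i) hK h)

end Pool.Agent.Work.MP_6d5d4b_gt.FP
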