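import Pool.Agent.Work.MP_6d5d4b_gt.FP.Hty
import Pool.Agent.Work.MP_6d5d4b_gt.FP.CuL

set_option autoImplicit false

/-!
# FP/G1 (size L): reflections act by `-1` on classes supported on the zero section

NOTATION. `E = M × (Fin k → ℝ)`, `Ê = E × ℝ`, `r p = (p.1, update p.2 j (-p.2 j))`. `χ : ℝ → ℚ`, `χ y = 1` if `0 < y`, else `0`; `χ0 t = χ (t 0)` (0-cochain of `ℝ`), `e t = χ (t 1) - χ (t 0)`, so `e = dd one χ0` exactly, `e` is `LZ {y | y ≠ 0}`.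
`W = cu (pb fst w) (pb snd e)` (degree `n + 1`) on `Ê`: cocycle near `S' = {(m, v, y) | m ∈ C}`, and `LZ Z'`, `Z' = {(m, v, y) | m ∈ C, ε ≤ ‖v‖ ∨ y ≠ 0}` (`cu_left`, `cu_right`, `LZ.pb`, `dd_cu`).
STEP 1. `R θ` rotates the plane of the coordinates `(v_j, y)`: `v_j' = cos θ v_j - sin θ y`, `y' = sin θ v_j + cos θ y`; `ρ̂ (m, v, y) = (r (m, v), y)`; `H s = R (s π/2) ∘ ρ̂ ∘ R (-s π/2)`. `H 0 = ρ̂`, `H 1 (m, v, y) = (m, v, -y)`.
`S = {m ∈ C, ‖v‖ ≤ 1, |y| ≤ 1}` (compact), `Z = S ∩ {2 ε² ≤ v_j² + y² ∨ ∃ i ≠ j, ε ≤ |v_i|}` (compact). `H s` maps `S` to `S'` and `Z` to `Z'` (the rotation preserves `v_j² + y²`; `2 ε² ≤ v_j² + y²` implies `ε ≤ |v_j|` or `ε ≤ |y|`, `y ≠ 0`). `hty`: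
`Cob one S Z (pb ρ̂ W - pb (H 1) W)`. `pb ρ̂ W = cu (pb fst (pb r w)) (pb snd e)`. With `δ0 y = 1` if `y = 0`, else `0`: `χ (-y) = 1 - χ y - δ0 y`, so `pb (- ·) e = - e - dd one δ0`, and `pb (H 1) W = - W - cu (pb fst w) (pb snd (dd one δ0))`; the last cochain is
`± dd one (cu (pb fst w) (pb snd δ0))` up to `cu (dd w) ..`, which is `LZ S`, and `cu (pb fst w) (pb snd δ0)` is `LZ Z`. So with `b = w + pb r w`: `Cob one S Z (cu (pb fst b) (pb snd e))`: a cochain `c` of degree `n` with `LZ Z c`, `LZ S (cu b e - dd one c)`.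
STEP 2. `z = cu (pb fst b) (pb snd χ0) - (-1)^n • c` (degree `n`) satisfies `LZ S (dd one z)` (`dd_cu`; `dd one b` is zero near `C ×ˢ univ`). `z` is `LZ {(m,v,y) ∈ S | 2 ε ≤ ‖v‖}`: `b` is zero where `ε ≤ ‖v‖`, and such points are in `Z` (some `|v_i| ≥ 2ε`; for
`i = j`: `v_j² ≥ 4 ε²`). Slices: `pb (fun p => (p, 1)) z - b` is `LZ (C ×ˢ closedBall 0 1)` (`χ = 1` near `1`, `c` is zero near the points with `y = 1` since `1 ≥ 2 ε²`), and `pb (fun p => (p, -1)) z` is `LZ` there.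
`hty` on `E` with `H s p = (p, 1 - 2 s)`, `S₀ = C ×ˢ closedBall 0 1`, `Z₀ = C ×ˢ {2 ε ≤ ‖v‖ ≤ 1}`: `Cob one S₀ Z₀ (pb (·,1) z - pb (·,-1) z)`, hence `Cob one S₀ Z₀ b`: for `n ≥ 1` the primitive is kept and the error terms are `LZ S₀`;
for `n = 0` everything is `LZ S₀`.
-/

open Topology Filter Set PoolFbd

namespace Pool.Agent.Work.MP_6d5d4b_gt.FP

private noncomputable def g1chi (y : ℝ) : ℚ := open Classical in if 0 < y then 1 else 0

private noncomputable def g1del (y : ℝ) : ℚ := open Classical in if y = 0 then 1 else 0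

private noncomputable def g1x : Coch ℝ ℚ 0 := fun t => g1chi (t 0)

private noncomputable def g1d : Coch ℝ ℚ 0 := fun t => g1del (t 0)

private noncomputable def g1e : Coch ℝ ℚ 1 := fun t => g1chi (t 1) - g1chi (t 0)

private theorem g1_dd0 {E : Type} (ψ : Coch E ℚ 0) (t : Fin 2 → E) :
    dd one ψ t = ψ (fun _ => t 1) - ψ (fun _ => t 0) := by
  have e1 : (fun j : Fin 1 => t j.succ) = fun _ => t 1 := by
    funext j
    fin_cases j
    rfl
  have e2 : (fun j : Fin 1 => t ((0 : Fin 1).succ.succAbove j)) = fun _ => t 0 := by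
    funext j
    fin_cases j
    rfl
  show one (t 0) (t 1) • ψ (fun j : Fin 1 => t j.succ) +
    ∑ i : Fin 1, (-1 : ℤ) ^ ((i : ℕ) + 1) • ψ (fun j : Fin 1 => t (i.succ.succAbove j)) = _
  rw [Fin.sum_univ_one, e1, e2]
  simp [one]
  ring

private theorem g1_ddx : dd one g1x = g1e := by
  funext t
  rw [g1_dd0]
  rfl

private theorem g1_dde : dd one g1e = 0 := by
  rw [← g1_ddx]
  funext t
  exact dd_dd_apply one g1x t (by simp [one])

private theorem g1_chi_neg (y : ℝ) : g1chi (-y) = 1 - g1chi y - g1del y := by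
  unfold g1chi g1del
  rcases lt_trichotomy y 0 with h | h | h
  · rw [if_pos (by linarith), if_neg (by linarith), if_neg (by linarith)]
    ring
  · subst h
    simp
  · rw [if_neg (by linarith), if_pos h, if_neg h.ne']
    ring

private theorem g1_neg : pb (fun y : ℝ => -y) g1e = -g1e - dd one g1d := by
  funext t
  show g1chi (-t 1) - g1chi (-t 0) = -(g1chi (t 1) - g1chi (t 0)) - dd one g1d t
  rw [g1_dd0, g1_chi_neg, g1_chi_neg]
  show _ = _ - (g1del (t 1) - g1del (t 0))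
  ring

private theorem g1_chi_near {y : ℝ} (hy : y ≠ 0) : ∀ᶠ x in 𝓝 y, g1chi x = g1chi y := by
  rcases lt_or_gt_of_ne hy with h | h
  · filter_upwards [gt_mem_nhds h] with x hx
    unfold g1chi
    rw [if_neg (by linarith), if_neg (by linarith)]
  · filter_upwards [lt_mem_nhds h] with x hx
    unfold g1chi
    rw [if_pos hx, if_pos h]

private theorem g1_e_lz : LZ {y : ℝ | y ≠ 0} g1e := by
  intro y hy
  have h0 := ((continuous_apply (0 : Fin 2)).tendsto (fun _ : Fin 2 => y)).eventually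
    (g1_chi_near hy)
  have h1 := ((continuous_apply (1 : Fin 2)).tendsto (fun _ : Fin 2 => y)).eventually
    (g1_chi_near hy)
  filter_upwards [h0, h1] with t a b
  show g1chi (t 1) - g1chi (t 0) = 0
  rw [a, b, sub_self]

private theorem g1_d_lz : LZ {y : ℝ | y ≠ 0} g1d := by
  intro y hy
  have h0 := ((continuous_apply (0 : Fin 1)).tendsto (fun _ : Fin 1 => y)).eventually
    (isOpen_ne.mem_nhds hy)
  filter_upwards [h0] with t a
  show g1del (t 0) = 0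
  unfold g1del
  exact if_neg a

private theorem g1_lz_smul {E : Type} [TopologicalSpace E] {S : Set E} {m : ℕ} {φ : Coch E ℚ m}
    (h : LZ S φ) (z : ℤ) : LZ S (z • φ) := fun x hx => by
  filter_upwards [h x hx] with t a
  show z • φ t = 0
  rw [a, smul_zero]

private theorem g1_dd_smul {E : Type} {m : ℕ} (z : ℤ) (φ : Coch E ℚ m) :
    dd one (z • φ) = z • dd one φ := by
  funext t
  simp only [dd, Pi.smul_apply, smul_add, Finset.smul_sum, one, one_smul]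
  congr 1
  refine Finset.sum_congr rfl fun i _ => ?_
  exact smul_comm _ _ _

private theorem g1_cu_zero {E : Type} {q p m : ℕ} (h : q + p = m) (c : Coch E ℚ q) :
    cu h c (0 : Coch E ℚ p) = 0 := by
  funext t
  rw [cu_apply]
  show _ * (0 : ℚ) = 0
  rw [mul_zero]

private theorem g1_sq (m : ℕ) : ((-1 : ℤ) ^ m) * ((-1 : ℤ) ^ m) = 1 := by
  rw [← mul_pow]
  norm_num

variable {M : Type} [MetricSpace M] {C : Set M} {k n : ℕ} {ε : ℝ}

private def g1r (j : Fin k) (p : M × (Fin k → ℝ)) : M × (Fin k → ℝ) :=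
  (p.1, Function.update p.2 j (-p.2 j))

private theorem g1r_cont (j : Fin k) : Continuous (g1r (M := M) j) :=
  continuous_fst.prodMk (continuous_snd.update j ((continuous_apply j).comp continuous_snd).neg)

private theorem g1r_norm (j : Fin k) (v : Fin k → ℝ) : ‖Function.update v j (-v j)‖ = ‖v‖ := by
  rw [Pi.norm_def, Pi.norm_def]
  congr 2
  funext i
  by_cases h : i = j
  · subst h
    rw [Function.update_self, nnnorm_neg]
  · rw [Function.update_of_ne h]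

private noncomputable def g1H (j : Fin k) (s : ℝ) (q : (M × (Fin k → ℝ)) × ℝ) :
    (M × (Fin k → ℝ)) × ℝ :=
  ((q.1.1, Function.update q.1.2 j
    (-(Real.cos (s * Real.pi) * q.1.2 j) - Real.sin (s * Real.pi) * q.2)),
    -(Real.sin (s * Real.pi) * q.1.2 j) + Real.cos (s * Real.pi) * q.2)

private theorem g1H_zero (j : Fin k) :
    (g1H (M := M) j 0) = fun q => (g1r j q.1, q.2) := by
  funext q
  unfold g1H g1r
  simp

private theorem g1H_one (j : Fin k) :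
    (g1H (M := M) j 1) = fun q => (q.1, -q.2) := by
  funext q
  unfold g1H
  simp

private theorem g1H_cont (j : Fin k) :
    Continuous (fun p : ℝ × ((M × (Fin k → ℝ)) × ℝ) => g1H j p.1 p.2) := by
  unfold g1H
  refine Continuous.prodMk (Continuous.prodMk (by fun_prop) ?_) (by fun_prop)
  exact Continuous.update (by fun_prop) j (by fun_prop)

private def g1S (C : Set M) (k : ℕ) : Set ((M × (Fin k → ℝ)) × ℝ) :=
  (C ×ˢ Metric.closedBall 0 1) ×ˢ Icc (-1) 1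

private def g1Z (C : Set M) (ε : ℝ) (j : Fin k) : Set ((M × (Fin k → ℝ)) × ℝ) :=
  g1S C k ∩ {q | 2 * ε ^ 2 ≤ (q.1.2 j) ^ 2 + q.2 ^ 2 ∨ ∃ i, i ≠ j ∧ ε ≤ |q.1.2 i|}

private theorem g1S_compact (hC : IsCompact C) : IsCompact (g1S C k) :=
  (hC.prod (isCompact_closedBall 0 1)).prod isCompact_Icc

private theorem g1Z_compact (hC : IsCompact C) (j : Fin k) : IsCompact (g1Z C ε j) := by
  refine (g1S_compact hC).inter_right ?_
  have e : {q : (M × (Fin k → ℝ)) × ℝ |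
      2 * ε ^ 2 ≤ (q.1.2 j) ^ 2 + q.2 ^ 2 ∨ ∃ i, i ≠ j ∧ ε ≤ |q.1.2 i|} =
      {q | 2 * ε ^ 2 ≤ (q.1.2 j) ^ 2 + q.2 ^ 2} ∪ ⋃ i : Fin k, {q | i ≠ j ∧ ε ≤ |q.1.2 i|} := by
    ext q
    simp only [mem_setOf_eq, mem_union, mem_iUnion]
  rw [e]
  refine IsClosed.union (isClosed_le (by fun_prop) (by fun_prop)) ?_
  refine isClosed_iUnion_of_finite fun i => ?_
  by_cases h : i = j
  · simp [h]
  · have e2 : {q : (M × (Fin k → ℝ)) × ℝ | i ≠ j ∧ ε ≤ |q.1.2 i|} = {q | ε ≤ |q.1.2 i|} := by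
      ext q
      simp [h]
    rw [e2]
    exact isClosed_le (by fun_prop) (by fun_prop)

private theorem g1H_Z (h0 : 0 < ε) (j : Fin k) (s : ℝ) (q : (M × (Fin k → ℝ)) × ℝ)
    (hq : q ∈ g1Z C ε j) : (g1H j s q).1.1 ∈ C ∧ (ε ≤ ‖(g1H j s q).1.2‖ ∨ (g1H j s q).2 ≠ 0) := by
  obtain ⟨hq1, hq2⟩ := hq
  refine ⟨hq1.1.1, ?_⟩
  rcases hq2 with h | ⟨i, hij, hi⟩
  · have hsc := Real.sin_sq_add_cos_sq (s * Real.pi)
    set c := Real.cos (s * Real.pi) with hc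
    set d := Real.sin (s * Real.pi) with hd
    have e1 : (g1H j s q).1.2 j = -(c * q.1.2 j) - d * q.2 := by
      unfold g1H
      simp [Function.update_self, ← hc, ← hd]
    have e2 : (g1H j s q).2 = -(d * q.1.2 j) + c * q.2 := rfl
    have e3 : ((g1H j s q).1.2 j) ^ 2 + ((g1H j s q).2) ^ 2 = (q.1.2 j) ^ 2 + q.2 ^ 2 := by
      rw [e1, e2]
      linear_combination ((q.1.2 j) ^ 2 + q.2 ^ 2) * hsc
    by_contra hcon
    push Not at hcon
    obtain ⟨h3, h4⟩ := hcon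
    rw [h4] at e3
    have h5 : |(g1H j s q).1.2 j| < ε := lt_of_le_of_lt
      (by rw [← Real.norm_eq_abs]; exact norm_le_pi_norm _ j) h3
    have h6 : ((g1H j s q).1.2 j) ^ 2 < ε ^ 2 := by
      rw [← sq_abs]
      exact pow_lt_pow_left₀ h5 (abs_nonneg _) (by norm_num)
    nlinarith [sq_nonneg ε]
  · left
    have e1 : (g1H j s q).1.2 i = q.1.2 i := by
      unfold g1H
      exact Function.update_of_ne hij _ _
    calc ε ≤ |q.1.2 i| := hi
      _ = ‖(g1H j s q).1.2 i‖ := by rw [e1, Real.norm_eq_abs]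
      _ ≤ _ := norm_le_pi_norm _ i

private theorem g1_fst_lz {φ : Coch (M × (Fin k → ℝ)) ℚ n} {T : Set (M × (Fin k → ℝ))}
    (h : LZ T φ) {U : Set ((M × (Fin k → ℝ)) × ℝ)} (hU : ∀ q ∈ U, q.1 ∈ T) :
    LZ U (pb Prod.fst φ) :=
  h.pb fun q hq => ⟨continuous_fst.continuousAt, hU q hq⟩

private theorem g1_W {w : Coch (M × (Fin k → ℝ)) ℚ n} (hw : LZ (C ×ˢ univ) (dd one w))
    (hw0 : LZ (C ×ˢ {v | ε ≤ ‖v‖}) w) :
    Coc one {q : (M × (Fin k → ℝ)) × ℝ | q.1.1 ∈ C}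
      {q | q.1.1 ∈ C ∧ (ε ≤ ‖q.1.2‖ ∨ q.2 ≠ 0)}
      (cu (rfl : n + 1 = n + 1) (pb Prod.fst w) (pb Prod.snd g1e)) := by
  constructor
  · have h1 : LZ {q : (M × (Fin k → ℝ)) × ℝ | q.1 ∈ C ×ˢ {v | ε ≤ ‖v‖}}
        (cu (rfl : n + 1 = n + 1) (pb Prod.fst w) (pb Prod.snd g1e)) :=
      cu_left _ (g1_fst_lz hw0 fun q hq => hq) _
    have h2 : LZ {q : (M × (Fin k → ℝ)) × ℝ | q.2 ≠ 0}
        (cu (rfl : n + 1 = n + 1) (pb Prod.fst w) (pb Prod.snd g1e)) :=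
      cu_right _ _ (g1_e_lz.pb fun q hq => ⟨continuous_snd.continuousAt, hq⟩)
    refine (h1.union h2).mono ?_
    rintro q ⟨hq1, hq2 | hq2⟩
    · exact Or.inl ⟨hq1, hq2⟩
    · exact Or.inr hq2
  · rw [dd_cu (rfl : n + 1 = n + 1) (by omega) (by omega)]
    have e1 : dd one (pb (Prod.snd : (M × (Fin k → ℝ)) × ℝ → ℝ) g1e) = 0 := by
      have e2 : dd one (pb (Prod.snd : (M × (Fin k → ℝ)) × ℝ → ℝ) g1e) =
        pb Prod.snd (dd one g1e) := rfl
      rw [e2, g1_dde]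
      rfl
    rw [e1, g1_cu_zero, smul_zero, add_zero]
    refine cu_left _ ?_ _
    have h3 : LZ {q : (M × (Fin k → ℝ)) × ℝ | q.1.1 ∈ C} (pb Prod.fst (dd one w)) :=
      g1_fst_lz hw fun q hq => ⟨hq, mem_univ _⟩
    exact h3

private theorem g1_step1 (hC : IsCompact C) (h0 : 0 < ε)
    {w : Coch (M × (Fin k → ℝ)) ℚ n} (hw : LZ (C ×ˢ univ) (dd one w))
    (hw0 : LZ (C ×ˢ {v | ε ≤ ‖v‖}) w) (j : Fin k) :
    ∃ c : Coch ((M × (Fin k → ℝ)) × ℝ) ℚ n, LZ (g1Z C ε j) c ∧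
      LZ (g1S C k) (cu (rfl : n + 1 = n + 1) (pb Prod.fst (w + pb (g1r j) w)) (pb Prod.snd g1e) -
        dd one c) := by
  have key := hty (g1S_compact (k := k) hC) (g1Z_compact (ε := ε) hC j) (g1H j)
    (fun s _ x _ => (g1H_cont j).continuousAt)
    (fun s _ x hx => (hx.1.1 : (g1H j s x).1.1 ∈ C))
    (fun s _ x hx => g1H_Z h0 j s x hx) (g1_W hw hw0)
  obtain ⟨ψ, hψ1, hψ2⟩ := key
  have e1 : pb (g1H j 0) (cu (rfl : n + 1 = n + 1) (pb Prod.fst w) (pb Prod.snd g1e)) =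
      cu (rfl : n + 1 = n + 1) (pb Prod.fst (pb (g1r j) w)) (pb Prod.snd g1e) := by
    rw [g1H_zero]
    rfl
  have e2 : pb (g1H j 1) (cu (rfl : n + 1 = n + 1) (pb Prod.fst w) (pb Prod.snd g1e)) =
      cu (rfl : n + 1 = n + 1) (pb (Prod.fst : (M × (Fin k → ℝ)) × ℝ → _) w)
        (pb Prod.snd (pb (fun y : ℝ => -y) g1e)) := by
    rw [g1H_one]
    rfl
  have e3 : pb (Prod.snd : (M × (Fin k → ℝ)) × ℝ → ℝ) (pb (fun y : ℝ => -y) g1e) =
      -pb Prod.snd g1e - dd one (pb Prod.snd g1d) := by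
    rw [g1_neg]
    rfl
  set W := cu (rfl : n + 1 = n + 1) (pb (Prod.fst : (M × (Fin k → ℝ)) × ℝ → _) w)
    (pb Prod.snd g1e) with hW
  set X := cu (rfl : n + 1 = n + 1) (pb (Prod.fst : (M × (Fin k → ℝ)) × ℝ → _) w)
    (dd one (pb Prod.snd g1d)) with hX
  have e4 : cu (rfl : n + 1 = n + 1) (pb (Prod.fst : (M × (Fin k → ℝ)) × ℝ → _) w)
        (pb Prod.snd (pb (fun y : ℝ => -y) g1e)) = -W - X := by
    rw [e3, cu_sub_right, ← hX]
    congr 1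
    funext t
    rw [hW]
    show cu _ _ (-pb Prod.snd g1e) t = -cu _ _ (pb Prod.snd g1e) t
    rw [cu_apply, cu_apply]
    show _ * -_ = _
    rw [mul_neg]
  have e5 : cu (rfl : n + 1 = n + 1)
      (pb (Prod.fst : (M × (Fin k → ℝ)) × ℝ → _) (w + pb (g1r j) w)) (pb Prod.snd g1e) =
      W + cu (rfl : n + 1 = n + 1) (pb Prod.fst (pb (g1r j) w)) (pb Prod.snd g1e) := by
    rw [hW, ← cu_add_left]
    rfl
  set Y := cu (rfl : n + 0 = n) (pb (Prod.fst : (M × (Fin k → ℝ)) × ℝ → _) w)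
    (pb Prod.snd g1d) with hY
  have e6 := dd_cu (rfl : n + 0 = n) (by omega) (rfl : n + (0 + 1) = n + 1)
    (pb (Prod.fst : (M × (Fin k → ℝ)) × ℝ → _) w) (pb Prod.snd g1d)
  rw [← hY] at e6
  have hYZ : LZ (g1Z C ε j) Y := by
    have a1 : LZ {q : (M × (Fin k → ℝ)) × ℝ | q.1 ∈ C ×ˢ {v | ε ≤ ‖v‖}} Y :=
      cu_left _ (g1_fst_lz hw0 fun q hq => hq) _
    have a2 : LZ {q : (M × (Fin k → ℝ)) × ℝ | q.2 ≠ 0} Y :=
      cu_right _ _ (g1_d_lz.pb fun q hq => ⟨continuous_snd.continuousAt, hq⟩)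
    refine (a1.union a2).mono ?_
    rintro q hq
    have a3 := g1H_Z h0 j 1 q hq
    rw [g1H_one] at a3
    rcases a3 with ⟨b1, b2 | b2⟩
    · exact Or.inl ⟨b1, b2⟩
    · exact Or.inr (by simpa using b2)
  refine ⟨ψ - (-1 : ℤ) ^ n • Y, hψ1.sub (g1_lz_smul hYZ _), ?_⟩
  have hdw : LZ (g1S C k) (cu (by omega : n + 1 + 0 = n + 1)
      (dd one (pb (Prod.fst : (M × (Fin k → ℝ)) × ℝ → _) w)) (pb Prod.snd g1d)) := by
    refine cu_left _ ?_ _
    have h3 : LZ (g1S C k) (pb Prod.fst (dd one w)) :=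
      g1_fst_lz hw fun q hq => ⟨hq.1.1, mem_univ _⟩
    exact h3
  have e7 : cu (rfl : n + 1 = n + 1)
      (pb (Prod.fst : (M × (Fin k → ℝ)) × ℝ → _) (w + pb (g1r j) w)) (pb Prod.snd g1e) -
      dd one (ψ - (-1 : ℤ) ^ n • Y) =
      (pb (g1H j 0) W - pb (g1H j 1) W - dd one ψ) + (-1 : ℤ) ^ n •
        (cu (by omega : n + 1 + 0 = n + 1)
      (dd one (pb (Prod.fst : (M × (Fin k → ℝ)) × ℝ → _) w)) (pb Prod.snd g1d)) := by
    have e8 : (-1 : ℤ) ^ n • ((-1 : ℤ) ^ n • X) = X := by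
      rw [smul_smul, g1_sq, one_smul]
    rw [dd_sub, g1_dd_smul, e6, e5, e1, e2, e4, smul_add]
    have e9 : (-1 : ℤ) ^ n • ((-1 : ℤ) ^ n • cu (rfl : n + (0 + 1) = n + 1)
      (pb (Prod.fst : (M × (Fin k → ℝ)) × ℝ → _) w) (dd one (pb Prod.snd g1d))) = X := e8
    rw [e9]
    abel
  rw [e7]
  exact hψ2.add (g1_lz_smul hdw _)

private theorem g1_big (h0 : 0 < ε) (j : Fin k) (q : (M × (Fin k → ℝ)) × ℝ) (hq : q ∈ g1S C k)
    (h : 2 * ε ≤ ‖q.1.2‖) : q ∈ g1Z C ε j := by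
  refine ⟨hq, ?_⟩
  by_contra hcon
  simp only [mem_setOf_eq] at hcon
  push Not at hcon
  obtain ⟨a, b⟩ := hcon
  have h1 : ‖q.1.2‖ < 2 * ε := by
    rw [pi_norm_lt_iff (by linarith)]
    intro i
    rw [Real.norm_eq_abs]
    by_cases hij : i = j
    · subst hij
      by_contra hc
      have h2 : 2 * ε ≤ |q.1.2 i| := not_lt.1 hc
      have h3 : (2 * ε) ^ 2 ≤ |q.1.2 i| ^ 2 := pow_le_pow_left₀ (by linarith) h2 2
      rw [sq_abs] at h3
      nlinarith [sq_nonneg q.2, sq_nonneg ε]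
    · have := b i hij
      linarith
  linarith

theorem refl_rel {M : Type} [MetricSpace M] {C : Set M} (hC : IsCompact C) {k n : ℕ} {ε : ℝ} (h0 : 0 < ε)
    (h1 : ε < 1 / 4) {w : Coch (M × (Fin k → ℝ)) ℚ n} (hw : LZ (C ×ˢ univ) (dd one w))
    (hw0 : LZ (C ×ˢ {v | ε ≤ ‖v‖}) w) (j : Fin k) :
    Cob one (C ×ˢ Metric.closedBall 0 1) (C ×ˢ {v | 2 * ε ≤ ‖v‖ ∧ ‖v‖ ≤ 1})
      (w + pb (fun p : M × (Fin k → ℝ) => (p.1, Function.update p.2 j (-p.2 j))) w) := by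
  obtain ⟨c, hcZ, hcS⟩ := g1_step1 hC h0 hw hw0 j
  change Cob one (C ×ˢ Metric.closedBall 0 1) (C ×ˢ {v | 2 * ε ≤ ‖v‖ ∧ ‖v‖ ≤ 1})
      (w + pb (g1r j) w)
  set b := w + pb (g1r j) w with hb
  have hbd : LZ (C ×ˢ univ) (dd one b) := by
    rw [hb, dd_add]
    refine hw.add ?_
    have h4 : ∀ q ∈ C ×ˢ (univ : Set (Fin k → ℝ)),
        ContinuousAt (g1r (M := M) j) q ∧ g1r j q ∈ C ×ˢ (univ : Set (Fin k → ℝ)) := by
      intro q hq
      exact ⟨(g1r_cont j).continuousAt, hq.1, mem_univ _⟩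
    have h3 : LZ (C ×ˢ univ) (pb (g1r j) (dd one w)) := LZ.pb h4 hw
    exact h3
  have hb0 : LZ (C ×ˢ {v | ε ≤ ‖v‖}) b := by
    have h4 : ∀ q ∈ C ×ˢ {v : Fin k → ℝ | ε ≤ ‖v‖},
        ContinuousAt (g1r (M := M) j) q ∧ g1r j q ∈ C ×ˢ {v : Fin k → ℝ | ε ≤ ‖v‖} := by
      intro q hq
      refine ⟨(g1r_cont j).continuousAt, hq.1, ?_⟩
      show ε ≤ ‖Function.update q.2 j (-q.2 j)‖
      rw [g1r_norm]
      exact hq.2
    exact hw0.add (LZ.pb h4 hw0)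
  set z := cu (rfl : n + 0 = n) (pb (Prod.fst : (M × (Fin k → ℝ)) × ℝ → _) b)
    (pb Prod.snd g1x) - (-1 : ℤ) ^ n • c with hz
  have hzd : LZ (g1S C k) (dd one z) := by
    have e1 := dd_cu (rfl : n + 0 = n) (by omega) (rfl : n + (0 + 1) = n + 1)
      (pb (Prod.fst : (M × (Fin k → ℝ)) × ℝ → _) b) (pb Prod.snd g1x)
    have e2 : dd one (pb (Prod.snd : (M × (Fin k → ℝ)) × ℝ → ℝ) g1x) = pb Prod.snd g1e := by
      rw [← g1_ddx]
      rfl
    rw [e2] at e1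
    have h3 : LZ (g1S C k) (cu (by omega : n + 1 + 0 = n + 1)
        (dd one (pb (Prod.fst : (M × (Fin k → ℝ)) × ℝ → _) b)) (pb Prod.snd g1x)) := by
      refine cu_left _ ?_ _
      have h4 : LZ (g1S C k) (pb Prod.fst (dd one b)) :=
        g1_fst_lz hbd fun q hq => ⟨hq.1.1, mem_univ _⟩
      exact h4
    have e3 : dd one z = cu (by omega : n + 1 + 0 = n + 1)
        (dd one (pb (Prod.fst : (M × (Fin k → ℝ)) × ℝ → _) b)) (pb Prod.snd g1x) +
        (-1 : ℤ) ^ n • (cu (rfl : n + 1 = n + 1) (pb Prod.fst b) (pb Prod.snd g1e) -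
          dd one c) := by
      rw [hz, dd_sub, g1_dd_smul, e1, smul_sub]
      abel
    rw [e3]
    exact h3.add (g1_lz_smul hcS _)
  have hz0 : LZ {q : (M × (Fin k → ℝ)) × ℝ | q ∈ g1S C k ∧ 2 * ε ≤ ‖q.1.2‖} z := by
    refine LZ.sub (cu_left _ (g1_fst_lz hb0 fun q hq => ⟨hq.1.1.1, ?_⟩) _)
      (g1_lz_smul (hcZ.mono fun q hq => g1_big h0 j q hq.1 hq.2) _)
    show ε ≤ ‖q.1.2‖
    linarith [hq.2]
  have key := hty (E := M × (Fin k → ℝ)) (E' := (M × (Fin k → ℝ)) × ℝ)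
    (S := C ×ˢ Metric.closedBall 0 1) (Z := C ×ˢ {v | 2 * ε ≤ ‖v‖ ∧ ‖v‖ ≤ 1})
    (S' := g1S C k) (Z' := {q | q ∈ g1S C k ∧ 2 * ε ≤ ‖q.1.2‖})
    (hC.prod (isCompact_closedBall 0 1)) ?_ (fun s p => (p, 1 - 2 * s)) ?_ ?_ ?_
    (φ := z) ⟨hz0, hzd⟩
  · have e1 : pb (fun p : M × (Fin k → ℝ) => (p, (1 : ℝ) - 2 * 0)) z - b =
        -((-1 : ℤ) ^ n • pb (fun p : M × (Fin k → ℝ) => (p, (1 : ℝ) - 2 * 0)) c) := by
      funext t
      have e2 : (cu (rfl : n + 0 = n) (pb (Prod.fst : (M × (Fin k → ℝ)) × ℝ → _) b)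
        (pb Prod.snd g1x)) (fun i => (t i, (1 : ℝ) - 2 * 0)) = b t := by
        rw [cu_apply]
        have e3 : (pb (Prod.snd : (M × (Fin k → ℝ)) × ℝ → ℝ) g1x)
            (fun l : Fin (0 + 1) => (t ⟨n + l.1, by omega⟩, (1 : ℝ) - 2 * 0)) = 1 := by
          show g1chi (1 - 2 * 0) = 1
          unfold g1chi
          rw [if_pos (by norm_num)]
        rw [e3, mul_one]
        rfl
      show (cu (rfl : n + 0 = n) (pb (Prod.fst : (M × (Fin k → ℝ)) × ℝ → _) b)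
        (pb Prod.snd g1x)) (fun i => (t i, (1 : ℝ) - 2 * 0)) -
        (-1 : ℤ) ^ n • c (fun i => (t i, (1 : ℝ) - 2 * 0)) - b t =
        -((-1 : ℤ) ^ n • c (fun i => (t i, (1 : ℝ) - 2 * 0)))
      rw [e2]
      ring
    have e4 : pb (fun p : M × (Fin k → ℝ) => (p, (1 : ℝ) - 2 * 1)) z =
        -((-1 : ℤ) ^ n • pb (fun p : M × (Fin k → ℝ) => (p, (1 : ℝ) - 2 * 1)) c) := by
      funext t
      have e2 : (cu (rfl : n + 0 = n) (pb (Prod.fst : (M × (Fin k → ℝ)) × ℝ → _) b)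
        (pb Prod.snd g1x)) (fun i => (t i, (1 : ℝ) - 2 * 1)) = 0 := by
        rw [cu_apply]
        have e3 : (pb (Prod.snd : (M × (Fin k → ℝ)) × ℝ → ℝ) g1x)
            (fun l : Fin (0 + 1) => (t ⟨n + l.1, by omega⟩, (1 : ℝ) - 2 * 1)) = 0 := by
          show g1chi (1 - 2 * 1) = 0
          unfold g1chi
          rw [if_neg (by norm_num)]
        rw [e3, mul_zero]
      show (cu (rfl : n + 0 = n) (pb (Prod.fst : (M × (Fin k → ℝ)) × ℝ → _) b)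
        (pb Prod.snd g1x)) (fun i => (t i, (1 : ℝ) - 2 * 1)) -
        (-1 : ℤ) ^ n • c (fun i => (t i, (1 : ℝ) - 2 * 1)) =
        -((-1 : ℤ) ^ n • c (fun i => (t i, (1 : ℝ) - 2 * 1)))
      rw [e2]
      ring
    have hlz : ∀ y : ℝ, y ^ 2 = 1 → LZ (C ×ˢ Metric.closedBall (0 : Fin k → ℝ) 1)
        (pb (fun p : M × (Fin k → ℝ) => (p, y)) c) := by
      intro y hy
      have h4 : ∀ p ∈ C ×ˢ Metric.closedBall (0 : Fin k → ℝ) 1,
          ContinuousAt (fun p : M × (Fin k → ℝ) => (p, y)) p ∧ (p, y) ∈ g1Z C ε j := by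
        intro p hp
        refine ⟨(by fun_prop : Continuous (fun p : M × (Fin k → ℝ) => (p, y))).continuousAt,
          ⟨hp, ?_⟩, ?_⟩
        · exact abs_le_of_sq_le_sq' (a := y) (b := 1) (by rw [hy]; norm_num) (by norm_num)
        · left
          show 2 * ε ^ 2 ≤ (p.2 j) ^ 2 + y ^ 2
          rw [hy]
          nlinarith [sq_nonneg (p.2 j)]
      exact LZ.pb h4 hcZ
    refine Cob.congr ?_ key
    have e5 : b - (pb (fun p : M × (Fin k → ℝ) => (p, (1 : ℝ) - 2 * 0)) z -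
        pb (fun p : M × (Fin k → ℝ) => (p, (1 : ℝ) - 2 * 1)) z) =
        -(pb (fun p : M × (Fin k → ℝ) => (p, (1 : ℝ) - 2 * 0)) z - b) +
        pb (fun p : M × (Fin k → ℝ) => (p, (1 : ℝ) - 2 * 1)) z := by abel
    rw [e5, e1, e4]
    exact (g1_lz_smul (hlz _ (by norm_num)) _).neg.neg.add
      (g1_lz_smul (hlz _ (by norm_num)) _).neg
  · have e1 : {v : Fin k → ℝ | 2 * ε ≤ ‖v‖ ∧ ‖v‖ ≤ 1} =
        Metric.closedBall 0 1 ∩ {v | 2 * ε ≤ ‖v‖} := by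
      ext v
      simp only [mem_setOf_eq, mem_inter_iff, mem_closedBall_zero_iff]
      tauto
    rw [e1]
    exact hC.prod ((isCompact_closedBall 0 1).inter_right
      (isClosed_le continuous_const continuous_norm))
  · intro s _ x _
    exact (by fun_prop : Continuous (fun p : ℝ × (M × (Fin k → ℝ)) => (p.2, 1 - 2 * p.1))).continuousAt
  · intro s hs x hx
    exact ⟨hx, by constructor <;> linarith [hs.1, hs.2]⟩
  · intro s hs x hx
    refine ⟨⟨⟨hx.1, ?_⟩, by constructor <;> linarith [hs.1, hs.2]⟩, hx.2.1⟩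
    rw [mem_closedBall_zero_iff]
    exact hx.2.2

end Pool.Agent.Work.MP_6d5d4b_gt.FP
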