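import Pool.Agent.Work.MP_6d5d4b_gt.FP.G1

set_option autoImplicit false

/-!
# FP/G2 (size S-M): the fibrewise antipodal map acts by `(-1)^k`

PROOF. `ν m` (`m ≤ k`) negates the coordinates of index `< m` of `v`: `ν 0 = id`, `ν (m+1) = ν m ∘ (reflection in coordinate m)` up to order (they commute), `ν k p = (p.1, -p.2)`. Put `w_m = pb (ν m) w`: it satisfies the hypotheses `hw`, `hw0` (`ν m` is continuous,
preserves `C ×ˢ univ` and `‖v‖`; `LZ.pb`, `dd_pb`). `refl_rel` for `w_m` and the coordinate `m`: `Cob (w_m + w_(m+1))`. Induction: `Cob (w - (-1)^m • w_m)` (same `S`, `Z`; `Cob.add`, stability under `(-1)^m •`).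
-/

open Topology Filter Set PoolFbd

namespace Pool.Agent.Work.MP_6d5d4b_gt.FP

private theorem g2_dd_smul {E : Type} {n : ℕ} (r : ℚ) (φ : Coch E ℚ n) :
    dd one (r • φ) = r • dd one φ := by
  funext t
  simp only [dd, one, one_smul, Pi.smul_apply, smul_add, Finset.smul_sum]
  congr 1
  refine Finset.sum_congr rfl fun i _ => ?_
  rw [smul_comm]

private theorem g2_LZ_smul {E : Type} [TopologicalSpace E] {S : Set E} {n : ℕ} (r : ℚ)
    {φ : Coch E ℚ n} (h : LZ S φ) : LZ S (r • φ) := fun x hx => by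
  filter_upwards [h x hx] with t a
  rw [Pi.smul_apply, a, smul_zero]

private theorem g2_smul {E : Type} [TopologicalSpace E] {S Z : Set E} {n : ℕ} (r : ℚ)
    {φ : Coch E ℚ n} (h : Cob one S Z φ) : Cob one S Z (r • φ) := by
  cases n with
  | zero => exact g2_LZ_smul r h
  | succ n =>
    obtain ⟨ψ, a, b⟩ := h
    refine ⟨r • ψ, g2_LZ_smul r a, ?_⟩
    rw [g2_dd_smul, ← smul_sub]
    exact g2_LZ_smul r b

/-- negation of the coordinates of index less than `m` -/
private def nu {M : Type} {k : ℕ} (m : ℕ) (p : M × (Fin k → ℝ)) : M × (Fin k → ℝ) :=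
  (p.1, fun i => if (i : ℕ) < m then -p.2 i else p.2 i)

private theorem nu_zero {M : Type} {k : ℕ} : (nu 0 : M × (Fin k → ℝ) → M × (Fin k → ℝ)) = id := by
  funext p
  simp [nu]

private theorem nu_top {M : Type} {k : ℕ} :
    (nu k : M × (Fin k → ℝ) → M × (Fin k → ℝ)) = fun p => (p.1, -p.2) := by
  funext p
  refine Prod.ext rfl ?_
  funext i
  simp [nu]

private theorem nu_succ {M : Type} {k m : ℕ} (hm : m < k) :
    (fun p : M × (Fin k → ℝ) => nu m (p.1, Function.update p.2 (⟨m, hm⟩ : Fin k) (-p.2 ⟨m, hm⟩))) =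
      nu (m + 1) := by
  funext p
  refine Prod.ext rfl ?_
  funext i
  simp only [nu]
  rcases lt_trichotomy (i : ℕ) m with h | h | h
  · have h1 : i ≠ ⟨m, hm⟩ := fun h2 => by
      rw [h2] at h
      exact lt_irrefl _ h
    rw [if_pos h, if_pos (by omega), Function.update_of_ne h1]
  · have h1 : i = ⟨m, hm⟩ := Fin.ext h
    rw [if_neg (by omega), if_pos (by omega), h1, Function.update_self]
  · have h1 : i ≠ ⟨m, hm⟩ := fun h2 => by
      rw [h2] at h
      exact lt_irrefl _ h
    rw [if_neg (by omega), if_neg (by omega), Function.update_of_ne h1]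

private theorem nu_norm {M : Type} {k : ℕ} (m : ℕ) (p : M × (Fin k → ℝ)) :
    ‖(nu m p).2‖ = ‖p.2‖ := by
  have h1 : ∀ i, ‖(nu m p).2 i‖ = ‖p.2 i‖ := by
    intro i
    simp only [nu]
    split_ifs
    · exact norm_neg _
    · rfl
  apply le_antisymm
  · rw [pi_norm_le_iff_of_nonneg (norm_nonneg _)]
    intro i
    rw [h1]
    exact norm_le_pi_norm _ i
  · rw [pi_norm_le_iff_of_nonneg (norm_nonneg _)]
    intro i
    rw [← h1]
    exact norm_le_pi_norm _ i

private theorem nu_cont {M : Type} [TopologicalSpace M] {k : ℕ} (m : ℕ) :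
    Continuous (nu m : M × (Fin k → ℝ) → M × (Fin k → ℝ)) := by
  refine continuous_fst.prodMk (continuous_pi fun i => ?_)
  by_cases h : (i : ℕ) < m
  · simp only [if_pos h]
    exact ((continuous_apply i).comp continuous_snd).neg
  · simp only [if_neg h]
    exact (continuous_apply i).comp continuous_snd

theorem neg_rel {M : Type} [MetricSpace M] {C : Set M} (hC : IsCompact C) {k n : ℕ} {ε : ℝ} (h0 : 0 < ε)
    (h1 : ε < 1 / 4) {w : Coch (M × (Fin k → ℝ)) ℚ n} (hw : LZ (C ×ˢ univ) (dd one w))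
    (hw0 : LZ (C ×ˢ {v | ε ≤ ‖v‖}) w) :
    Cob one (C ×ˢ Metric.closedBall 0 1) (C ×ˢ {v | 2 * ε ≤ ‖v‖ ∧ ‖v‖ ≤ 1})
      (w - (-1 : ℚ) ^ k • pb (fun p : M × (Fin k → ℝ) => (p.1, -p.2)) w) := by
  have key : ∀ m : ℕ, m ≤ k →
      Cob one (C ×ˢ Metric.closedBall 0 1) (C ×ˢ {v | 2 * ε ≤ ‖v‖ ∧ ‖v‖ ≤ 1})
        (w - (-1 : ℚ) ^ m • pb (nu (M := M) (k := k) m) w) := by
    intro m
    induction m with
    | zero =>
      intro _
      have h2 : pb (nu (M := M) (k := k) 0) w = w := by
        rw [nu_zero]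
        rfl
      rw [h2, pow_zero, one_smul, sub_self]
      exact Cob.zero _ _ _
    | succ m ih =>
      intro hm
      have h3 := ih (by omega)
      have h4 := refl_rel hC h0 h1 (w := pb (nu (M := M) (k := k) m) w)
        (by
          have h5 : dd one (pb (nu (M := M) (k := k) m) w) = pb (nu m) (dd one w) := rfl
          rw [h5]
          refine LZ.pb (f := nu m) (S' := C ×ˢ univ) ?_ hw
          intro p hp
          exact ⟨(nu_cont m).continuousAt, ⟨hp.1, mem_univ _⟩⟩)
        (by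
          refine LZ.pb (f := nu m) (S' := C ×ˢ {v | ε ≤ ‖v‖}) ?_ hw0
          intro p hp
          refine ⟨(nu_cont m).continuousAt, ⟨hp.1, ?_⟩⟩
          show ε ≤ ‖(nu m p).2‖
          rw [nu_norm]
          exact hp.2) ⟨m, by omega⟩
      have h6 : pb (fun p : M × (Fin k → ℝ) => (p.1, Function.update p.2 (⟨m, by omega⟩ : Fin k)
          (-p.2 ⟨m, by omega⟩))) (pb (nu (M := M) (k := k) m) w) = pb (nu (m + 1)) w := by
        rw [← nu_succ (M := M) (by omega : m < k)]
        rfl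
      rw [h6] at h4
      have h7 := h3.add (g2_smul ((-1 : ℚ) ^ m) h4)
      have h8 : w - (-1 : ℚ) ^ (m + 1) • pb (nu (M := M) (k := k) (m + 1)) w =
          w - (-1 : ℚ) ^ m • pb (nu (M := M) (k := k) m) w +
          (-1 : ℚ) ^ m • (pb (nu (M := M) (k := k) m) w + pb (nu (m + 1)) w) := by
        rw [pow_succ, smul_add, mul_neg_one, neg_smul]
        abel
      rw [h8]
      exact h7
  have h9 := key k le_rfl
  rw [nu_top] at h9
  exact h9

end Pool.Agent.Work.MP_6d5d4b_gt.FP
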