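import Pool.Agent.Work.MP_6d5d4b_gt.FP.Defs

set_option autoImplicit false

/-!
# FP/Hty (size M): homotopy invariance along compact sets

PROOF. Uses `prism_zero`, `prism_succ` (`MP_fbd21a_gt/Pris.lean`, with `τ = one`: exact identities for all tuples). `K = Icc 0 1 ×ˢ (S ∪ Z)` is compact.
CLAIM. Let `T ⊆ S ∪ Z` be `S` or `Z`, `T'` correspondingly `S'` or `Z'`, and `χ : Coch E' A m` with `LZ T' χ`. There is `N > 0` such that for all `j < N` the cochain `prism (H (j/N)) (H ((j+1)/N)) χ` (for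
`m ≥ 1`) is `LZ T`; also, for all sufficiently large multiples, so one `N` serves for two cochains. Proof: for `p = (s, x)`, `s ∈ Icc 0 1`, `x ∈ T`, there is `δ_p > 0` such that `χ` vanishes on all tuples with entries in
`H '' (ball p δ_p)` (`χ` is zero near the constant tuple `H s x` and `H` is continuous at `p`, as a map of `ℝ × E`). Lebesgue number (as in `LZ.unif`, `lebesgue_number_lemma_of_metric`) of the covering of the compact set
`Icc 0 1 ×ˢ T` by the balls `ball p (δ_p)`: there is `δ > 0` such that each ball of radius `δ` about a point of `Icc 0 1 ×ˢ T` lies in one of them; take `1/N < δ`: for `x ∈ T` and a tuple with entries in `ball x δ` all the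
points `(j/N, t i)`, `((j+1)/N, t i)` are in `ball (j/N, x) δ` (sup distance; `1/N < δ`), so all values of `χ` in the prism are zero.
With `N` for `(S, dd one φ)` and `(Z, φ)`: degree `n = m + 1`: `ψ = - ∑_{j<N} prism (H (j/N)) (H ((j+1)/N)) φ` is `LZ Z`, and by `prism_succ` (the gauge factor `one _ _` acts trivially, `pbt_one`)
`dd one (prism a b φ) + prism a b (dd one φ) = pb b φ - pb a φ`, summed over `j` (telescoping, `H (0/N) = H 0`, `H (N/N) = H 1`): `dd one ψ = pb (H 0) φ - pb (H 1) φ` up to a cochain which is `LZ S`.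
Degree `n = 0`: `prism_zero`: `prism a b (dd one φ) t = pb b φ t - pb a φ t`, so each difference is `LZ S`, and `Cob` in degree 0 is `LZ S`.
-/

open Topology Filter Set PoolFbd

namespace Pool.Agent.Work.MP_6d5d4b_gt.FP

private theorem key {E E' A : Type} [PseudoMetricSpace E] [PseudoMetricSpace E'] [AddCommGroup A]
    {T : Set E} (hT : IsCompact T) {T' : Set E'} (H : ℝ → E → E')
    (hH : ∀ s ∈ Icc (0 : ℝ) 1, ∀ x ∈ T, ContinuousAt (fun p : ℝ × E => H p.1 p.2) (s, x))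
    (hT' : ∀ s ∈ Icc (0 : ℝ) 1, ∀ x ∈ T, H s x ∈ T') {m : ℕ} {χ : Coch E' A m} (hχ : LZ T' χ) :
    ∃ δ > 0, ∀ y ∈ Icc (0 : ℝ) 1 ×ˢ T, ∀ q : Fin (m + 1) → ℝ × E, (∀ i, dist (q i) y < δ) →
      pb (fun p : ℝ × E => H p.1 p.2) χ q = 0 := by
  refine LZ.unif (isCompact_Icc.prod hT) (LZ.pb ?_ hχ)
  rintro ⟨s, x⟩ ⟨hs, hx⟩
  exact ⟨hH s hs x hx, hT' s hs x hx⟩

private theorem prism_LZ {E E' A : Type} [PseudoMetricSpace E] [PseudoMetricSpace E'] [AddCommGroup A]
    {T : Set E} (H : ℝ → E → E') {m : ℕ} {χ : Coch E' A (m + 1)} {δ : ℝ} (hδ : 0 < δ)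
    (hu : ∀ y ∈ Icc (0 : ℝ) 1 ×ˢ T, ∀ q : Fin (m + 1 + 1) → ℝ × E, (∀ i, dist (q i) y < δ) →
      pb (fun p : ℝ × E => H p.1 p.2) χ q = 0)
    {s s' : ℝ} (hs : s ∈ Icc (0 : ℝ) 1) (hss : |s' - s| < δ) : LZ T (prism (H s) (H s') χ) := by
  intro x hx
  have h2 : ∀ᶠ t in 𝓝 (fun _ : Fin (m + 1) => x), ∀ k : Fin (m + 1), dist (t k) x < δ := by
    rw [eventually_all]
    exact fun k => ((continuous_apply k).tendsto (fun _ : Fin (m + 1) => x)).eventually
      (Metric.ball_mem_nhds x hδ)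
  filter_upwards [h2] with t ht
  have h3 : ∀ i : Fin (m + 1), χ (fun j => if j ≤ i.castSucc then H s (t (i.predAbove j)) else
      H s' (t (i.predAbove j))) = 0 := by
    intro i
    have h4 := hu (s, x) ⟨hs, hx⟩ (fun j => if j ≤ i.castSucc then (s, t (i.predAbove j)) else
      (s', t (i.predAbove j))) (by
        intro j
        split_ifs
        · rw [Prod.dist_eq, dist_self, max_eq_right dist_nonneg]
          exact ht _
        · rw [Prod.dist_eq, max_lt_iff, Real.dist_eq]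
          exact ⟨hss, ht _⟩)
    rw [← h4]
    show χ _ = χ _
    congr 1
    funext j
    by_cases hj : j ≤ i.castSucc
    · simp only [if_pos hj]
    · simp only [if_neg hj]
  simp [prism, h3]

theorem hty {E E' A : Type} [PseudoMetricSpace E] [PseudoMetricSpace E'] [AddCommGroup A] {S Z : Set E}
    (hS : IsCompact S) (hZ : IsCompact Z) {S' Z' : Set E'} (H : ℝ → E → E')
    (hH : ∀ s ∈ Icc (0 : ℝ) 1, ∀ x ∈ S ∪ Z, ContinuousAt (fun p : ℝ × E => H p.1 p.2) (s, x))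
    (hS' : ∀ s ∈ Icc (0 : ℝ) 1, ∀ x ∈ S, H s x ∈ S') (hZ' : ∀ s ∈ Icc (0 : ℝ) 1, ∀ x ∈ Z, H s x ∈ Z')
    {n : ℕ} {φ : Coch E' A n} (hφ : Coc one S' Z' φ) :
    Cob one S Z (pb (H 0) φ - pb (H 1) φ) := by
  obtain ⟨δ1, hδ1, hu1⟩ := key hS H (fun s hs x hx => hH s hs x (Or.inl hx)) hS' hφ.2
  obtain ⟨δ2, hδ2, hu2⟩ := key hZ H (fun s hs x hx => hH s hs x (Or.inr hx)) hZ' hφ.1
  obtain ⟨N, hN⟩ := exists_nat_one_div_lt (lt_min hδ1 hδ2)
  have hNpos : (0 : ℝ) < ((N + 1 : ℕ) : ℝ) := by positivity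
  have hstep : ∀ j : ℕ, |((j + 1 : ℕ) : ℝ) / (N + 1 : ℕ) - ((j : ℕ) : ℝ) / (N + 1 : ℕ)| <
      min δ1 δ2 := by
    intro j
    have h1 : ((j + 1 : ℕ) : ℝ) / (N + 1 : ℕ) - ((j : ℕ) : ℝ) / (N + 1 : ℕ) = 1 / ((N : ℝ) + 1) := by
      push_cast
      ring
    rw [h1, abs_of_pos (by positivity)]
    exact hN
  have hmem : ∀ j ≤ N + 1, (((j : ℕ) : ℝ) / (N + 1 : ℕ)) ∈ Icc (0 : ℝ) 1 := fun j hj =>
    ⟨by positivity, by rw [div_le_one hNpos]; exact_mod_cast hj⟩
  have hend : (((N + 1 : ℕ) : ℝ) / (N + 1 : ℕ)) = 1 := div_self hNpos.ne'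
  have hone : ∀ j < N + 1, Cob one S Z (pb (H (((j : ℕ) : ℝ) / (N + 1 : ℕ))) φ -
      pb (H (((j + 1 : ℕ) : ℝ) / (N + 1 : ℕ))) φ) := by
    intro j hj
    have hs := hmem j (by omega)
    have hd := hstep j
    rw [lt_min_iff] at hd
    cases n with
    | zero =>
      refine LZ.symm fun x hx => ?_
      filter_upwards [prism_LZ H hδ1 hu1 hs hd.1 x hx] with t ht
      rw [prism_zero] at ht
      simpa [one] using ht
    | succ n =>
      refine Cob.symm ⟨prism (H (((j : ℕ) : ℝ) / (N + 1 : ℕ))) (H (((j + 1 : ℕ) : ℝ) / (N + 1 : ℕ))) φ,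
        prism_LZ H hδ2 hu2 hs hd.2, fun x hx => ?_⟩
      filter_upwards [prism_LZ H hδ1 hu1 hs hd.1 x hx] with t ht
      have h1 := prism_succ (H (((j : ℕ) : ℝ) / (N + 1 : ℕ))) (H (((j + 1 : ℕ) : ℝ) / (N + 1 : ℕ)))
        one φ t
      rw [ht, add_zero, pbt_one] at h1
      simp only [Pi.sub_apply]
      rw [h1]
      simp [one]
  have hind : ∀ j ≤ N + 1, Cob one S Z (pb (H 0) φ - pb (H (((j : ℕ) : ℝ) / (N + 1 : ℕ))) φ) := by
    intro j
    induction j with
    | zero =>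
      intro _
      have h1 : pb (H 0) φ - pb (H (((0 : ℕ) : ℝ) / (N + 1 : ℕ))) φ = 0 := by
        rw [Nat.cast_zero, zero_div, sub_self]
      rw [h1]
      exact Cob.zero _ _ _
    | succ j ih =>
      intro hj
      exact Cob.trans (ih (by omega)) (hone j (by omega))
  have h := hind (N + 1) le_rfl
  rw [hend] at h
  exact h

end Pool.Agent.Work.MP_6d5d4b_gt.FP
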