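import Pool.Agent.Work.MP_6d5d4b_gt.FP.BU

set_option autoImplicit false

/-!
# FP/IoD (size M): invariance of domain

PROOF. Assume `f x ∉ interior (f '' B)`, `B = closedBall x r`. For `‖s‖ = 1`, `τ ∈ [0,1]` put `G s τ = f (x + (r/(1+τ)) s) - f (x - (r τ/(1+τ)) s)`: continuous, never zero (`f` injective, the two points differ by `r s ≠ 0` and are in `B`), so on the compact
set `‖G s τ‖ ≥ δ > 0`. As `f x` is not interior there is `y ∉ f '' B` with `‖y - f x‖ < δ`. Define `F : closedBall 0 1 → (Fin m → ℝ)`: for `‖z‖ ≤ 1/2`: `F z = f (x + 2 r z) - y`, for `1/2 ≤ ‖z‖ ≤ 1`, `τ = 2 ‖z‖ - 1`, `s = z / ‖z‖`: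
`F z = G s τ + (1 - τ) (f x - y)`. For `‖z‖ = 1/2` both are `f (x + r s) - y` (`τ = 0`, `G s 0 = f (x + r s) - f x`). `F` is continuous (`ContinuousOn.if` or `IsClosed.union`-type gluing), nonzero (`y ∉ f '' B`; `‖G s τ‖ ≥ δ > ‖f x - y‖`), and for `‖z‖ = 1`
(`τ = 1`) `F z = f (x + r z / 2) - f (x - r z / 2)` is odd. Contradiction to `bu`.
-/

open Topology Filter Set PoolFbd

namespace Pool.Agent.Work.MP_6d5d4b_gt.FP

theorem iod {m : ℕ} (hm : 1 ≤ m) {f : (Fin m → ℝ) → (Fin m → ℝ)} {x : Fin m → ℝ} {r : ℝ} (hr : 0 < r)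
    (hf : ContinuousOn f (Metric.closedBall x r)) (hi : InjOn f (Metric.closedBall x r)) :
    f x ∈ interior (f '' Metric.closedBall x r) := by
  classical
  set M : (Fin m → ℝ) → ℝ := fun z => max ‖z‖ (1 / 2) with hM
  have hMc : Continuous M := continuous_norm.max continuous_const
  have hMp : ∀ z, 0 < M z := fun z => lt_of_lt_of_le (by norm_num) (le_max_right _ _)
  have hMh : ∀ z, 1 / 2 ≤ M z := fun z => le_max_right _ _
  have hMn : ∀ z, ‖z‖ ≤ M z := fun z => le_max_left _ _
  set P : (Fin m → ℝ) → (Fin m → ℝ) := fun z => x + (r / (2 * M z ^ 2)) • z with hP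
  set Q : (Fin m → ℝ) → (Fin m → ℝ) := fun z => x - (r * (2 * M z - 1) / (2 * M z ^ 2)) • z with hQ
  have hden : Continuous fun z => 2 * M z ^ 2 := continuous_const.mul (hMc.pow 2)
  have hden0 : ∀ z, 2 * M z ^ 2 ≠ 0 := fun z => by
    have := hMp z
    positivity
  have hPc : Continuous P :=
    continuous_const.add ((continuous_const.div hden hden0).smul continuous_id)
  have hQc : Continuous Q :=
    continuous_const.sub (((continuous_const.mul ((continuous_const.mul hMc).sub
      continuous_const)).div hden hden0).smul continuous_id)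
  have hPB : ∀ z, P z ∈ Metric.closedBall x r := by
    intro z
    have h1 := hMp z
    have h2 := hMn z
    have h3 := hMh z
    rw [mem_closedBall_iff_norm]
    have h4 : P z - x = (r / (2 * M z ^ 2)) • z := by simp [hP]
    rw [h4, norm_smul, Real.norm_of_nonneg (by positivity), div_mul_eq_mul_div,
      div_le_iff₀ (by positivity)]
    nlinarith [mul_le_mul_of_nonneg_left h2 hr.le, mul_pos hr h1,
      mul_nonneg (mul_pos hr h1).le (by linarith : (0 : ℝ) ≤ 2 * M z - 1)]
  have hQB : ∀ z, Q z ∈ Metric.closedBall x r := by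
    intro z
    have h1 := hMp z
    have h2 := hMn z
    have h3 := hMh z
    have h3' : 0 ≤ 2 * M z - 1 := by linarith
    rw [mem_closedBall_iff_norm]
    have h4 : Q z - x = -((r * (2 * M z - 1) / (2 * M z ^ 2)) • z) := by simp [hQ]
    rw [h4, norm_neg, norm_smul, Real.norm_of_nonneg (by positivity), div_mul_eq_mul_div,
      div_le_iff₀ (by positivity)]
    have h5 : r * (2 * M z - 1) * ‖z‖ ≤ r * (2 * M z - 1) * M z :=
      mul_le_mul_of_nonneg_left h2 (mul_nonneg hr.le h3')
    nlinarith [mul_pos hr h1]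
  have hfP : Continuous fun z => f (P z) :=
    hf.comp_continuous hPc hPB
  have hfQ : Continuous fun z => f (Q z) :=
    hf.comp_continuous hQc hQB
  have hG : Continuous fun z => f (P z) - f (Q z) := hfP.sub hfQ
  set K : Set (Fin m → ℝ) := Metric.closedBall 0 1 ∩ {z | 1 / 2 ≤ ‖z‖} with hK
  have hKc : IsCompact K :=
    (isCompact_closedBall 0 1).inter_right (isClosed_le continuous_const continuous_norm)
  have hGK : ∀ z ∈ K, f (P z) - f (Q z) ≠ 0 := by
    intro z hz h
    have hz2 : 1 / 2 ≤ ‖z‖ := hz.2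
    have hz0 : z ≠ 0 := by
      rintro rfl
      rw [norm_zero] at hz2
      norm_num at hz2
    have h1 := hi (hPB z) (hQB z) (sub_eq_zero.mp h)
    have h2 : P z - Q z = 0 := sub_eq_zero.mpr h1
    have h3 : P z - Q z = (r / M z) • z := by
      have h4 := (hMp z).ne'
      have h5 : P z - Q z = (r / (2 * M z ^ 2) + r * (2 * M z - 1) / (2 * M z ^ 2)) • z := by
        rw [add_smul]
        simp only [hP, hQ]
        abel
      rw [h5]
      congr 1
      field_simp
      ring
    rw [h3, smul_eq_zero] at h2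
    rcases h2 with h2 | h2
    · exact (div_ne_zero hr.ne' (hMp z).ne') h2
    · exact hz0 h2
  obtain ⟨δ, hδ, hball⟩ : ∃ δ > 0, ∀ z ∈ K, δ ≤ ‖f (P z) - f (Q z)‖ := by
    have hcl : IsClosed ((fun z => f (P z) - f (Q z)) '' K) :=
      (hKc.image hG).isClosed
    have h0 : (0 : Fin m → ℝ) ∈ ((fun z => f (P z) - f (Q z)) '' K)ᶜ := by
      rintro ⟨z, hz, h⟩
      exact hGK z hz h
    obtain ⟨δ, hδ, hsub⟩ := Metric.isOpen_iff.mp hcl.isOpen_compl 0 h0
    refine ⟨δ, hδ, fun z hz => ?_⟩
    by_contra hlt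
    push Not at hlt
    exact hsub (mem_ball_zero_iff.mpr hlt) ⟨z, hz, rfl⟩
  by_contra hint
  obtain ⟨y, hy, hyB⟩ : ∃ y, ‖f x - y‖ < δ ∧ y ∉ f '' Metric.closedBall x r := by
    by_contra hcon
    push Not at hcon
    apply hint
    rw [mem_interior_iff_mem_nhds]
    refine Filter.mem_of_superset (Metric.ball_mem_nhds (f x) hδ) fun y hy => ?_
    refine hcon y ?_
    rw [← dist_eq_norm, dist_comm]
    exact hy
  refine bu hm (F := fun z => (f (P z) - f (Q z)) + (2 - 2 * M z) • (f x - y)) ?_ ?_ ?_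
  · exact (hG.add ((continuous_const.sub (continuous_const.mul hMc)).smul
      continuous_const)).continuousOn
  · intro z hz
    have hM1 : M z = 1 := by
      simp only [hM, hz]
      norm_num
    have hM2 : M (-z) = 1 := by
      simp only [hM, norm_neg, hz]
      norm_num
    have h1 : P (-z) = Q z := by
      simp only [hP, hQ, hM1, hM2]
      rw [smul_neg, ← sub_eq_add_neg]
      norm_num
    have h2 : Q (-z) = P z := by
      simp only [hP, hQ, hM1, hM2]
      rw [smul_neg, sub_neg_eq_add]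
      norm_num
    simp only [hM1, hM2, h1, h2]
    norm_num
  · intro z hz h
    by_cases hzz : ‖z‖ ≤ 1 / 2
    · have hM1 : M z = 1 / 2 := max_eq_right hzz
      have h2 : Q z = x := by
        simp only [hQ, hM1]
        norm_num
      simp only [hM1, h2] at h
      have h3 : f (P z) = y := by
        have h4 : (2 - 2 * (1 / 2 : ℝ)) = 1 := by norm_num
        rw [h4, one_smul, sub_add_sub_cancel, sub_eq_zero] at h
        exact h
      exact hyB ⟨P z, hPB z, h3⟩
    · push Not at hzz
      have hM1 : M z = ‖z‖ := max_eq_left hzz.le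
      have hz1 : ‖z‖ ≤ 1 := mem_closedBall_zero_iff.mp hz
      have h1 := hball z ⟨hz, hzz.le⟩
      have h2 : f (P z) - f (Q z) = -((2 - 2 * M z) • (f x - y)) := eq_neg_of_add_eq_zero_left h
      rw [h2, norm_neg, norm_smul, hM1, Real.norm_of_nonneg (by linarith)] at h1
      have h3 : (2 - 2 * ‖z‖) * ‖f x - y‖ ≤ 1 * ‖f x - y‖ :=
        mul_le_mul_of_nonneg_right (by linarith) (norm_nonneg _)
      linarith

end Pool.Agent.Work.MP_6d5d4b_gt.FP
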