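import Pool.Agent.Work.MP_6d5d4b_gt.FP.Hty
import Pool.Agent.Work.MP_6d5d4b_gt.FP.CuL

set_option autoImplicit false

/-!
# FP/K1 (size M): suspension: injectivity of the product with the class of the interval

PROOF. `χ0 t = (st 0 (t 0) : ℚ)` (degree 0, on `Icc (-1) 1`), `e1 = dd one χ0` exactly. `h` gives `c` of degree `q` with `LZ (Y ×ˢ univ ∪ univ ×ˢ ends) c` and `LZ univ (cu (pb fst b) (pb snd e1) - dd one c)`.
`z = cu (pb fst b) (pb snd χ0) - (-1)^q • c` (degree `q + 0`, write it with `cu (Nat.add_zero q)` or any proof of `q + 0 = q`): `LZ (Y ×ˢ univ) z`, and `dd one z` is `LZ univ` (`dd_cu`; `dd one b` is zero near `univ`). Slices: `z (·, 1) = b` up to `LZ univ`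
(`st 0 1 = 1`; `c` is zero near the end points), `z (·, -1)` is `LZ univ` (`st 0 (-1) = 0`). `hty` with `S = univ`, `Z = Y`, `S' = univ`, `Z' = Y ×ˢ univ`, `H s x = (x, max (-1) (min 1 (1 - 2 s)))`: `Cob one univ Y (pb (H 0) z - pb (H 1) z)`, and the argument is `b` up to
`LZ univ` (`Cob.congr`).
-/

open Topology Filter Set PoolFbd

namespace Pool.Agent.Work.MP_6d5d4b_gt.FP

private noncomputable def k1c : Coch (Icc (-1 : ℝ) 1) ℚ 0 := fun t => (st 0 (t 0) : ℚ)

private lemma k1_e1 : dd one k1c = e1 := by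
  funext t
  simp only [dd, k1c, e1, one, Fin.sum_univ_succ, Finset.univ_eq_empty, Finset.sum_empty, one_smul]
  simp
  ring

private noncomputable def k1H {E : Type} (s : ℝ) (x : E) : E × Icc (-1 : ℝ) 1 :=
  (x, projIcc (-1) 1 (by norm_num) (1 - 2 * s))

private lemma k1H_cont {E : Type} [TopologicalSpace E] :
    Continuous (fun p : ℝ × E => k1H p.1 p.2) := by
  unfold k1H
  exact continuous_snd.prodMk (continuous_projIcc.comp (by fun_prop))

private lemma k1H_zero {E : Type} (x : E) : k1H 0 x = (x, ⟨1, by norm_num⟩) := by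
  unfold k1H
  congr 1
  rw [show (1 : ℝ) - 2 * 0 = 1 by ring]
  exact projIcc_right _

private lemma k1H_one {E : Type} (x : E) : k1H 1 x = (x, ⟨-1, by norm_num⟩) := by
  unfold k1H
  congr 1
  rw [show (1 : ℝ) - 2 * 1 = -1 by ring]
  exact projIcc_left _

private lemma k1_zsmul {P : Type} [TopologicalSpace P] {S : Set P} {n : ℕ} {φ : Coch P ℚ n}
    (h : LZ S φ) (r : ℤ) : LZ S (r • φ) := fun x hx => by
  filter_upwards [h x hx] with t a
  simp [a]

theorem susp_inj {E : Type} [MetricSpace E] [CompactSpace E] {Y : Set E} (hY : IsClosed Y) {q : ℕ}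
    {b : Coch E ℚ q} (hb : Coc one univ Y b)
    (h : Cob one univ (Y ×ˢ univ ∪ univ ×ˢ {y : Icc (-1 : ℝ) 1 | (y : ℝ) = -1 ∨ (y : ℝ) = 1})
      (cu (n := q + 1) rfl (pb Prod.fst b) (pb Prod.snd e1) : Coch (E × Icc (-1 : ℝ) 1) ℚ (q + 1))) :
    Cob one univ Y b := by
  obtain ⟨c, hcZ, hcu⟩ := h
  let I : Type := Icc (-1 : ℝ) 1
  set C : Coch (E × I) ℚ q := pb Prod.fst b with hC
  set K : Coch (E × I) ℚ 0 := pb Prod.snd k1c with hK
  have hC1 : LZ univ (dd one C) := by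
    have h1 : dd one C = pb Prod.fst (dd one b) := rfl
    rw [h1]
    exact LZ.pb (S' := univ) (fun x _ => ⟨continuous_fst.continuousAt, mem_univ _⟩) hb.2
  have hCY : LZ (Y ×ˢ (univ : Set I)) C :=
    LZ.pb (S' := Y) (fun x hx => ⟨continuous_fst.continuousAt, hx.1⟩) hb.1
  have hKd : dd one K = pb Prod.snd e1 := by
    rw [← k1_e1]; rfl
  set z : Coch (E × I) ℚ q := cu (Nat.add_zero q) C K - (-1 : ℤ) ^ q • c with hz
  have hzY : LZ (Y ×ˢ (univ : Set I)) z :=
    (cu_left (Nat.add_zero q) hCY K).sub (k1_zsmul (hcZ.mono subset_union_left) _)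
  have hsm : ∀ (r : ℤ) {n : ℕ} (φ : Coch (E × I) ℚ n), dd one (r • φ) = r • dd one φ := by
    intro r n φ
    funext t
    simp only [dd, Pi.smul_apply, one, one_smul, smul_add, Finset.smul_sum]
    congr 1
    refine Finset.sum_congr rfl fun i _ => ?_
    rw [smul_comm]
  have hzd : LZ univ (dd one z) := by
    have h1 : dd one z = cu (q := q + 1) (p := 0) (n := q + 1) (by omega) (dd one C) K +
        (-1 : ℤ) ^ q • (cu (n := q + 1) rfl C (pb Prod.snd e1) - dd one c) := by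
      rw [hz, dd_sub, dd_cu (Nat.add_zero q) (by omega) (by omega) C K, hKd, hsm, smul_sub]
      abel
    rw [h1]
    exact (cu_left _ hC1 K).add (k1_zsmul hcu _)
  have hcob := hty (E := E) (E' := E × I) (A := ℚ) (S := univ) (Z := Y) isCompact_univ hY.isCompact
    (S' := univ) (Z' := Y ×ˢ (univ : Set I)) k1H (fun s _ x _ => k1H_cont.continuousAt)
    (fun s _ x _ => mem_univ _) (fun s _ x hx => ⟨hx, mem_univ _⟩) (φ := z) ⟨hzY, hzd⟩
  refine Cob.congr ?_ hcob
  have hk0 : (k1H 0 : E → E × I) = fun x => (x, ⟨1, by norm_num⟩) := funext k1H_zero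
  have hk1 : (k1H 1 : E → E × I) = fun x => (x, ⟨-1, by norm_num⟩) := funext k1H_one
  have hc0 : LZ univ (pb (k1H 0) c) := by
    refine LZ.pb (S' := (univ : Set E) ×ˢ {y : I | (y : ℝ) = -1 ∨ (y : ℝ) = 1}) ?_
      (hcZ.mono subset_union_right)
    intro x _
    rw [hk0]
    exact ⟨(continuous_id.prodMk continuous_const).continuousAt, mem_univ _, Or.inr rfl⟩
  have hc1 : LZ univ (pb (k1H 1) c) := by
    refine LZ.pb (S' := (univ : Set E) ×ˢ {y : I | (y : ℝ) = -1 ∨ (y : ℝ) = 1}) ?_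
      (hcZ.mono subset_union_right)
    intro x _
    rw [hk1]
    exact ⟨(continuous_id.prodMk continuous_const).continuousAt, mem_univ _, Or.inl rfl⟩
  have h0 : pb (k1H 0) z = b - (-1 : ℤ) ^ q • pb (k1H 0) c := by
    funext t
    have h1 : pb (k1H 0) z t = cu (Nat.add_zero q) C K (fun j => k1H 0 (t j)) -
      (-1 : ℤ) ^ q • c (fun j => k1H 0 (t j)) := rfl
    rw [h1, cu_apply]
    have h2 : C (fun i : Fin (q + 1) => k1H 0 (t ⟨i.1, by omega⟩)) = b t := rfl
    have h3 : K (fun j : Fin (0 + 1) => k1H 0 (t ⟨q + j.1, by omega⟩)) = 1 := by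
      change ((st 0 ((k1H 0 (t _)).2 : ℝ) : ℤ) : ℚ) = 1
      rw [k1H_zero]
      simp [st]
    rw [h2, h3, mul_one]
    rfl
  have h1 : pb (k1H 1) z = - ((-1 : ℤ) ^ q • pb (k1H 1) c) := by
    funext t
    have h1 : pb (k1H 1) z t = cu (Nat.add_zero q) C K (fun j => k1H 1 (t j)) -
      (-1 : ℤ) ^ q • c (fun j => k1H 1 (t j)) := rfl
    rw [h1, cu_apply]
    have h3 : K (fun j : Fin (0 + 1) => k1H 1 (t ⟨q + j.1, by omega⟩)) = 0 := by
      change ((st 0 ((k1H 1 (t _)).2 : ℝ) : ℤ) : ℚ) = 0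
      rw [k1H_one]
      simp [st]
    rw [h3, mul_zero, zero_sub]
    rfl
  rw [h0, h1]
  have h4 : b - (b - (-1 : ℤ) ^ q • pb (k1H 0) c - -((-1 : ℤ) ^ q • pb (k1H 1) c)) =
      (-1 : ℤ) ^ q • pb (k1H 0) c - (-1 : ℤ) ^ q • pb (k1H 1) c := by abel
  rw [h4]
  exact (k1_zsmul hc0 _).sub (k1_zsmul hc1 _)

end Pool.Agent.Work.MP_6d5d4b_gt.FP
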