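import Pool.Agent.Work.MP_6d5d4b_gt.FP.K1

set_option autoImplicit false

/-!
# FP/K2: injectivity of the product with the class of the cube
-/

open Topology Filter Set PoolFbd

namespace Pool.Agent.Work.MP_6d5d4b_gt.FP

private theorem k2_cmap {E A B : Type} [TopologicalSpace E] [AddCommGroup A] [AddCommGroup B]
    {S Z : Set E} {m : ℕ} {φ : Coch E A m} (F : A →+ B) (h : Cob one S Z φ) :
    Cob one S Z (cmap F φ) := by
  have hF : ∀ (g : ℤˣ) (a : A), F (g • a) = g • F a := by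
    intro g a
    rw [Units.smul_def, Units.smul_def, map_zsmul]
  cases m with
  | zero => exact LZ.cmap h F (map_zero F)
  | succ m =>
    obtain ⟨ψ, a, b⟩ := h
    refine ⟨cmap F ψ, a.cmap F (map_zero F), ?_⟩
    rw [dd_cmap one ψ F hF]
    have e : cmap F φ - cmap F (dd one ψ) = cmap F (φ - dd one ψ) := by
      funext t
      simp only [cmap, Pi.sub_apply, map_sub]
    rw [e]
    exact b.cmap F (map_zero F)

private theorem k2_smul {E : Type} [TopologicalSpace E] {S Z : Set E} {m : ℕ} {φ : Coch E ℚ m}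
    (r : ℚ) (h : Cob one S Z φ) : Cob one S Z (r • φ) :=
  k2_cmap (DistribSMul.toAddMonoidHom ℚ r) h

/-- the rational fundamental cocycle -/
private noncomputable def k2_o (m : ℕ) : Coch (Q m) ℚ m := cmap (fun r : ℤ => (r : ℚ)) (om m 0)

private theorem k2_zero (m : ℕ) : ∀ j : Fin m, (0 : Fin m → ℝ) j ∈ Ioo (-1 : ℝ) 1 := by
  intro j
  rw [Pi.zero_apply]
  constructor <;> norm_num

private theorem k2_bd (m : ℕ) : LZ (bd m) (k2_o m) :=
  LZ.cmap (om_bd m (k2_zero m)) _ (by simp)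

private theorem k2_dd (m : ℕ) : dd one (k2_o m) = 0 := by
  have h := dd_cmap (one : Q m → Q m → ℤˣ) (om m 0) (Int.castAddHom ℚ) (by
    intro g a
    rw [Units.smul_def, Units.smul_def, map_zsmul])
  have e : k2_o m = cmap (Int.castAddHom ℚ) (om m 0) := rfl
  rw [e, h, om_dd]
  funext t
  simp [cmap]

private theorem k2_closed (m : ℕ) : IsClosed (bd m) := by
  have e : bd m = ⋃ i : Fin m, {x : Q m | (x i : ℝ) = -1 ∨ (x i : ℝ) = 1} := by
    ext x
    simp [bd]
  rw [e]
  refine isClosed_iUnion_of_finite fun i => ?_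
  have hc : Continuous fun x : Q m => (x i : ℝ) :=
    continuous_subtype_val.comp (continuous_apply i)
  exact (isClosed_eq hc continuous_const).union (isClosed_eq hc continuous_const)

/-- the homeomorphism which splits off the last coordinate -/
private def k2_T {Z : Type} (m : ℕ) (w : (Z × Q m) × Icc (-1 : ℝ) 1) : Z × Q (m + 1) :=
  (w.1.1, Fin.snoc (α := fun _ => Icc (-1 : ℝ) 1) w.1.2 w.2)

private theorem k2_T_cont {Z : Type} [TopologicalSpace Z] (m : ℕ) : Continuous (k2_T (Z := Z) m) := by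
  refine (continuous_fst.comp continuous_fst).prodMk ?_
  refine continuous_pi fun i => ?_
  refine Fin.lastCases ?_ (fun j => ?_) i
  · simp only [Fin.snoc_last]
    exact continuous_snd
  · simp only [Fin.snoc_castSucc]
    exact (continuous_apply j).comp (continuous_snd.comp continuous_fst)

private theorem k2_T_bd {Z : Type} (m : ℕ) (w : (Z × Q m) × Icc (-1 : ℝ) 1)
    (hw : w ∈ (univ ×ˢ bd m) ×ˢ univ ∪ univ ×ˢ {y : Icc (-1 : ℝ) 1 | (y : ℝ) = -1 ∨ (y : ℝ) = 1}) :
    k2_T m w ∈ (univ : Set Z) ×ˢ bd (m + 1) := by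
  refine ⟨mem_univ _, ?_⟩
  rcases hw with hw | hw
  · obtain ⟨i, hi⟩ := hw.1.2
    refine ⟨i.castSucc, ?_⟩
    simpa [k2_T, Fin.snoc_castSucc] using hi
  · refine ⟨Fin.last m, ?_⟩
    simpa [k2_T, Fin.snoc_last] using hw.2

private theorem k2_split {Z : Type} (m q : ℕ) (b : Coch Z ℚ q) :
    pb (k2_T m) (cu (n := q + (m + 1)) rfl (pb Prod.fst b) (pb Prod.snd (k2_o (m + 1))) :
      Coch (Z × Q (m + 1)) ℚ (q + (m + 1))) =
    (cu (n := q + m + 1) rfl
      (pb Prod.fst (cu (n := q + m) rfl (pb Prod.fst b) (pb Prod.snd (k2_o m)) :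
        Coch (Z × Q m) ℚ (q + m))) (pb Prod.snd e1) :
      Coch ((Z × Q m) × Icc (-1 : ℝ) 1) ℚ (q + m + 1)) := by
  funext t
  simp only [pb, cu_apply, k2_o, cmap, e1]
  rw [om_succ]
  have e1 : (fun j : Fin (m + 1) => prq m ((k2_T m (t ⟨q + (j.castSucc : Fin (m + 1 + 1)).1, by
      have := j.2
      simp only [Fin.val_castSucc]
      omega⟩)).2)) = fun j : Fin (m + 1) => (t ⟨q + j.1, by omega⟩).1.2 := by
    funext j i
    simp only [prq, k2_T, Fin.snoc_castSucc, Fin.val_castSucc]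
  have e2 : (fun i : Fin m => (0 : Fin (m + 1) → ℝ) i.castSucc) = 0 := by
    funext i
    simp
  rw [e1, e2]
  simp only [k2_T, Fin.snoc_last, Pi.zero_apply, Fin.val_last, Fin.val_castSucc]
  push_cast
  rw [mul_assoc]
  rfl

theorem om_inj {Z : Type} [MetricSpace Z] [CompactSpace Z] {m q : ℕ} {b : Coch Z ℚ q}
    (hb : LZ univ (dd one b))
    (h : Cob one univ (univ ×ˢ bd m) (cu (n := q + m) rfl (pb Prod.fst b)
      (pb Prod.snd (cmap (fun r : ℤ => (r : ℚ)) (om m 0))) : Coch (Z × Q m) ℚ (q + m))) :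
    Cob one univ ∅ b := by
  change Cob one univ (univ ×ˢ bd m) (cu (n := q + m) rfl (pb Prod.fst b)
      (pb Prod.snd (k2_o m)) : Coch (Z × Q m) ℚ (q + m)) at h
  induction m with
  | zero =>
    have h1 := Cob.pb (τ := one) (S := (univ : Set Z)) (Z := ∅) (S' := univ) (Z' := univ ×ˢ bd 0)
      (f := fun z : Z => (z, (default : Q 0)))
      (fun x _ => ⟨(Continuous.prodMk continuous_id continuous_const).continuousAt, mem_univ _⟩)
      (fun x hx => hx.elim) h
    have e : pb (fun z : Z => (z, (default : Q 0))) (cu (n := q + 0) rfl (pb Prod.fst b)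
        (pb Prod.snd (k2_o 0)) : Coch (Z × Q 0) ℚ (q + 0)) = b := by
      funext t
      simp only [pb, cu_apply, k2_o, cmap, om]
      simp
    rw [e] at h1
    exact h1
  | succ m ih =>
    apply ih
    have hb' : LZ (univ : Set (Z × Q m)) (dd one (pb Prod.fst b : Coch (Z × Q m) ℚ q)) := by
      have : dd one (pb Prod.fst b : Coch (Z × Q m) ℚ q) = pb Prod.fst (dd one b) := rfl
      rw [this]
      exact LZ.pb (fun x _ => ⟨continuous_fst.continuousAt, mem_univ _⟩) hb
    have ho : dd one (pb Prod.snd (k2_o m) : Coch (Z × Q m) ℚ m) = 0 := by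
      have : dd one (pb Prod.snd (k2_o m) : Coch (Z × Q m) ℚ m) = pb Prod.snd (dd one (k2_o m)) :=
        rfl
      rw [this, k2_dd]
      rfl
    refine susp_inj (Y := univ ×ˢ bd m) (isClosed_univ.prod (k2_closed m)) ⟨?_, ?_⟩ ?_
    · refine cu_right _ _ ?_
      exact LZ.pb (fun x hx => ⟨continuous_snd.continuousAt, hx.2⟩) (k2_bd m)
    · refine (cu_coc (S := univ) (Z := ∅) _ ⟨LZ.empty _, hb'⟩ ?_).2
      rw [ho]
      exact LZ.zero _
    · have h1 := Cob.pb (τ := one) (S := (univ : Set ((Z × Q m) × Icc (-1 : ℝ) 1)))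
        (Z := (univ ×ˢ bd m) ×ˢ univ ∪
          univ ×ˢ {y : Icc (-1 : ℝ) 1 | (y : ℝ) = -1 ∨ (y : ℝ) = 1})
        (S' := univ) (Z' := univ ×ˢ bd (m + 1)) (f := k2_T m)
        (fun x _ => ⟨(k2_T_cont m).continuousAt, mem_univ _⟩)
        (fun x hx => ⟨(k2_T_cont m).continuousAt, k2_T_bd m x hx⟩) h
      rw [k2_split] at h1
      exact h1

theorem box_inj {Z : Type} [MetricSpace Z] [CompactSpace Z] {m q : ℕ} {b : Coch Z ℚ q}
    (hb : LZ univ (dd one b)) {θ : Coch (Q m) ℚ m} (hθ : Coc one univ (bd m) θ) (h0 : Itg θ ≠ 0)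
    (h : Cob one univ (univ ×ˢ bd m)
      (cu (n := q + m) rfl (pb Prod.fst b) (pb Prod.snd θ) : Coch (Z × Q m) ℚ (q + m))) :
    Cob one univ ∅ b := by
  apply om_inj (m := m) hb
  change Cob one univ (univ ×ˢ bd m) (cu (n := q + m) rfl (pb Prod.fst b)
      (pb Prod.snd (k2_o m)) : Coch (Z × Q m) ℚ (q + m))
  have hb' : LZ (univ : Set (Z × Q m)) (dd one (pb Prod.fst b : Coch (Z × Q m) ℚ q)) := by
    have : dd one (pb Prod.fst b : Coch (Z × Q m) ℚ q) = pb Prod.fst (dd one b) := rfl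
    rw [this]
    exact LZ.pb (fun x _ => ⟨continuous_fst.continuousAt, mem_univ _⟩) hb
  have h1 := Itg_spec hθ
  have h2 : Cob one univ (univ ×ˢ bd m)
      (pb Prod.snd (θ - smulC (om m 0) (Itg θ)) : Coch (Z × Q m) ℚ m) :=
    Cob.pb (τ := one) (S' := univ) (Z' := bd m)
      (fun x _ => ⟨continuous_snd.continuousAt, mem_univ _⟩)
      (fun x hx => ⟨continuous_snd.continuousAt, hx.2⟩) h1
  have h3 := cu_cob_right' (n := q + m) rfl hb' h2
  have e1 : (cu (n := q + m) rfl (pb Prod.fst b)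
      (pb Prod.snd (θ - smulC (om m 0) (Itg θ))) : Coch (Z × Q m) ℚ (q + m)) =
      cu (n := q + m) rfl (pb Prod.fst b) (pb Prod.snd θ) -
        Itg θ • cu (n := q + m) rfl (pb Prod.fst b) (pb Prod.snd (k2_o m)) := by
    funext t
    simp only [cu_apply, pb, Pi.sub_apply, Pi.smul_apply, smulC, k2_o, cmap, smul_eq_mul,
      zsmul_eq_mul]
    ring
  rw [e1] at h3
  have h4 := h.sub h3
  rw [sub_sub_cancel] at h4
  have h5 := k2_smul (Itg θ)⁻¹ h4
  rw [smul_smul, inv_mul_cancel₀ h0, one_smul] at h5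
  exact h5

end Pool.Agent.Work.MP_6d5d4b_gt.FP
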