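import Pool.Agent.Work.MP_6d5d4b_gt.FP.SphC

set_option autoImplicit false

/-!
# FP/Sa (size M): the fundamental cocycle; linearity of the degree

PROOFS. `dg_add`, `dg_sub`, `dg_map`: `pb rad` and `dd one` are additive (`dd_add`, `dd_sub`, `dd_cmap`) and `Itg_add`, `Itg_sub`, `Itg_map` with `dg_coc`. `dg_smulC`: `smulC g a = cmap F g` for `F : ℤ →+ A`, `r ↦ r • a` (`zmultiplesHom`).
`sa_spec`: it is enough to construct `a` with `LZ univ (dd one a)`, `dg a = 1` (then `h.choose_spec`). Put `n = k + 1`. `o = om n 0` is a relative cocycle of `(univ, bd n)`: see `om_coc`/`OmMove` or `BoxThm` in `MP_fbd21a_gt` (it follows e.g.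
from the facts used for `box_ex`; grep `om n`). `acyc_Q`: `o = dd one ψ` near `univ`, `ψ` of degree `k` (if `k = 0` too: `n = 1`). `a = pb io ψ`: `dd one a = pb io (dd one ψ)` is `LZ univ` since `dd one ψ` is zero near `bd n` (`o` is) and
`io x ∈ bd n`. `pb rad a = pb (io ∘ rad) ψ`. The maps `io ∘ rad` and `id` agree on `bd n` and are continuous at its points, `ψ` is a cocycle near `bd n`: `ret_one` gives `Cob one (bd n) ∅ (pb (io ∘ rad) ψ - ψ)`.
`k ≥ 1`: `= dd one η` near `bd n`; `P = pb rad a - ψ - dd one η` is `LZ (bd n)` and `dd one (pb rad a) - o - dd one P` is `LZ univ`; `k = 0`: `P = pb rad a - ψ` is `LZ (bd n)`. So `dd one (pb rad a) - smulC o 1` is a relative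
coboundary: `Itg_eq` gives `dg a = 1`.
`aq_spec`: `dg (cmap F φ) = F (dg φ)` for `F : ℤ →+ ℚ`.
-/

open Topology Filter Set PoolFbd

namespace Pool.Agent.Work.MP_6d5d4b_gt.FP

variable {A B : Type} [AddCommGroup A] [AddCommGroup B] {k : ℕ}

theorem dg_add {φ ψ : Coch (X k) A k} (hφ : LZ univ (dd one φ)) (hψ : LZ univ (dd one ψ)) :
    dg (φ + ψ) = dg φ + dg ψ := by
  have e : dd one (pb (rad : Q (k + 1) → X k) (φ + ψ)) =
      dd one (pb (rad : Q (k + 1) → X k) φ) + dd one (pb (rad : Q (k + 1) → X k) ψ) :=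
    dd_add one (pb (rad : Q (k + 1) → X k) φ) (pb (rad : Q (k + 1) → X k) ψ)
  unfold dg
  rw [e]
  exact Itg_add (dg_coc hφ) (dg_coc hψ)

theorem dg_sub {φ ψ : Coch (X k) A k} (hφ : LZ univ (dd one φ)) (hψ : LZ univ (dd one ψ)) :
    dg (φ - ψ) = dg φ - dg ψ := by
  have e : dd one (pb (rad : Q (k + 1) → X k) (φ - ψ)) =
      dd one (pb (rad : Q (k + 1) → X k) φ) - dd one (pb (rad : Q (k + 1) → X k) ψ) :=
    dd_sub one (pb (rad : Q (k + 1) → X k) φ) (pb (rad : Q (k + 1) → X k) ψ)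
  unfold dg
  rw [e]
  exact Itg_sub (dg_coc hφ) (dg_coc hψ)

private theorem sa_dd_cmap {E : Type} (F : A →+ B) {n : ℕ} (φ : Coch E A n) :
    dd (one : E → E → ℤˣ) (cmap F φ) = cmap F (dd one φ) :=
  dd_cmap one φ F fun g a => by rw [Units.smul_def, Units.smul_def, map_zsmul]

theorem dg_map (F : A →+ B) {φ : Coch (X k) A k} (hφ : LZ univ (dd one φ)) :
    dg (cmap F φ) = F (dg φ) := by
  have e : dd one (pb (rad : Q (k + 1) → X k) (cmap F φ)) =
      cmap F (dd one (pb (rad : Q (k + 1) → X k) φ)) :=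
    sa_dd_cmap F (pb (rad : Q (k + 1) → X k) φ)
  unfold dg
  rw [e]
  exact Itg_map F (dg_coc hφ)

theorem dg_smulC {g : Coch (X k) ℤ k} (hg : LZ univ (dd one g)) (a : A) : dg (smulC g a) = dg g • a := by
  have e : smulC g a = cmap (zmultiplesHom A a) g := by
    funext t
    simp only [smulC, cmap, zmultiplesHom_apply]
  rw [e, dg_map _ hg, zmultiplesHom_apply]

private theorem sa_ex (k : ℕ) : ∃ a : Coch (X k) ℤ k, LZ univ (dd one a) ∧ dg a = 1 := by
  have ho1 : LZ (bd (k + 1)) (om (k + 1) 0) := om_bd (k + 1) fun i => by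
    rw [Pi.zero_apply]
    constructor <;> norm_num
  have ho2 : LZ univ (dd one (om (k + 1) 0)) := by
    rw [om_dd]
    exact LZ.zero _
  obtain ⟨ψ, -, hψ⟩ : Cob one univ ∅ (om (k + 1) 0) := ((acyc_Q (k + 1)).2 ℤ).2 k _ ho2
  have hb : LZ (bd (k + 1)) (dd one ψ) := (hψ.mono (subset_univ _)).symm.congr ho1
  have hio : ∀ x ∈ (univ : Set (X k)), ContinuousAt io x ∧ io x ∈ bd (k + 1) :=
    fun x _ => ⟨io_cont.continuousAt, io_bd x⟩
  refine ⟨pb io ψ, LZ.pb hio hb, ?_⟩
  have hret : Cob one (bd (k + 1)) ∅ (pb (fun x => io (rad x : X k)) ψ - pb (fun x => x) ψ) := by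
    refine ret_one (S' := bd (k + 1)) (Z' := ∅) ?_ ?_ ?_ ?_ ?_ ⟨LZ.empty _, hb⟩
    · intro x hx
      have hx' : x ∈ bd (k + 1) := by simpa using hx
      have h1 : ContinuousAt (io : X k → Q (k + 1)) (rad x) := io_cont.continuousAt
      exact ContinuousAt.comp (g := io) (f := rad) h1 (rad_cont (bd_ne hx'))
    · intro x _
      exact continuousAt_id
    · intro x hx
      have hx' : x ∈ bd (k + 1) := by simpa using hx
      exact io_rad hx'
    · intro x _
      exact io_bd _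
    · intro x hx
      exact hx.elim
  have hone : smulC (om (k + 1) 0) (1 : ℤ) = om (k + 1) 0 := by
    funext t
    simp only [smulC, smul_eq_mul, mul_one]
  have hrad : pb (rad : Q (k + 1) → X k) (pb io ψ) = pb (fun x => io (rad x : X k)) ψ := rfl
  have hid : pb (fun x : Q (k + 1) => x) ψ = ψ := rfl
  rw [hid] at hret
  unfold dg
  rw [hrad]
  apply Itg_eq
  rw [hone]
  set R := pb (fun x => io (rad x : X k)) ψ with hR
  clear_value R
  clear hR hrad
  cases k with
  | zero =>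
    have h0 : LZ (bd (0 + 1)) (R - ψ) := hret
    refine ⟨R - ψ, h0, ?_⟩
    have e : dd one R - om (0 + 1) 0 - dd one (R - ψ) = dd one ψ - om (0 + 1) 0 := by
      rw [dd_sub]
      abel
    rw [e]
    exact hψ.symm
  | succ m =>
    obtain ⟨η, -, hη⟩ := hret
    refine ⟨R - ψ - dd one η, hη, ?_⟩
    have e : dd one R - om (m + 1 + 1) 0 - dd one (R - ψ - dd one η) =
        (dd one ψ - om (m + 1 + 1) 0) + dd one (dd one η) := by
      rw [dd_sub, dd_sub]
      abel
    rw [e]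
    exact hψ.symm.add (LZ_dd_dd (IsTw.one univ) η)

theorem sa_spec (k : ℕ) : LZ univ (dd one (sa k)) ∧ dg (sa k) = 1 := by
  have h := sa_ex k
  unfold sa
  rw [dif_pos h]
  exact h.choose_spec

theorem aq_spec (k : ℕ) : LZ univ (dd one (aq k)) ∧ dg (aq k) = 1 := by
  obtain ⟨h1, h2⟩ := sa_spec k
  have e : aq k = cmap (Int.castAddHom ℚ) (sa k) := rfl
  constructor
  · rw [e, sa_dd_cmap]
    exact h1.cmap _ (map_zero _)
  · rw [e, dg_map _ h1, h2]
    simp

end Pool.Agent.Work.MP_6d5d4b_gt.FP
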