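import Pool.Agent.Work.MP_6d5d4b_gt.FP.K2
import Pool.Agent.Work.MP_6d5d4b_gt.FP.Sa

set_option autoImplicit false

/-!
# FP/K3: Künneth injectivity for the sphere
-/

open Topology Filter Set PoolFbd

namespace Pool.Agent.Work.MP_6d5d4b_gt.FP

/-- the radial projection of the second factor -/
private noncomputable def k3_R {Z : Type} (k : ℕ) (w : Z × Q (k + 1)) : Z × X k := (w.1, rad w.2)

theorem kun {Z : Type} [MetricSpace Z] [CompactSpace Z] {k q : ℕ} (hk : 1 ≤ k) {b : Coch Z ℚ q}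
    (hb : LZ univ (dd one b))
    (h : Cob one univ ∅ (cu (n := q + k) rfl (pb Prod.fst b) (pb Prod.snd (aq k)) :
      Coch (Z × X k) ℚ (q + k))) : Cob one univ ∅ b := by
  obtain ⟨l, rfl⟩ : ∃ l, k = l + 1 := ⟨k - 1, by omega⟩
  obtain ⟨c, -, hc⟩ : ∃ c : Coch (Z × X (l + 1)) ℚ (q + l), LZ ∅ c ∧
      LZ univ ((cu (n := q + (l + 1)) rfl (pb Prod.fst b) (pb Prod.snd (aq (l + 1))) :
        Coch (Z × X (l + 1)) ℚ (q + (l + 1))) - dd one c) := h
  set θ : Coch (Q (l + 1 + 1)) ℚ (l + 1 + 1) := dd one (pb rad (aq (l + 1))) with hθ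
  have hco : Coc one univ (bd (l + 1 + 1)) θ := dg_coc (aq_spec (l + 1)).1
  have hI : Itg θ = 1 := (aq_spec (l + 1)).2
  refine box_inj (m := l + 1 + 1) hb hco (by rw [hI]; exact one_ne_zero) ?_
  have hb' : LZ (univ : Set (Z × Q (l + 1 + 1)))
      (dd one (pb Prod.fst b : Coch (Z × Q (l + 1 + 1)) ℚ q)) := by
    have : dd one (pb Prod.fst b : Coch (Z × Q (l + 1 + 1)) ℚ q) = pb Prod.fst (dd one b) := rfl
    rw [this]
    exact LZ.pb (fun x _ => ⟨continuous_fst.continuousAt, mem_univ _⟩) hb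
  set u : Coch (Z × Q (l + 1 + 1)) ℚ (q + (l + 1)) :=
    cu (n := q + (l + 1)) rfl (pb Prod.fst b) (pb Prod.snd (pb rad (aq (l + 1)))) with hu
  set P : Coch (Z × Q (l + 1 + 1)) ℚ (q + (l + 1)) := u - dd one (pb (k3_R (l + 1)) c) with hP
  have hP1 : LZ (univ ×ˢ bd (l + 1 + 1)) P := by
    have e : P = pb (k3_R (l + 1)) ((cu (n := q + (l + 1)) rfl (pb Prod.fst b)
        (pb Prod.snd (aq (l + 1))) : Coch (Z × X (l + 1)) ℚ (q + (l + 1))) - dd one c) := rfl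
    rw [e]
    refine LZ.pb (fun x hx => ⟨?_, mem_univ _⟩) hc
    have h1 : ContinuousAt (fun w : Z × Q (l + 1 + 1) => (rad w.2 : X (l + 1))) x :=
      ContinuousAt.comp (f := Prod.snd) (rad_cont (bd_ne hx.2)) continuous_snd.continuousAt
    exact continuous_fst.continuousAt.prodMk h1
  have hP2 : LZ univ (dd one P - (-1 : ℤ) ^ q • (cu (n := q + (l + 1 + 1)) rfl (pb Prod.fst b)
      (pb Prod.snd θ) : Coch (Z × Q (l + 1 + 1)) ℚ (q + (l + 1 + 1)))) := by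
    rw [hP, dd_sub]
    have e1 : dd one u = cu (by omega) (dd one (pb Prod.fst b : Coch (Z × Q (l + 1 + 1)) ℚ q))
        (pb Prod.snd (pb rad (aq (l + 1)))) + (-1 : ℤ) ^ q •
          cu (n := q + (l + 1) + 1) (by omega) (pb Prod.fst b)
            (dd one (pb Prod.snd (pb rad (aq (l + 1))) :
              Coch (Z × Q (l + 1 + 1)) ℚ (l + 1))) := dd_cu _ _ _ _ _
    have e2 : dd one (pb Prod.snd (pb rad (aq (l + 1))) : Coch (Z × Q (l + 1 + 1)) ℚ (l + 1)) =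
        pb Prod.snd θ := rfl
    rw [e1, e2]
    have h1 : LZ univ (cu (n := q + (l + 1) + 1) (by omega)
        (dd one (pb Prod.fst b : Coch (Z × Q (l + 1 + 1)) ℚ q))
        (pb Prod.snd (pb rad (aq (l + 1))))) := cu_left _ hb' _
    have h2 : LZ univ (dd one (dd one (pb (k3_R (l + 1)) c))) := LZ_dd_dd (IsTw.one univ) _
    have h3 := h1.sub h2
    have key : ∀ A B C : Coch (Z × Q (l + 1 + 1)) ℚ (q + (l + 1) + 1), A + B - C - B = A - C :=
      fun A B C => by abel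
    exact (congrArg (LZ univ) (key _ _ _)).mpr h3
  change ∃ ψ : Coch (Z × Q (l + 1 + 1)) ℚ (q + (l + 1)), LZ (univ ×ˢ bd (l + 1 + 1)) ψ ∧
    LZ univ ((cu (n := q + (l + 1 + 1)) rfl (pb Prod.fst b)
      (pb Prod.snd θ) : Coch (Z × Q (l + 1 + 1)) ℚ (q + (l + 1 + 1))) - dd one ψ)
  rcases neg_one_pow_eq_or ℤ q with hs | hs
  · refine ⟨P, hP1, ?_⟩
    rw [hs, one_smul] at hP2
    exact hP2.symm
  · refine ⟨-P, hP1.neg, ?_⟩
    rw [hs, neg_one_smul, sub_neg_eq_add] at hP2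
    rw [dd_neg, sub_neg_eq_add]
    have key : ∀ A B : Coch (Z × Q (l + 1 + 1)) ℚ (q + (l + 1) + 1), A + B = B + A :=
      fun A B => add_comm A B
    exact (congrArg (LZ univ) (key _ _)).mpr hP2

end Pool.Agent.Work.MP_6d5d4b_gt.FP
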