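import Mathlib

set_option autoImplicit false

/-! Definitions for the final statements (spheres, balls, coordinate projections). FIXED. -/

namespace Pool.Agent.Work.MP_6d5d4b_gt.FP

/-- `A` is homeomorphic to the sphere `S^k`. -/
def IsSph (k : ℕ) {Y : Type} [TopologicalSpace Y] (A : Set Y) : Prop :=
  Nonempty (A ≃ₜ Metric.sphere (0 : EuclideanSpace ℝ (Fin (k + 1))) 1)

/-- `A` is homeomorphic to the closed ball `B^k`. -/
def IsBall (k : ℕ) {Y : Type} [TopologicalSpace Y] (A : Set Y) : Prop :=
  Nonempty (A ≃ₜ Metric.closedBall (0 : EuclideanSpace ℝ (Fin k)) 1)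

/-- The orthogonal projection onto the `i`-th coordinate hyperplane: replace the `i`-th coordinate by `0`. -/
noncomputable def proj {d : ℕ} (i : Fin d) (x : EuclideanSpace ℝ (Fin d)) : EuclideanSpace ℝ (Fin d) :=
  WithLp.toLp 2 (Function.update (WithLp.ofLp x) i 0)

end Pool.Agent.Work.MP_6d5d4b_gt.FP
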