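import Pool.Agent.Work.MP_6d5d4b_gt.FP.Fold
import Pool.Agent.Work.MP_6d5d4b_gt.FP.Chart
import Pool.Agent.Work.MP_6d5d4b_gt.FP.SDefs

set_option autoImplicit false

/-!
# FP/Main1 (size M): common fold points of ball shadows

PROOF. `h : A ≃ₜ sphere` and `sphere_homeo` give a homeomorphism `g : X k ≃ₜ A`. For `i ∈ J` let `β : (proj i '' A) ≃ₜ closedBall`. `F_i s = Fin.snoc (fun l => (β ⟨proj i (g s), _⟩ : EuclideanSpace ..) l) ((g s : EuclideanSpace ..) i) : Fin (k+1) → ℝ` is continuous and injective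
(`β` is injective, so `proj i (g s) = proj i (g t)`, and the coordinate `i` agrees too). Let `N + 1 = J.card`, `σ : Fin (N+1) ≃ J` (`J.equivFin`), `F n = F_(σ (Fin.ofNat (N+1) n))`. `fold`: `p : Fin (N+1) → X k` with `(p j, p (j+1)) ∈ fol (F j)`. `fol F_i` is contained in the
closed set `{(s, t) | proj i (g s) = proj i (g t)}` (`closure_minimal`; the coordinates `castSucc l` of `F_i` are those of `β ⟨proj i (g s), _⟩`). So `g (p (j+1)) - g (p j) = c_j e_(σ j)`; the sum over the cycle `j : Fin (N+1)` is `0`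
(`Equiv.sum_comp` for `j ↦ j + 1`), look at the coordinate `σ j`: `c_j = 0` (`σ` injective). So `p (j+1) = p j` for all `j`, all `p j = x`. `(x, x) ∈ fol (F_i)` for all `i ∈ J`: for a neighbourhood `U` of `g x` in the ambient space, `(g ⁻¹' U) ×ˢ (g ⁻¹' U)` is a
neighbourhood of `(x, x)`, so it contains a pair `s ≠ t` with `F_i s`, `F_i t` equal in the coordinates `castSucc l`, i.e. `proj i (g s) = proj i (g t)`: `proj i` is not injective on `U ∩ A`.
-/

open Topology Filter Set PoolFbd

namespace Pool.Agent.Work.MP_6d5d4b_gt.FP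

private theorem main1_proj_cont {d : ℕ} (i : Fin d) : Continuous (proj i) :=
  (PiLp.continuous_toLp 2 _).comp ((PiLp.continuous_ofLp 2 _).update i continuous_const)

private theorem main1_proj_eq {d : ℕ} {i : Fin d} {x y : EuclideanSpace ℝ (Fin d)}
    (h : proj i x = proj i y) (j : Fin d) (hj : j ≠ i) : x j = y j := by
  have h1 := congrArg (fun v : EuclideanSpace ℝ (Fin d) => v j) h
  simpa [proj, Function.update_of_ne hj] using h1

theorem common_fold {k d : ℕ} (hk : 1 ≤ k) {A : Set (EuclideanSpace ℝ (Fin d))} (hA : IsSph k A)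
    {J : Finset (Fin d)} (hJ : J.Nonempty) (hpar : Even (J.card + k)) (hB : ∀ i ∈ J, IsBall k (proj i '' A)) :
    ∃ p ∈ A, ∀ i ∈ J, ∀ U ∈ 𝓝 p, ¬ InjOn (proj i) (U ∩ A) := by
  classical
  obtain ⟨h0⟩ := hA
  obtain ⟨h1⟩ := sphere_homeo k
  let g : X k ≃ₜ A := (h0.trans h1).symm
  obtain ⟨N, hN⟩ : ∃ N, J.card = N + 1 :=
    ⟨J.card - 1, (Nat.succ_pred_eq_of_pos (Finset.card_pos.2 hJ)).symm⟩
  let σ : Fin (N + 1) ≃ J := (J.equivFinOfCardEq hN).symm
  let β : ∀ j : J, (proj j.1 '' A) ≃ₜ Metric.closedBall (0 : EuclideanSpace ℝ (Fin k)) 1 :=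
    fun j => (hB j.1 j.2).some
  let γ : ∀ j : J, X k → EuclideanSpace ℝ (Fin k) := fun j s =>
    (β j ⟨proj j.1 (g s).1, mem_image_of_mem _ (g s).2⟩).1
  have hγc : ∀ j, Continuous (γ j) := fun j =>
    continuous_subtype_val.comp ((β j).continuous.comp
      (((main1_proj_cont j.1).comp (continuous_subtype_val.comp g.continuous)).subtype_mk _))
  have hγ : ∀ (j : J) (s t : X k), (∀ l, γ j s l = γ j t l) →
      proj j.1 (g s).1 = proj j.1 (g t).1 := by
    intro j s t h
    have h2 : γ j s = γ j t := by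
      ext l
      exact h l
    have h3 := (β j).injective (Subtype.ext h2)
    exact congrArg Subtype.val h3
  let G : J → X k → (Fin (k + 1) → ℝ) := fun j s =>
    Fin.snoc (α := fun _ => ℝ) (fun l : Fin k => γ j s l) ((g s).1 j.1)
  have hG1 : ∀ (j : J) (s : X k) (l : Fin k), G j s l.castSucc = γ j s l := fun j s l =>
    Fin.snoc_castSucc (α := fun _ => ℝ) _ _ _
  have hG2 : ∀ (j : J) (s : X k), G j s (Fin.last k) = (g s).1 j.1 := fun j s =>
    Fin.snoc_last (α := fun _ => ℝ) _ _
  have hGc : ∀ j, Continuous (G j) := by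
    intro j
    refine continuous_pi fun m => ?_
    refine Fin.lastCases ?_ (fun l => ?_) m
    · simp only [hG2]
      exact (EuclideanSpace.proj j.1).continuous.comp (continuous_subtype_val.comp g.continuous)
    · simp only [hG1]
      exact (EuclideanSpace.proj l).continuous.comp (hγc j)
  have hGi : ∀ j, Function.Injective (G j) := by
    intro j s t h
    have h2 : proj j.1 (g s).1 = proj j.1 (g t).1 := hγ j s t fun l => by
      rw [← hG1, ← hG1, h]
    have h3 : (g s).1 j.1 = (g t).1 j.1 := by rw [← hG2, ← hG2, h]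
    apply g.injective
    apply Subtype.ext
    ext m
    by_cases hm : m = j.1
    · rw [hm]
      exact h3
    · exact main1_proj_eq h2 m hm
  have hfol : ∀ (j : J) (q : X k × X k), q ∈ fol (G j) →
      proj j.1 (g q.1).1 = proj j.1 (g q.2).1 := by
    intro j q hq
    have hcl : IsClosed {q : X k × X k | proj j.1 (g q.1).1 = proj j.1 (g q.2).1} :=
      isClosed_eq ((main1_proj_cont j.1).comp
          (continuous_subtype_val.comp (g.continuous.comp continuous_fst)))
        ((main1_proj_cont j.1).comp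
          (continuous_subtype_val.comp (g.continuous.comp continuous_snd)))
    refine closure_minimal ?_ hcl hq
    rintro q ⟨-, h2⟩
    refine hγ j q.1 q.2 fun l => ?_
    rw [← hG1, ← hG1]
    exact h2 l
  obtain ⟨p, hp⟩ := fold hk (by rw [← hN]; exact hpar)
    (F := fun n => G (σ (Fin.ofNat (N + 1) n))) (fun n => hGc _) (fun n => hGi _)
  have hp' : ∀ j : Fin (N + 1), (p j, p (j + 1)) ∈ fol (G (σ j)) := by
    intro j
    have h2 := hp j
    have h3 : Fin.ofNat (N + 1) (j : ℕ) = j := by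
      apply Fin.ext
      simp [Fin.ofNat, Nat.mod_eq_of_lt j.2]
    simpa only [h3] using h2
  have hpr : ∀ j : Fin (N + 1), proj (σ j).1 (g (p j)).1 = proj (σ j).1 (g (p (j + 1))).1 :=
    fun j => hfol _ _ (hp' j)
  have hstep : ∀ j : Fin (N + 1), p (j + 1) = p j := by
    intro j
    apply g.injective
    apply Subtype.ext
    ext m
    by_cases hm : m = (σ j).1
    · have hs : ∑ l : Fin (N + 1), ((g (p (l + 1))).1 m - (g (p l)).1 m) = 0 := by
        rw [Finset.sum_sub_distrib, sub_eq_zero]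
        exact Equiv.sum_comp (Equiv.addRight (1 : Fin (N + 1))) fun l => (g (p l)).1 m
      have hs2 : ∑ l : Fin (N + 1), ((g (p (l + 1))).1 m - (g (p l)).1 m) =
          (g (p (j + 1))).1 m - (g (p j)).1 m := by
        refine Finset.sum_eq_single j (fun l _ hl => ?_) (fun h => absurd (Finset.mem_univ _) h)
        rw [sub_eq_zero]
        refine (main1_proj_eq (hpr l) m fun h => hl ?_).symm
        apply σ.injective
        apply Subtype.ext
        rw [← h, hm]
      rw [hs2, sub_eq_zero] at hs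
      exact hs
    · exact (main1_proj_eq (hpr j) m hm).symm
  have hconst : ∀ j : Fin (N + 1), p j = p 0 := by
    have h2 : ∀ n : ℕ, ∀ h : n < N + 1, p ⟨n, h⟩ = p 0 := by
      intro n
      induction n with
      | zero => intro h; rfl
      | succ n ih =>
        intro h
        have h3 : (⟨n + 1, h⟩ : Fin (N + 1)) = ⟨n, by omega⟩ + 1 := by
          apply Fin.ext
          rcases Nat.eq_zero_or_pos N with hN0 | hN0
          · omega
          · rw [Fin.val_add]
            have h4 : ((1 : Fin (N + 1)) : ℕ) = 1 := by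
              obtain ⟨M, rfl⟩ : ∃ M, N = M + 1 := ⟨N - 1, by omega⟩
              rfl
            rw [h4]
            exact (Nat.mod_eq_of_lt h).symm
        rw [h3, hstep, ih]
    exact fun j => h2 j.1 j.2
  refine ⟨(g (p 0)).1, (g (p 0)).2, fun i hi U hU hinj => ?_⟩
  have hx : (p 0, p 0) ∈ fol (G ⟨i, hi⟩) := by
    have h2 := hp' (σ.symm ⟨i, hi⟩)
    rwa [hconst (σ.symm ⟨i, hi⟩ + 1), hconst (σ.symm ⟨i, hi⟩), Equiv.apply_symm_apply] at h2
  have hU' : (fun s : X k => (g s).1) ⁻¹' U ∈ 𝓝 (p 0) :=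
    (continuous_subtype_val.comp g.continuous).continuousAt.preimage_mem_nhds hU
  obtain ⟨q, ⟨hq1, hq2⟩, hq3, hq4⟩ := mem_closure_iff_nhds.1 hx _ (prod_mem_nhds hU' hU')
  have h2 : proj i (g q.1).1 = proj i (g q.2).1 := hγ ⟨i, hi⟩ q.1 q.2 fun l => by
    rw [← hG1, ← hG1]
    exact hq4 l
  exact hq3 (g.injective (Subtype.ext (hinj ⟨hq1, (g q.1).2⟩ ⟨hq2, (g q.2).2⟩ h2)))

end Pool.Agent.Work.MP_6d5d4b_gt.FP
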