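import Pool.Agent.Work.MP_6d5d4b_gt.FP.Main1

set_option autoImplicit false

/-!
# FP/Main2 (size M): at most `k + 1` shadows are balls under a bound for the secant directions

PROOF. Suppose more than `k + 1` coordinates have ball shadows; take a set `J` of exactly `k + 2` of them. `common_fold` (`k + 2 + k` is even): `p`. Take `T, L, δ` for `p`. For `i ∈ J` there are distinct `s, t ∈ A ∩ ball p δ` with `proj i s = proj i t`, so
`s - t = c • e_i`, `c ≠ 0`, and `hT` gives `‖e_i - P e_i‖ ≤ L` after division by `|c|`, `P` the orthogonal projection to `T` (`P (c e_i) = c P e_i`). `‖P e_i‖² = 1 - ‖e_i - P e_i‖² ≥ 1 - L²` (Pythagoras). `∑_i ‖P e_i‖² ≤ finrank T`: with an orthonormal basis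
`u_j` of `T` (`stdOrthonormalBasis`), `‖P e_i‖² = ∑_j ⟪u_j, e_i⟫²` and `∑_i ⟪u_j, e_i⟫² ≤ ‖u_j‖² = 1` (sum over `i ∈ J` of the squares of the coordinates). So `(k + 2) (1 - L²) ≤ finrank T`, contradiction to `hL`.
`at_most_paratangent`: the hypothesis of `at_most` holds with `L² < 1 / (k + 2)`, e.g. `L = 1 / (k + 2)`, as `finrank T ≤ k + 1`.
-/

open Topology Filter Set PoolFbd

namespace Pool.Agent.Work.MP_6d5d4b_gt.FP


private theorem proj_bound {d : ℕ} (T : Submodule ℝ (EuclideanSpace ℝ (Fin d)))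
    (v : EuclideanSpace ℝ (Fin d)) {L : ℝ}
    (h : Metric.infDist v T ≤ L * ‖v‖) :
    (1 - L ^ 2) * ‖v‖ ^ 2 ≤
      ∑ j, (inner ℝ ((stdOrthonormalBasis ℝ T j : T) : EuclideanSpace ℝ (Fin d)) v) ^ 2 := by
  have h1 : ‖v - T.starProjection v‖ ≤ L * ‖v‖ := by
    rw [Submodule.starProjection_minimal]
    rw [Metric.infDist_eq_iInf] at h
    simpa [dist_eq_norm] using h
  have h2 : ‖v‖ ^ 2 = ‖T.orthogonalProjectionOnto v‖ ^ 2 + ‖v - T.starProjection v‖ ^ 2 := by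
    have h3 := Submodule.norm_sq_eq_add_norm_sq_projection v T
    have h4 : ‖Tᗮ.orthogonalProjectionOnto v‖ = ‖v - T.starProjection v‖ := by
      have h5 := T.starProjection_add_starProjection_orthogonal v
      have h6 : v - T.starProjection v = Tᗮ.starProjection v := by
        rw [eq_comm, eq_sub_iff_add_eq, add_comm]; exact h5
      rw [h6]
      rfl
    rw [h4] at h3
    exact h3
  have h3 : ∑ j, (inner ℝ ((stdOrthonormalBasis ℝ T j : T) : EuclideanSpace ℝ (Fin d)) v) ^ 2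
      = ‖T.orthogonalProjectionOnto v‖ ^ 2 := by
    rw [← (stdOrthonormalBasis ℝ T).sum_sq_norm_inner_right (T.orthogonalProjectionOnto v)]
    refine Finset.sum_congr rfl fun j _ => ?_
    rw [Submodule.inner_orthogonalProjectionOnto_eq_of_mem_left, Real.norm_eq_abs, sq_abs]
  rw [h3]
  have h4 : ‖v - T.starProjection v‖ ^ 2 ≤ (L * ‖v‖) ^ 2 :=
    pow_le_pow_left₀ (norm_nonneg _) h1 2
  nlinarith [h4, h2]

private theorem proj_apply_ne {d : ℕ} {i l : Fin d} (hl : l ≠ i) (x : EuclideanSpace ℝ (Fin d)) :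
    proj i x l = x l := by
  simp [proj, Function.update_of_ne hl]

/-- Quantitative form. -/
theorem at_most {k d : ℕ} (hk : 1 ≤ k) {A : Set (EuclideanSpace ℝ (Fin d))} (hA : IsSph k A)
    (hT : ∀ p ∈ A, ∃ (T : Submodule ℝ (EuclideanSpace ℝ (Fin d))) (L δ : ℝ), 0 < δ ∧
      ((Module.finrank ℝ T : ℝ) < (k + 2) * (1 - L ^ 2)) ∧ 0 ≤ L ∧
      ∀ s ∈ A ∩ Metric.ball p δ, ∀ t ∈ A ∩ Metric.ball p δ, Metric.infDist (s - t) T ≤ L * ‖s - t‖)
    (J : Finset (Fin d)) (hB : ∀ i ∈ J, IsBall k (proj i '' A)) : J.card ≤ k + 1 := by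
  by_contra hJ
  obtain ⟨J', hJJ, hc⟩ := Finset.exists_subset_card_eq (show k + 2 ≤ J.card by omega)
  have hne : J'.Nonempty := by
    rw [← Finset.card_pos, hc]; omega
  obtain ⟨p, hp, hf⟩ := common_fold hk hA hne (by rw [hc]; exact ⟨k + 1, by ring⟩)
    fun i hi => hB i (hJJ hi)
  obtain ⟨T, L, δ, hδ, hL, hL0, hs⟩ := hT p hp
  set u : Fin (Module.finrank ℝ T) → EuclideanSpace ℝ (Fin d) := fun j =>
    ((stdOrthonormalBasis ℝ T j : T) : EuclideanSpace ℝ (Fin d)) with hu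
  have key : ∀ i ∈ J', 1 - L ^ 2 ≤ ∑ j, (u j i) ^ 2 := by
    intro i hi
    have h1 := hf i hi (Metric.ball p δ) (Metric.ball_mem_nhds p hδ)
    simp only [InjOn, not_forall] at h1
    obtain ⟨s, hs1, t, ht1, hst, hne'⟩ := h1
    have h2 : s - t = (s i - t i) • EuclideanSpace.single i (1 : ℝ) := by
      ext l
      by_cases hl : l = i
      · subst hl
        simp
      · have h3 : proj i s l = proj i t l := by rw [hst]
        rw [proj_apply_ne hl, proj_apply_ne hl] at h3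
        simp [hl, h3]
    have hc0 : s i - t i ≠ 0 := by
      intro h0
      apply hne'
      rw [← sub_eq_zero, h2, h0, zero_smul]
    have h3 := proj_bound T (s - t) (hs s ⟨hs1.2, hs1.1⟩ t ⟨ht1.2, ht1.1⟩)
    have h4 : ‖s - t‖ ^ 2 = (s i - t i) ^ 2 := by
      rw [h2, norm_smul]
      simp
    have h5 : ∀ j, (inner ℝ ((stdOrthonormalBasis ℝ T j : T) : EuclideanSpace ℝ (Fin d)) (s - t)) ^ 2
        = (s i - t i) ^ 2 * (u j i) ^ 2 := by
      intro j
      rw [h2, inner_smul_right]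
      have h6 : inner ℝ ((stdOrthonormalBasis ℝ T j : T) : EuclideanSpace ℝ (Fin d))
          (EuclideanSpace.single i (1 : ℝ)) = u j i := by
        rw [EuclideanSpace.inner_single_right]
        simp [hu]
      rw [h6]; ring
    rw [h4, Finset.sum_congr rfl fun j _ => h5 j, ← Finset.mul_sum, mul_comm (1 - L ^ 2)] at h3
    exact le_of_mul_le_mul_left h3 (by positivity)
  have h1 : ((k : ℝ) + 2) * (1 - L ^ 2) ≤ ∑ i ∈ J', ∑ j, (u j i) ^ 2 := by
    have h2 := Finset.card_nsmul_le_sum J' (fun i => ∑ j, (u j i) ^ 2) (1 - L ^ 2) key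
    rw [hc, nsmul_eq_mul] at h2
    push_cast at h2
    exact h2
  rw [Finset.sum_comm] at h1
  have h2 : ∀ j, ∑ i ∈ J', (u j i) ^ 2 ≤ 1 := by
    intro j
    have h3 : ‖u j‖ = 1 := by
      have h4 := (stdOrthonormalBasis ℝ T).orthonormal.1 j
      exact h4
    have h4 : ‖u j‖ ^ 2 = ∑ i, (u j i) ^ 2 := by
      rw [EuclideanSpace.norm_sq_eq]
      refine Finset.sum_congr rfl fun i _ => ?_
      rw [Real.norm_eq_abs, sq_abs]
    rw [h3] at h4
    calc ∑ i ∈ J', (u j i) ^ 2 ≤ ∑ i, (u j i) ^ 2 :=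
          Finset.sum_le_sum_of_subset_of_nonneg (Finset.subset_univ _) fun _ _ _ => sq_nonneg _
      _ = 1 := by rw [← h4]; norm_num
  have h3 : ∑ j, ∑ i ∈ J', (u j i) ^ 2 ≤ (Module.finrank ℝ T : ℝ) := by
    calc ∑ j, ∑ i ∈ J', (u j i) ^ 2 ≤ ∑ _j : Fin (Module.finrank ℝ T), (1 : ℝ) :=
          Finset.sum_le_sum fun j _ => h2 j
      _ = _ := by simp
  linarith

theorem at_most_paratangent {k d : ℕ} (hk : 1 ≤ k) {A : Set (EuclideanSpace ℝ (Fin d))} (hA : IsSph k A)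
    (hT : ∀ p ∈ A, ∃ T : Submodule ℝ (EuclideanSpace ℝ (Fin d)), Module.finrank ℝ T ≤ k + 1 ∧
      ∀ ε > 0, ∃ δ > 0, ∀ s ∈ A ∩ Metric.ball p δ, ∀ t ∈ A ∩ Metric.ball p δ,
        Metric.infDist (s - t) T ≤ ε * ‖s - t‖)
    (J : Finset (Fin d)) (hB : ∀ i ∈ J, IsBall k (proj i '' A)) : J.card ≤ k + 1 := by
  refine at_most hk hA (fun p hp => ?_) J hB
  obtain ⟨T, hT1, hT2⟩ := hT p hp
  have hk2 : (0 : ℝ) < (k : ℝ) + 2 := by positivity
  obtain ⟨δ, hδ, h⟩ := hT2 (1 / ((k : ℝ) + 2)) (by positivity)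
  refine ⟨T, 1 / ((k : ℝ) + 2), δ, hδ, ?_, by positivity, h⟩
  have h1 : (Module.finrank ℝ T : ℝ) ≤ (k : ℝ) + 1 := by exact_mod_cast hT1
  have h2 : ((k : ℝ) + 2) * (1 - (1 / ((k : ℝ) + 2)) ^ 2) = (k : ℝ) + 2 - 1 / ((k : ℝ) + 2) := by
    field_simp
  rw [h2]
  have h3 : 1 / ((k : ℝ) + 2) < 1 := by
    rw [div_lt_one hk2]
    have : (0 : ℝ) ≤ k := Nat.cast_nonneg k
    linarith
  linarith

end Pool.Agent.Work.MP_6d5d4b_gt.FP
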