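import Pool.Agent.Work.MP_6d5d4b_gt.FP.Main2

set_option autoImplicit false

/-!
# FP/Main3 (size M): spheres which are locally contained in a `C¹` submanifold of dimension `k + 1`

PROOF. `at_most_paratangent` with `T = ker g'`. Dimension: `finrank (ker g') + finrank (range g') = d` (rank-nullity, `LinearMap.finrank_range_add_finrank_ker`), `range g' = ⊤`, so `finrank T ≤ k + 1` by `hdim`. Given `ε > 0`: there is `c > 0` with
`c * infDist v T ≤ ‖g' v‖` for all `v`: e.g. `ContinuousLinearMap.exists_preimage_norm_le` (open mapping; `g'` surjective between complete spaces): for `y = g' v` there is `u` with `g' u = y`, `‖u‖ ≤ C ‖y‖`, so `v - u ∈ T` and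
`infDist v T ≤ ‖u‖ ≤ C ‖g' v‖`. Strict differentiability (`HasStrictFDerivAt`, `isLittleO`): for `s, t` near `p`: `‖g s - g t - g' (s - t)‖ ≤ (ε / C) ‖s - t‖`, and `g s = g t = 0` for `s, t ∈ A` near `p`.
-/

open Topology Filter Set PoolFbd

namespace Pool.Agent.Work.MP_6d5d4b_gt.FP

private theorem par {d r : ℕ} {A : Set (EuclideanSpace ℝ (Fin d))} {p : EuclideanSpace ℝ (Fin d)}
    (g : EuclideanSpace ℝ (Fin d) → EuclideanSpace ℝ (Fin r))
    (g' : EuclideanSpace ℝ (Fin d) →L[ℝ] EuclideanSpace ℝ (Fin r)) (hg : HasStrictFDerivAt g g' p)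
    (hs : Function.Surjective g') (h0 : ∀ᶠ x in 𝓝 p, x ∈ A → g x = 0) (ε : ℝ) (hε : 0 < ε) :
    ∃ δ > 0, ∀ s ∈ A ∩ Metric.ball p δ, ∀ t ∈ A ∩ Metric.ball p δ,
        Metric.infDist (s - t) (LinearMap.ker (g' : EuclideanSpace ℝ (Fin d) →ₗ[ℝ] EuclideanSpace ℝ (Fin r))) ≤
          ε * ‖s - t‖ := by
  obtain ⟨C, hC0, hC⟩ := g'.exists_preimage_norm_le hs
  have h1 := (hasStrictFDerivAt_iff_isLittleO.mp hg).def (div_pos hε hC0)
  rw [nhds_prod_eq] at h1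
  have h2 : ∀ᶠ q in 𝓝 p ×ˢ 𝓝 p, (q.1 ∈ A → g q.1 = 0) ∧ (q.2 ∈ A → g q.2 = 0) :=
    (h0.prod_inl _).and (h0.prod_inr _)
  have h3 := h1.and h2
  rw [← nhds_prod_eq, Metric.eventually_nhds_iff] at h3
  obtain ⟨δ, hδ, h4⟩ := h3
  refine ⟨δ, hδ, fun s hs' t ht' => ?_⟩
  have h5 := h4 (y := (s, t)) (by rw [Prod.dist_eq]; exact max_lt hs'.2 ht'.2)
  obtain ⟨h6, h7, h8⟩ := h5
  have e1 : g s = 0 := h7 hs'.1
  have e2 : g t = 0 := h8 ht'.1
  obtain ⟨u, hu, hul⟩ := hC (g' (s - t))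
  have h9 : (s - t - u) ∈ (LinearMap.ker (g' : EuclideanSpace ℝ (Fin d) →ₗ[ℝ] EuclideanSpace ℝ (Fin r))) := by
    rw [LinearMap.mem_ker]
    show g' (s - t - u) = 0
    rw [map_sub, hu, sub_self]
  have h10 : ‖g' (s - t)‖ ≤ ε / C * ‖s - t‖ := by
    have := h6
    simp only [e1, e2] at this
    rw [sub_self, zero_sub, norm_neg] at this
    exact this
  refine (Metric.infDist_le_dist_of_mem (SetLike.mem_coe.mpr h9)).trans ?_
  rw [dist_eq_norm, sub_sub_cancel]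
  calc ‖u‖ ≤ C * ‖g' (s - t)‖ := hul
    _ ≤ C * (ε / C * ‖s - t‖) := mul_le_mul_of_nonneg_left h10 hC0.le
    _ = ε * ‖s - t‖ := by field_simp

private theorem fr {d r k : ℕ} (g' : EuclideanSpace ℝ (Fin d) →L[ℝ] EuclideanSpace ℝ (Fin r))
    (hs : Function.Surjective g') (hd : d ≤ k + 1 + r) :
    Module.finrank ℝ (LinearMap.ker (g' : EuclideanSpace ℝ (Fin d) →ₗ[ℝ] EuclideanSpace ℝ (Fin r))) ≤ k + 1 := by
  have h1 := LinearMap.finrank_range_add_finrank_ker (g' : EuclideanSpace ℝ (Fin d) →ₗ[ℝ] EuclideanSpace ℝ (Fin r))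
  have h2 : LinearMap.range (g' : EuclideanSpace ℝ (Fin d) →ₗ[ℝ] EuclideanSpace ℝ (Fin r)) = ⊤ :=
    LinearMap.range_eq_top.mpr hs
  rw [h2, finrank_top, finrank_euclideanSpace_fin, finrank_euclideanSpace_fin] at h1
  omega

theorem at_most_submanifold {k d : ℕ} (hk : 1 ≤ k) {A : Set (EuclideanSpace ℝ (Fin d))} (hA : IsSph k A)
    (hM : ∀ p ∈ A, ∃ (r : ℕ) (g : EuclideanSpace ℝ (Fin d) → EuclideanSpace ℝ (Fin r))
      (g' : EuclideanSpace ℝ (Fin d) →L[ℝ] EuclideanSpace ℝ (Fin r)), d ≤ k + 1 + r ∧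
      HasStrictFDerivAt g g' p ∧ Function.Surjective g' ∧ ∀ᶠ x in 𝓝 p, x ∈ A → g x = 0)
    (J : Finset (Fin d)) (hB : ∀ i ∈ J, IsBall k (proj i '' A)) : J.card ≤ k + 1 := by
  refine at_most_paratangent hk hA (fun p hp => ?_) J hB
  obtain ⟨r, g, g', hd, hg, hs, h0⟩ := hM p hp
  exact ⟨_, fr g' hs hd, fun ε hε => par g g' hg hs h0 ε hε⟩

end Pool.Agent.Work.MP_6d5d4b_gt.FP
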