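import Pool.Agent.Work.MP_6d5d4b_gt.FP.Deg
import Pool.Agent.Work.MP_6d5d4b_gt.FP.DNeg
import Pool.Agent.Work.MP_6d5d4b_gt.FP.BorB
import Pool.Agent.Work.MP_6d5d4b_gt.FP.Rad

set_option autoImplicit false

/-!
# FP/U1 (size M): the class `ua` off the diagonal

PROOF. `ι : X k → X k × X k`, `ι s = (s, -s)`; `q : X k × X k → X k`, `q (s, t) = nrm (s - t)`, continuous at the pairs with `s ≠ t`. HOMOTOPY `H τ (s, t) = (nrm (s - τ t), nrm (t - τ s))`, `τ ∈ [0,1]`, `s ≠ t`: `s - τ t ≠ 0` (`‖s‖ = ‖t‖ = 1`: `s = τ t`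
gives `τ = 1`, `s = t`), continuous there; `H 0 = id` (`nrm_sph`), `H 1 = ι ∘ q` (`nrm_neg`); the two components of `H τ (s, t)` are distinct: `nrm (s - τ t) = nrm (t - τ s)` gives `s - τ t = c (t - τ s)`, `c > 0` (`nrm_eq`),
`(1 + c τ) s = (c + τ) t`, so `s = t` (norms). So for every cochain `z` of `X k × X k` which is a cocycle near `V = {p | p.1 ≠ p.2}` and every compact `K ⊆ V`: `Cob one K ∅ (z - pb q (pb ι z))` (`hty`, `S = K`, `Z = ∅`, `S' = V`).
Apply it to `z = ua k` and to `z = pb Ψ (aq k)`, `Ψ p = nrm (F p.1 - F p.2)` (continuous at the points of `V` as `F` is injective; cocycle near `V` by `Coc.pb`).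
`pb ι (ua k) = aq - (-1)^k pb (- ·) aq` has `dg = 1 - (-1)^k (-1)^(k+1) = 2` (`dg_neg`, `aq_spec`, `dg_sub`, `dg_map`); `pb ι (pb Ψ aq) = pb g aq`, `g s = nrm (F s - F (-s))` is continuous and odd, `dg = deg g =: d` (`dg_pb`), `d ≠ 0` (`deg_odd`).
With `r = 2 / d` the cocycle `pb ι (ua k) - r • pb g aq` has `dg = 0`, so it is exact (`sph_top`) and its pull back by `q` is exact near `K`. Together: `ua k ~ pb q (pb ι (ua k)) ~ r • pb q (pb g aq) ~ r • pb Ψ aq` near `K`.
-/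

open Topology Filter Set PoolFbd

namespace Pool.Agent.Work.MP_6d5d4b_gt.FP

private theorem u1_dd_smul {E : Type} {n : ℕ} (c : ℚ) (φ : Coch E ℚ n) :
    dd one (c • φ) = c • dd one φ := by
  have h := dd_cmap (G := ℤˣ) one φ (AddMonoidHom.mulLeft c) (by
    intro g a
    rcases Int.units_eq_one_or g with rfl | rfl
    · simp
    · simp)
  exact h

private theorem u1_LZ_smul {E : Type} [TopologicalSpace E] {S : Set E} {n : ℕ} (c : ℚ)
    {φ : Coch E ℚ n} (h : LZ S φ) : LZ S (c • φ) := fun x hx => by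
  filter_upwards [h x hx] with t ht
  simp [ht]

private theorem u1_dg_smul {k : ℕ} (c : ℚ) {φ : Coch (X k) ℚ k} (hφ : LZ univ (dd one φ)) :
    dg (c • φ) = c * dg φ := by
  have h := dg_map (AddMonoidHom.mulLeft c) hφ
  exact h

private theorem u1_norm {k : ℕ} (s : X k) : ‖s.1‖ = 1 := mem_sphere_zero_iff_norm.1 s.2

private theorem u1_ne1 {k : ℕ} {s t : X k} (h : s ≠ t) {τ : ℝ} (h0 : 0 ≤ τ) :
    s.1 - τ • t.1 ≠ 0 := by
  intro h1
  have h2 : s.1 = τ • t.1 := sub_eq_zero.1 h1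
  have h3 : ‖s.1‖ = ‖τ • t.1‖ := by rw [h2]
  rw [norm_smul, u1_norm, u1_norm, Real.norm_eq_abs, abs_of_nonneg h0, mul_one] at h3
  apply h
  apply Subtype.ext
  rw [h2, ← h3, one_smul]

private theorem u1_ne2 {k : ℕ} {s t : X k} (h : s ≠ t) {τ : ℝ} (h0 : 0 ≤ τ) :
    τ • s.1 - t.1 ≠ 0 := by
  intro h1
  have h2 := u1_ne1 (Ne.symm h) h0
  apply h2
  rw [← neg_sub, h1, neg_zero]

private noncomputable def u1H {k : ℕ} (τ : ℝ) (p : X k × X k) : X k × X k :=
  (nrm (p.1.1 - τ • p.2.1), -nrm (τ • p.1.1 - p.2.1))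

private noncomputable def u1q {k : ℕ} (p : X k × X k) : X k := nrm (p.1.1 - p.2.1)

private theorem u1_H0 {k : ℕ} (p : X k × X k) : u1H 0 p = p := by
  unfold u1H
  rw [zero_smul, zero_smul, sub_zero, zero_sub, nrm_sph, nrm_neg (sph_ne _), nrm_sph, neg_neg]

private theorem u1_H1 {k : ℕ} (p : X k × X k) : u1H 1 p = (u1q p, -u1q p) := by
  unfold u1H u1q
  rw [one_smul, one_smul]

private theorem u1_Hne {k : ℕ} {p : X k × X k} (h : p.1 ≠ p.2) {τ : ℝ} (h0 : 0 ≤ τ) :
    (u1H τ p).1 ≠ (u1H τ p).2 := by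
  unfold u1H
  simp only
  rw [← nrm_neg (u1_ne2 h h0), neg_sub]
  intro h1
  obtain ⟨c, hc, h2⟩ := nrm_eq (u1_ne1 h h0) (u1_ne1 (Ne.symm h) h0) h1
  have h3 : (1 + c * τ) • p.1.1 = (c + τ) • p.2.1 := by
    have h4 : p.1.1 = τ • p.2.1 + c • (p.2.1 - τ • p.1.1) := by
      rw [← h2]; abel
    rw [add_smul, one_smul, add_smul]
    nth_rewrite 1 [h4]
    rw [smul_sub, smul_smul]
    abel
  have h5 : (1 + c * τ) = c + τ := by
    have h6 : ‖(1 + c * τ) • p.1.1‖ = ‖(c + τ) • p.2.1‖ := by rw [h3]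
    rw [norm_smul, norm_smul, u1_norm, u1_norm, Real.norm_eq_abs, Real.norm_eq_abs,
      abs_of_nonneg (by positivity), abs_of_nonneg (by positivity), mul_one, mul_one] at h6
    exact h6
  rw [← h5] at h3
  have h7 : (1 + c * τ) ≠ 0 := by positivity
  exact h (Subtype.ext (smul_right_injective _ h7 h3))

private theorem u1_Hcont {k : ℕ} {p : X k × X k} (h : p.1 ≠ p.2) {τ : ℝ} (h0 : 0 ≤ τ) :
    ContinuousAt (fun y : ℝ × (X k × X k) => u1H y.1 y.2) (τ, p) := by
  unfold u1H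
  have c1 : Continuous (fun y : ℝ × (X k × X k) => y.2.1.1 - y.1 • y.2.2.1) := by
    fun_prop
  have c2 : Continuous (fun y : ℝ × (X k × X k) => y.1 • y.2.1.1 - y.2.2.1) := by
    fun_prop
  have d1 : ContinuousAt (fun y : ℝ × (X k × X k) => (nrm (y.2.1.1 - y.1 • y.2.2.1) : X k))
      (τ, p) :=
    ContinuousAt.comp (f := fun y : ℝ × (X k × X k) => y.2.1.1 - y.1 • y.2.2.1)
      (g := (nrm : (Fin (k + 1) → ℝ) → X k)) (nrm_cont (u1_ne1 h h0)) c1.continuousAt
  have d2 : ContinuousAt (fun y : ℝ × (X k × X k) => (nrm (y.1 • y.2.1.1 - y.2.2.1) : X k))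
      (τ, p) :=
    ContinuousAt.comp (f := fun y : ℝ × (X k × X k) => y.1 • y.2.1.1 - y.2.2.1)
      (g := (nrm : (Fin (k + 1) → ℝ) → X k)) (nrm_cont (u1_ne2 h h0)) c2.continuousAt
  exact d1.prodMk d2.neg

private theorem u1_qcont {k : ℕ} {p : X k × X k} (h : p.1 ≠ p.2) :
    ContinuousAt (u1q : X k × X k → X k) p := by
  have c1 : Continuous (fun y : X k × X k => y.1.1 - y.2.1) := by fun_prop
  have hne : p.1.1 - p.2.1 ≠ 0 := by
    have := u1_ne1 h (zero_le_one)
    rwa [one_smul] at this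
  exact ContinuousAt.comp (f := fun y : X k × X k => y.1.1 - y.2.1)
    (g := (nrm : (Fin (k + 1) → ℝ) → X k)) (nrm_cont hne) c1.continuousAt

private theorem u1_hty {k : ℕ} {z : Coch (X k × X k) ℚ k}
    (hz : LZ {p : X k × X k | p.1 ≠ p.2} (dd one z)) {K : Set (X k × X k)} (hK : IsCompact K)
    (hd : ∀ p ∈ K, p.1 ≠ p.2) :
    Cob one K ∅ (z - pb (u1q : X k × X k → X k) (pb (fun s : X k => (s, -s)) z)) := by
  have h := hty (E := X k × X k) (E' := X k × X k) (A := ℚ) hK isCompact_empty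
    (S' := {p : X k × X k | p.1 ≠ p.2}) (Z' := ∅) (u1H (k := k))
    (fun s hs x hx => u1_Hcont (hd x (hx.elim id (fun h => h.elim))) hs.1)
    (fun s hs x hx => u1_Hne (hd x hx) hs.1)
    (fun s hs x hx => hx.elim) (φ := z) ⟨LZ.empty z, hz⟩
  have e0 : pb (u1H (k := k) 0) z = z := by
    funext t
    unfold pb
    congr 1
    funext j
    exact u1_H0 _
  have e1 : pb (u1H (k := k) 1) z
      = pb (u1q : X k × X k → X k) (pb (fun s : X k => (s, -s)) z) := by
    funext t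
    unfold pb
    congr 1
    funext j
    exact u1_H1 _
  rw [e0, e1] at h
  exact h

theorem ua_psi {k : ℕ} (hk : 1 ≤ k) {F : X k → (Fin (k + 1) → ℝ)} (hF : Continuous F)
    (hi : Function.Injective F) :
    ∃ r : ℚ, ∀ K : Set (X k × X k), IsCompact K → (∀ p ∈ K, p.1 ≠ p.2) →
      Cob one K ∅ (ua k - r • pb (fun p : X k × X k => (nrm (F p.1 - F p.2) : X k)) (aq k)) := by
  obtain ⟨ha, ha1⟩ := aq_spec k
  have hne : ∀ s : X k, s ≠ -s := by
    intro s h
    have h1 : s.1 = -s.1 := congrArg Subtype.val h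
    have h2 : s.1 = 0 := self_eq_neg.1 h1
    exact sph_ne s h2
  -- the odd map
  have gne : ∀ s : X k, F s - F (-s) ≠ 0 := fun s h => hne s (hi (sub_eq_zero.1 h))
  have gc : Continuous (fun s : X k => (nrm (F s - F (-s)) : X k)) := by
    have c1 : Continuous (fun s : X k => F s - F (-s)) := hF.sub (hF.comp continuous_neg)
    rw [continuous_iff_continuousAt]
    intro s
    exact ContinuousAt.comp (f := fun s : X k => F s - F (-s))
      (g := (nrm : (Fin (k + 1) → ℝ) → X k)) (nrm_cont (gne s)) c1.continuousAt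
  have go : ∀ s : X k, (nrm (F (-s) - F (-(-s))) : X k) = -nrm (F s - F (-s)) := by
    intro s
    rw [neg_neg, ← nrm_neg (gne s), neg_sub]
  have hodd := deg_odd hk gc go
  obtain ⟨m, hm⟩ := hodd
  have hd0 : (deg (fun s : X k => (nrm (F s - F (-s)) : X k)) : ℚ) ≠ 0 := by
    intro h
    have : deg (fun s : X k => (nrm (F s - F (-s)) : X k)) = 0 := by exact_mod_cast h
    omega
  have gdg : dg (pb (fun s : X k => (nrm (F s - F (-s)) : X k)) (aq k))
      = (deg (fun s : X k => (nrm (F s - F (-s)) : X k)) : ℚ) := by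
    rw [dg_pb hk gc ha, ha1]
    simp
  have gco : LZ univ (dd one (pb (fun s : X k => (nrm (F s - F (-s)) : X k)) (aq k))) :=
    ha.pb (fun x _ => ⟨gc.continuousAt, mem_univ _⟩)
  -- the antipodal map
  have nco : LZ univ (dd one (pb (fun s : X k => -s) (aq k))) :=
    ha.pb (fun x _ => ⟨continuous_neg.continuousAt, mem_univ _⟩)
  have hι : pb (fun s : X k => (s, -s)) (ua k)
      = aq k - (-1 : ℚ) ^ k • pb (fun s : X k => -s) (aq k) := rfl
  have nco' : LZ univ (dd one ((-1 : ℚ) ^ k • pb (fun s : X k => -s) (aq k))) := by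
    rw [u1_dd_smul]
    exact u1_LZ_smul _ nco
  have ιco : LZ univ (dd one (pb (fun s : X k => (s, -s)) (ua k))) := by
    rw [hι, dd_sub]
    exact ha.sub nco'
  have ιdg : dg (pb (fun s : X k => (s, -s)) (ua k)) = 2 := by
    rw [hι, dg_sub ha nco', u1_dg_smul _ nco, dg_neg ha, ha1]
    rw [pow_succ]
    rcases Nat.even_or_odd k with h | h
    · simp [h.neg_one_pow]; norm_num
    · simp [h.neg_one_pow]; norm_num
  set d : ℚ := (deg (fun s : X k => (nrm (F s - F (-s)) : X k)) : ℚ) with hd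
  refine ⟨2 / d, fun K hK hKd => ?_⟩
  set r : ℚ := 2 / d with hr
  have rco : LZ univ (dd one (r • pb (fun s : X k => (nrm (F s - F (-s)) : X k)) (aq k))) := by
    rw [u1_dd_smul]
    exact u1_LZ_smul _ gco
  have wex : Cob one univ ∅ (pb (fun s : X k => (s, -s)) (ua k)
      - r • pb (fun s : X k => (nrm (F s - F (-s)) : X k)) (aq k)) := by
    apply sph_top hk
    · rw [dd_sub]
      exact ιco.sub rco
    · rw [dg_sub ιco rco, ιdg, u1_dg_smul _ gco, gdg, hr, div_mul_cancel₀ _ hd0, sub_self]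
  have wK : Cob one K ∅ (pb (u1q : X k × X k → X k) (pb (fun s : X k => (s, -s)) (ua k)
      - r • pb (fun s : X k => (nrm (F s - F (-s)) : X k)) (aq k))) :=
    Cob.pb (τ := one) (S := K) (Z := ∅) (S' := univ) (Z' := ∅)
      (fun x hx => ⟨u1_qcont (hKd x hx), mem_univ _⟩) (fun x hx => hx.elim) wex
  -- the two cocycles near the complement of the diagonal
  have uco : LZ {p : X k × X k | p.1 ≠ p.2} (dd one (ua k)) := by
    unfold ua
    rw [dd_sub, u1_dd_smul]
    have h1 : LZ {p : X k × X k | p.1 ≠ p.2} (dd one (pb (Prod.fst : X k × X k → X k) (aq k))) :=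
      ha.pb (fun x _ => ⟨continuous_fst.continuousAt, mem_univ _⟩)
    have h2 : LZ {p : X k × X k | p.1 ≠ p.2} (dd one (pb (Prod.snd : X k × X k → X k) (aq k))) :=
      ha.pb (fun x _ => ⟨continuous_snd.continuousAt, mem_univ _⟩)
    exact h1.sub (u1_LZ_smul _ h2)
  have pco : LZ {p : X k × X k | p.1 ≠ p.2}
      (dd one (r • pb (fun p : X k × X k => (nrm (F p.1 - F p.2) : X k)) (aq k))) := by
    rw [u1_dd_smul]
    apply u1_LZ_smul
    have c1 : Continuous (fun p : X k × X k => F p.1 - F p.2) :=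
      (hF.comp continuous_fst).sub (hF.comp continuous_snd)
    have c2 : ∀ x ∈ {p : X k × X k | p.1 ≠ p.2},
        ContinuousAt (fun p : X k × X k => (nrm (F p.1 - F p.2) : X k)) x ∧
          (nrm (F x.1 - F x.2) : X k) ∈ (univ : Set (X k)) := fun x hx =>
      ⟨ContinuousAt.comp (f := fun p : X k × X k => F p.1 - F p.2)
        (g := (nrm : (Fin (k + 1) → ℝ) → X k))
        (nrm_cont (fun h => hx (hi (sub_eq_zero.1 h)))) c1.continuousAt, mem_univ _⟩
    exact ha.pb c2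
  have A1 := u1_hty uco hK hKd
  have A2 := u1_hty pco hK hKd
  have A3 := (A1.add wK).sub A2
  have e : ua k - r • pb (fun p : X k × X k => (nrm (F p.1 - F p.2) : X k)) (aq k)
      = ua k - pb u1q (pb (fun s => (s, -s)) (ua k)) +
        pb u1q (pb (fun s => (s, -s)) (ua k) - r • pb (fun s => nrm (F s - F (-s))) (aq k)) -
      (r • pb (fun p => nrm (F p.1 - F p.2)) (aq k) -
        pb u1q (pb (fun s => (s, -s)) (r • pb (fun p => nrm (F p.1 - F p.2)) (aq k)))) := by
    funext t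
    simp only [Pi.add_apply, Pi.sub_apply, Pi.smul_apply, pb]
    ring
  rw [e]
  exact A3

end Pool.Agent.Work.MP_6d5d4b_gt.FP
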